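import Pool.Agent.H424R3.KakMoll

set_option autoImplicit false

/-!
# The core: families of lines over a Hölder map have sections of positive measure
-/

open MeasureTheory Set Filter Topology
open scoped ContDiff Manifold

namespace Pool.Agent.H424R3.Kak

variable {d : ℕ}

theorem lagrange_det (M : Matrix (Fin d) (Fin d) ℝ) (T : Finset ℝ) (hT : T.card = d + 1) :
    ∑ t ∈ T, (M + t • (1 : Matrix (Fin d) (Fin d) ℝ)).det / ∏ s ∈ T.erase t, (t - s) = 1 := by
  have hdeg : ((-M).charpoly).degree = (d : WithBot ℕ) := by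
    rw [Matrix.charpoly_degree_eq_dim, Fintype.card_fin]
  have h := Lagrange.leadingCoeff_eq_sum (s := T) (v := (id : ℝ → ℝ)) (Set.injOn_id _)
    (P := (-M).charpoly) (by rw [hdeg, hT]; norm_cast)
  rw [(-M).charpoly_monic.leadingCoeff] at h
  rw [h]
  refine Finset.sum_congr rfl fun t _ => ?_
  rw [Matrix.eval_charpoly]
  congr 2
  rw [sub_neg_eq_add, add_comm]
  congr 1
  ext i j
  simp [Matrix.scalar_apply, Matrix.diagonal_apply, Matrix.one_apply]

theorem diag_tendsto (V : ℕ → ℕ → ℝ) (C q : ℝ) (hC : 0 ≤ C) (hq0 : 0 ≤ q) (hq1 : q < 1)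
    (hstep : ∀ m k, |V m (k + 1) - V m k| ≤ C * q ^ k)
    (hV : ∀ k, Tendsto (fun m => V m k) atTop (𝓝 0)) : Tendsto (fun m => V m m) atTop (𝓝 0) := by
  have h1q : 0 < 1 - q := by linarith
  have key : ∀ m k n, |V m (k + n) - V m k| ≤ C * q ^ k * (1 - q ^ n) / (1 - q) := by
    intro m k n
    induction n with
    | zero => simp
    | succ n ih =>
      calc |V m (k + (n + 1)) - V m k|
          ≤ |V m (k + n + 1) - V m (k + n)| + |V m (k + n) - V m k| := abs_sub_le _ _ _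
        _ ≤ C * q ^ (k + n) + C * q ^ k * (1 - q ^ n) / (1 - q) := add_le_add (hstep _ _) ih
        _ = _ := by
            rw [pow_add, pow_succ]
            field_simp
            ring
  rw [Metric.tendsto_atTop]
  intro ε hε
  have hlim : Tendsto (fun k : ℕ => C * q ^ k / (1 - q)) atTop (𝓝 0) := by
    have := ((tendsto_pow_atTop_nhds_zero_of_lt_one hq0 hq1).const_mul C).div_const (1 - q)
    simpa using this
  obtain ⟨k, hk⟩ := (hlim.eventually (gt_mem_nhds (half_pos hε))).exists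
  obtain ⟨N, hN⟩ := Metric.tendsto_atTop.mp (hV k) (ε / 2) (half_pos hε)
  refine ⟨max N k, fun m hm => ?_⟩
  have hmN : N ≤ m := (le_max_left _ _).trans hm
  have hmk : k ≤ m := (le_max_right _ _).trans hm
  obtain ⟨n, rfl⟩ := Nat.exists_eq_add_of_le hmk
  have h1 := key (k + n) k n
  have h2 := hN (k + n) hmN
  rw [Real.dist_eq, sub_zero] at h2 ⊢
  have h3 : C * q ^ k * (1 - q ^ n) / (1 - q) ≤ C * q ^ k / (1 - q) := by
    apply div_le_div_of_nonneg_right _ h1q.le
    have h4 : 0 ≤ C * q ^ k := by positivity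
    have h5 : 0 ≤ q ^ n := by positivity
    nlinarith
  calc |V (k + n) (k + n)| = |(V (k + n) (k + n) - V (k + n) k) + V (k + n) k| := by ring_nf
    _ ≤ |V (k + n) (k + n) - V (k + n) k| + |V (k + n) k| := abs_add_le _ _
    _ < ε := by linarith

theorem exists_shift (F : (Fin d → ℝ) → (Fin d → ℝ)) (hF : Continuous F) (Z : Set (Fin d → ℝ))
    (hZ : IsClosed Z) (hnull : volume Z = 0) (ε : ℝ) (hε : 0 < ε) :
    ∃ c : Fin d → ℝ, ‖c‖ ≤ ε ∧ ∀ᵐ y, F y + c ∉ Z := by
  have hm : MeasurableSet {p : (Fin d → ℝ) × (Fin d → ℝ) | F p.2 + p.1 ∉ Z} := by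
    have : {p : (Fin d → ℝ) × (Fin d → ℝ) | F p.2 + p.1 ∉ Z} =
      ((fun p : (Fin d → ℝ) × (Fin d → ℝ) => F p.2 + p.1) ⁻¹' Z)ᶜ := rfl
    rw [this]
    exact ((hZ.preimage (by fun_prop)).measurableSet).compl
  have h : ∀ᵐ c : Fin d → ℝ, ∀ᵐ y : Fin d → ℝ, F y + c ∉ Z := by
    rw [Measure.ae_ae_comm (p := fun (c y : Fin d → ℝ) => F y + c ∉ Z) hm]
    refine Filter.Eventually.of_forall fun y => ?_
    rw [ae_iff]
    simp only [not_not]
    have : {c | F y + c ∈ Z} = (fun c => F y + c) ⁻¹' Z := rfl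
    rw [this, measure_preimage_add]
    exact hnull
  obtain ⟨c, hc1, hc2⟩ := (Measure.dense_of_ae h).exists_mem_open Metric.isOpen_ball
    (⟨0, Metric.mem_ball_self hε⟩ : (Metric.ball (0 : Fin d → ℝ) ε).Nonempty)
  refine ⟨c, ?_, ?_⟩
  · have := Metric.mem_ball.mp hc2
    rw [dist_zero_right] at this
    exact this.le
  · exact hc1

theorem exists_cutoff (Z : Set (Fin d → ℝ)) (r : ℝ) (hr : 0 < r) :
    ∃ φ : (Fin d → ℝ) → ℝ, ContDiff ℝ 2 φ ∧ (∀ x, |φ x| ≤ 1) ∧
      (∀ x, Metric.infDist x Z ≤ r → φ x = 1) ∧ (∀ x, 2 * r ≤ Metric.infDist x Z → φ x = 0) := by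
  have h1 : IsClosed {x | 2 * r ≤ Metric.infDist x Z} :=
    isClosed_le continuous_const (Metric.continuous_infDist_pt Z)
  have h2 : IsClosed {x | Metric.infDist x Z ≤ r} :=
    isClosed_le (Metric.continuous_infDist_pt Z) continuous_const
  have h3 : Disjoint {x | 2 * r ≤ Metric.infDist x Z} {x | Metric.infDist x Z ≤ r} := by
    rw [Set.disjoint_left]
    intro x hx hx2
    simp only [Set.mem_ofPred_eq] at hx hx2
    linarith
  obtain ⟨f, hf0, hf1, hf⟩ := exists_contMDiffMap_zero_one_of_isClosed (n := 2)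
    𝓘(ℝ, Fin d → ℝ) h1 h2 h3
  refine ⟨f, ?_, ?_, ?_, ?_⟩
  · exact f.contMDiff.contDiff
  · intro x
    rw [abs_of_nonneg (hf x).1]
    exact (hf x).2
  · intro x hx
    exact hf1 hx
  · intro x hx
    exact hf0 hx

/-- The shifted section map of a smooth family. -/
noncomputable def sec (G : Fin d → (Fin d → ℝ) → ℝ) (t : ℝ) (c : Fin d → ℝ) :
    Fin d → (Fin d → ℝ) → ℝ := fun j y => G j y + t * y j + c j

theorem contDiff_sec {n : ℕ∞ω} {G : Fin d → (Fin d → ℝ) → ℝ} (hG : ∀ j, ContDiff ℝ n (G j)) (t : ℝ)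
    (c : Fin d → ℝ) (j : Fin d) : ContDiff ℝ n (sec G t c j) := by
  unfold sec
  exact ((hG j).add (contDiff_const.mul (contDiff_apply ℝ ℝ j))).add contDiff_const

theorem pd_sec {G : Fin d → (Fin d → ℝ) → ℝ} (hG : ∀ j, Differentiable ℝ (G j)) (t : ℝ)
    (c : Fin d → ℝ) (j k : Fin d) (y : Fin d → ℝ) :
    pd k (sec G t c j) y = pd k (G j) y + t * (1 : Matrix (Fin d) (Fin d) ℝ) j k := by
  unfold pd sec
  have h1 : HasFDerivAt (fun y : Fin d → ℝ => G j y + t * y j + c j)
      (fderiv ℝ (G j) y + t • (ContinuousLinearMap.proj (R := ℝ) (φ := fun _ : Fin d => ℝ) j)) y := by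
    refine HasFDerivAt.add_const _ ?_
    refine (hG j y).hasFDerivAt.add ?_
    exact (ContinuousLinearMap.proj (R := ℝ) (φ := fun _ : Fin d => ℝ) j).hasFDerivAt.const_mul t
  rw [h1.fderiv]
  simp [Matrix.one_apply, Pi.single_apply]

theorem jac_sec {G : Fin d → (Fin d → ℝ) → ℝ} (hG : ∀ j, Differentiable ℝ (G j)) (t : ℝ)
    (c : Fin d → ℝ) (y : Fin d → ℝ) :
    jac (sec G t c) y = (jmat G y + t • (1 : Matrix (Fin d) (Fin d) ℝ)).det := by
  unfold jac
  congr 1
  ext j k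
  simp only [jmat, Matrix.of_apply, Matrix.add_apply, Matrix.smul_apply, smul_eq_mul]
  exact pd_sec hG t c j k y

theorem tendsto_zero {ψ : (Fin d → ℝ) → ℝ} (hψ : ContDiff ℝ 1 ψ) (hψc : HasCompactSupport ψ)
    (G : ℕ → Fin d → (Fin d → ℝ) → ℝ) (hG : ∀ m j, ContDiff ℝ 2 (G m j))
    (b : (Fin d → ℝ) → (Fin d → ℝ)) (C B x z : ℝ) (hC : 0 ≤ C) (hB : 0 ≤ B) (hx0 : 0 < x)
    (hx1 : x ≤ 1) (hz : 1 ≤ z) (hq : x * z ^ (d - 1) < 1)
    (hGb : ∀ m j y, |G m j y - b y j| ≤ C * x ^ m) (hGd : ∀ m j k y, |pd k (G m j) y| ≤ B * z ^ m)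
    (t : ℝ) (Z : Set (Fin d → ℝ)) (hZc : IsClosed Z) (hZ0 : volume Z = 0)
    (hZ : ∀ y, ψ y ≠ 0 → b y + t • y ∈ Z) (hne : Z.Nonempty) :
    Tendsto (fun m => ∫ y, ψ y * (jmat (G m) y + t • (1 : Matrix (Fin d) (Fin d) ℝ)).det)
      atTop (𝓝 0) := by
  have hGdiff : ∀ m j, Differentiable ℝ (G m j) := fun m j => (hG m j).differentiable (by norm_num)
  -- the shifts
  have hsh : ∀ m, ∃ c : Fin d → ℝ, ‖c‖ ≤ x ^ m ∧ ∀ᵐ y, (fun j => sec (G m) t c j y) ∉ Z := by
    intro m
    have hcont : Continuous (fun y : Fin d → ℝ => fun j => G m j y + t * y j) := by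
      refine continuous_pi fun j => ?_
      exact ((hG m j).continuous).add (continuous_const.mul (continuous_apply j))
    obtain ⟨c, hc1, hc2⟩ := exists_shift _ hcont Z hZc hZ0 (x ^ m) (by positivity)
    refine ⟨c, hc1, ?_⟩
    filter_upwards [hc2] with y hy
    exact hy
  choose c hc1 hc2 using hsh
  -- the cut-offs
  have hr : ∀ m, 0 < (C + 1) * x ^ m := fun m => by positivity
  choose φ hφ2 hφ1 hφon hφoff using fun m => exists_cutoff Z ((C + 1) * x ^ m) (hr m)
  set F : ℕ → Fin d → (Fin d → ℝ) → ℝ := fun m => sec (G m) t (c m) with hF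
  have hF2 : ∀ m j, ContDiff ℝ 2 (F m j) := fun m j => contDiff_sec (hG m) t (c m) j
  set V : ℕ → ℕ → ℝ := fun m k => val ψ (φ m) (F k) with hV
  have hcj : ∀ m j, |c m j| ≤ x ^ m := fun m j => by
    have := (norm_le_pi_norm (c m) j).trans (hc1 m)
    rwa [Real.norm_eq_abs] at this
  -- the diagonal
  have hdiag : ∀ m, V m m = ∫ y, ψ y * (jmat (G m) y + t • (1 : Matrix (Fin d) (Fin d) ℝ)).det := by
    intro m
    simp only [hV, val, hF]
    congr 1
    ext y
    rw [jac_sec (hGdiff m)]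
    by_cases hy : ψ y = 0
    · simp [hy]
    · have h1 : φ m (fun j => sec (G m) t (c m) j y) = 1 := by
        apply hφon
        refine (Metric.infDist_le_dist_of_mem (hZ y hy)).trans ?_
        rw [dist_pi_le_iff (hr m).le]
        intro j
        rw [Real.dist_eq]
        simp only [sec, Pi.add_apply, Pi.smul_apply, smul_eq_mul]
        calc |G m j y + t * y j + c m j - (b y j + t * y j)|
            = |(G m j y - b y j) + c m j| := by ring_nf
          _ ≤ |G m j y - b y j| + |c m j| := abs_add_le _ _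
          _ ≤ C * x ^ m + x ^ m := add_le_add (hGb m j y) (hcj m j)
          _ = _ := by ring
      rw [h1, mul_one]
  -- the limits for fixed k
  have hlim : ∀ k, Tendsto (fun m => V m k) atTop (𝓝 0) := by
    intro k
    have hjc : Continuous (jac (F k)) := continuous_jac fun j => (hF2 k j).of_le (by norm_num)
    have hFc : Continuous (fun y => fun j => F k j y) :=
      continuous_pi fun j => (hF2 k j).continuous
    have h0 : (0:ℝ) = ∫ y : Fin d → ℝ, (0:ℝ) := by simp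
    rw [h0]
    simp only [hV, val]
    apply tendsto_integral_of_dominated_convergence (fun y => |ψ y * jac (F k) y|)
    · intro m
      exact ((hψ.continuous.mul ((hφ2 m).continuous.comp hFc)).mul hjc).aestronglyMeasurable
    · exact ((hψ.continuous.mul hjc).integrable_of_hasCompactSupport hψc.mul_right).abs
    · intro m
      refine Filter.Eventually.of_forall fun y => ?_
      rw [Real.norm_eq_abs]
      calc |ψ y * φ m (fun j => F k j y) * jac (F k) y|
          = |ψ y * jac (F k) y| * |φ m (fun j => F k j y)| := by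
            rw [← abs_mul]; ring_nf
        _ ≤ |ψ y * jac (F k) y| * 1 := by
            gcongr
            exact hφ1 m _
        _ = _ := mul_one _
    · filter_upwards [hc2 k] with y hy
      have hpos : 0 < Metric.infDist (fun j => F k j y) Z :=
        (hZc.notMem_iff_infDist_pos hne).mp hy
      have hxk : ∃ N : ℕ, ∀ m ≥ N, 2 * ((C + 1) * x ^ m) ≤ Metric.infDist (fun j => F k j y) Z := by
        by_cases hx : x < 1
        · have h5 : Tendsto (fun m : ℕ => 2 * ((C + 1) * x ^ m)) atTop (𝓝 0) := by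
            have := ((tendsto_pow_atTop_nhds_zero_of_lt_one hx0.le hx).const_mul (C + 1)).const_mul 2
            simpa using this
          have h6 := h5.eventually (gt_mem_nhds hpos)
          obtain ⟨N, hN⟩ := Filter.eventually_atTop.mp h6
          exact ⟨N, fun m hm => (hN m hm).le⟩
        · exfalso
          have h7 : 1 ≤ z ^ (d - 1) := one_le_pow₀ hz
          have h8 : x = 1 := le_antisymm hx1 (not_lt.mp hx)
          rw [h8] at hq
          linarith
      obtain ⟨N, hN⟩ := hxk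
      apply tendsto_const_nhds.congr'
      filter_upwards [Filter.eventually_ge_atTop N] with m hm
      rw [hφoff m _ (hN m hm)]
      ring
  -- the steps
  set L0 : ℝ := (B + |t|) * z with hL0
  have hL0' : 0 ≤ L0 := by positivity
  have hpdF : ∀ k m, m ≤ k + 1 → ∀ y j l, |pd l (F m j) y| ≤ L0 * z ^ k := by
    intro k m hm y j l
    simp only [hF]
    rw [pd_sec (hGdiff m)]
    have h1 : |(1 : Matrix (Fin d) (Fin d) ℝ) j l| ≤ 1 := by
      rw [Matrix.one_apply]; split_ifs <;> simp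
    have h2 : z ^ m ≤ z ^ (k + 1) := pow_le_pow_right₀ hz hm
    have h3 : 1 ≤ z ^ (k + 1) := one_le_pow₀ hz
    calc |pd l (G m j) y + t * (1 : Matrix (Fin d) (Fin d) ℝ) j l|
        ≤ |pd l (G m j) y| + |t| * |(1 : Matrix (Fin d) (Fin d) ℝ) j l| := by
          rw [← abs_mul]; exact abs_add_le _ _
      _ ≤ B * z ^ m + |t| * 1 := by
          gcongr
          exact hGd m j l y
      _ ≤ B * z ^ (k + 1) + |t| * z ^ (k + 1) := by gcongr
      _ = L0 * z ^ k := by rw [hL0, pow_succ]; ring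
  have hH : ∀ k y j, |F (k + 1) j y - F k j y| ≤ (2 * (C + 1)) * x ^ k := by
    intro k y j
    simp only [hF, sec]
    have h1 := hGb (k + 1) j y
    have h2 := hGb k j y
    have h3 := hcj (k + 1) j
    have h4 := hcj k j
    have h5 : x ^ (k + 1) ≤ x ^ k := pow_le_pow_of_le_one hx0.le hx1 (Nat.le_succ k)
    have h6 : C * x ^ (k + 1) ≤ C * x ^ k := by gcongr
    rw [abs_le] at h1 h2 h3 h4 ⊢
    constructor <;> nlinarith
  have hstep : ∀ m k, |V m (k + 1) - V m k|
      ≤ (d * (2 * (C + 1)) * L0 ^ (d - 1) * cst ψ) * (x * z ^ (d - 1)) ^ k := by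
    intro m k
    have := val_sub_le (F (k + 1)) (F k) (hF2 _) (hF2 _) hψ hψc (hφ2 m) (hφ1 m) (hH k)
      (hpdF k (k + 1) le_rfl) (hpdF k k (Nat.le_succ k))
    refine this.trans (le_of_eq ?_)
    have e1 : (L0 * z ^ k) ^ (d - 1) = L0 ^ (d - 1) * (z ^ (d - 1)) ^ k := by
      rw [mul_pow, ← pow_mul, ← pow_mul, mul_comm k]
    rw [e1, mul_pow x]
    ring
  have hfin := diag_tendsto V (d * (2 * (C + 1)) * L0 ^ (d - 1) * cst ψ) (x * z ^ (d - 1))
    (by have := cst_nonneg ψ; positivity) (by positivity) hq hstep hlim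
  exact hfin.congr hdiag

/-- **Core theorem.**  If `b` is `α`-Hölder with `α d > d - 1`, then among any `d + 1` heights `t`
there is one for which the section `{b y + t y}` is not contained in a closed null set. -/
theorem core (hd : 1 ≤ d) (b : (Fin d → ℝ) → (Fin d → ℝ)) (C α : ℝ) (hC : 0 ≤ C) (hα0 : 0 < α)
    (hα1 : α ≤ 1) (hαd : (d : ℝ) - 1 < α * d) (hb : ∀ x y j, |b x j - b y j| ≤ C * ‖x - y‖ ^ α)
    (R : ℝ) (hR : 0 < R) (Z : ℝ → Set (Fin d → ℝ)) (T : Finset ℝ) (hT : T.card = d + 1)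
    (hZc : ∀ t ∈ T, IsClosed (Z t)) (hZ : ∀ t ∈ T, ∀ y ∈ Metric.ball 0 R, b y + t • y ∈ Z t)
    (hnull : ∀ t ∈ T, volume (Z t) = 0) : False := by
  obtain ⟨A, hA, hmoll⟩ := exists_moll d
  set x : ℝ := (1/2 : ℝ) ^ α with hx
  set z : ℝ := (1/2 : ℝ) ^ (α - 1) with hz
  have hx0 : 0 < x := by positivity
  have hx1 : x ≤ 1 := Real.rpow_le_one (by norm_num) (by norm_num) hα0.le
  have hz1 : 1 ≤ z := Real.one_le_rpow_of_pos_of_le_one_of_nonpos (by norm_num) (by norm_num)
    (by linarith)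
  have hq : x * z ^ (d - 1) < 1 := by
    rw [hx, hz, ← Real.rpow_natCast, ← Real.rpow_mul (by norm_num), ← Real.rpow_add (by norm_num)]
    apply Real.rpow_lt_one (by norm_num) (by norm_num)
    rw [Nat.cast_sub hd, Nat.cast_one]
    nlinarith
  have hchoose : ∀ m : ℕ, ∀ j : Fin d, ∃ G : (Fin d → ℝ) → ℝ, ContDiff ℝ 2 G ∧
      (∀ y, |G y - b y j| ≤ C * x ^ m) ∧ ∀ k y, |pd k G y| ≤ (A * C) * z ^ m := by
    intro m j
    obtain ⟨G, h1, h2, h3⟩ := hmoll (fun y => b y j) C α hC hα0 (fun x y => hb x y j)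
      ((1/2 : ℝ) ^ m) (by positivity)
    have e1 : (((1/2 : ℝ) ^ m) : ℝ) ^ α = x ^ m := by
      rw [hx, ← Real.rpow_natCast, ← Real.rpow_natCast, ← Real.rpow_mul (by norm_num),
        ← Real.rpow_mul (by norm_num), mul_comm]
    have e2 : (((1/2 : ℝ) ^ m) : ℝ) ^ α * ((1/2 : ℝ) ^ m)⁻¹ = z ^ m := by
      rw [e1, ← inv_pow, ← mul_pow, hz, Real.rpow_sub (by norm_num), Real.rpow_one, ← hx,
        div_eq_mul_inv x]
    rw [e1] at h2
    rw [e2] at h3
    exact ⟨G, h1, h2, h3⟩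
  choose G hG1 hG2 hG3 using hchoose
  let ψ : ContDiffBump (0 : Fin d → ℝ) := ⟨R/2, R, by positivity, by linarith⟩
  have hψ : ContDiff ℝ 1 (ψ : (Fin d → ℝ) → ℝ) := ψ.contDiff
  have hψc : HasCompactSupport (ψ : (Fin d → ℝ) → ℝ) := ψ.hasCompactSupport
  have hψ0 : ∀ y, ψ y ≠ 0 → y ∈ Metric.ball (0 : Fin d → ℝ) R := by
    intro y hy
    have : Function.support ψ = Metric.ball 0 ψ.rOut := ψ.support_eq
    rw [← Function.mem_support, this] at hy
    exact hy
  have hlim : ∀ t ∈ T, Tendsto (fun m => ∫ y, ψ y * (jmat (G m) y +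
      t • (1 : Matrix (Fin d) (Fin d) ℝ)).det) atTop (𝓝 0) := by
    intro t ht
    refine tendsto_zero hψ hψc G hG1 b C (A * C) x z hC (by positivity) hx0 hx1 hz1 hq
      hG2 (fun m j k y => hG3 m j k y) t (Z t) (hZc t ht) (hnull t ht)
      (fun y hy => hZ t ht y (hψ0 y hy)) ⟨_, hZ t ht 0 (Metric.mem_ball_self hR)⟩
  have hint : ∀ (m : ℕ) (t : ℝ), Integrable (fun y => ψ y * (jmat (G m) y +
      t • (1 : Matrix (Fin d) (Fin d) ℝ)).det) := by
    intro m t
    have h1 : Continuous (fun y => (jmat (G m) y + t • (1 : Matrix (Fin d) (Fin d) ℝ)).det) := by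
      apply Continuous.matrix_det
      refine Continuous.add ?_ continuous_const
      apply continuous_matrix
      intro j k
      exact continuous_pd (hG1 m j) (by norm_num) k
    exact (hψ.continuous.mul h1).integrable_of_hasCompactSupport hψc.mul_right
  have hsum : ∀ m, ∑ t ∈ T, (∫ y, ψ y * (jmat (G m) y +
      t • (1 : Matrix (Fin d) (Fin d) ℝ)).det) / ∏ s ∈ T.erase t, (t - s) = ∫ y, ψ y := by
    intro m
    have h1 : ∀ t : ℝ, (∫ y, ψ y * (jmat (G m) y +
      t • (1 : Matrix (Fin d) (Fin d) ℝ)).det) / ∏ s ∈ T.erase t, (t - s)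
      = ∫ y, (ψ y * (jmat (G m) y +
      t • (1 : Matrix (Fin d) (Fin d) ℝ)).det) / ∏ s ∈ T.erase t, (t - s) := by
      intro t
      rw [integral_div]
    simp_rw [h1]
    rw [← integral_finsetSum _ fun t _ => (hint m t).div_const _]
    congr 1
    ext y
    simp_rw [mul_div_assoc]
    rw [← Finset.mul_sum, lagrange_det _ T hT, mul_one]
  have hlim2 : Tendsto (fun m => ∑ t ∈ T, (∫ y, ψ y * (jmat (G m) y +
      t • (1 : Matrix (Fin d) (Fin d) ℝ)).det) / ∏ s ∈ T.erase t, (t - s)) atTop (𝓝 0) := by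
    have : (0 : ℝ) = ∑ t ∈ T, 0 / ∏ s ∈ T.erase t, (t - s) := by simp
    rw [this]
    exact tendsto_finsetSum _ fun t ht => (hlim t ht).div_const _
  simp_rw [hsum] at hlim2
  have h0 := tendsto_nhds_unique hlim2 tendsto_const_nhds
  have hpos : 0 < ∫ y, ψ y := ψ.integral_pos
  linarith

end Pool.Agent.H424R3.Kak
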