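import Pool.Agent.H424R3.KakFin

set_option autoImplicit false

/-!
# Dimensions of compact sets of positive measure
-/

open MeasureTheory Set Filter Topology

namespace Pool.Agent.H424R3.Kak

/-- The lower Minkowski dimension `n - limsup_{δ → 0+} log |N_δ K| / log δ`, where `N_δ K` is the
`δ`-neighbourhood of `K`. -/
noncomputable def lowerMinkowskiDim {n : ℕ} (K : Set (EuclideanSpace ℝ (Fin n))) : ℝ :=
  n - Filter.limsup (fun δ : ℝ => Real.log (volume (Metric.thickening δ K)).toReal / Real.log δ)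
    (𝓝[>] 0)

theorem lowerMinkowskiDim_eq {n : ℕ} (K : Set (EuclideanSpace ℝ (Fin n))) (hK : IsCompact K)
    (h : 0 < volume K) : lowerMinkowskiDim K = n := by
  set f : ℝ → ℝ := fun δ => (volume (Metric.thickening δ K)).toReal with hf
  have hKt : volume K ≠ ⊤ := hK.measure_lt_top.ne
  have hbd : Bornology.IsBounded (Metric.thickening 1 K) := hK.isBounded.thickening
  have h1t : volume (Metric.thickening 1 K) ≠ ⊤ := hbd.measure_lt_top.ne
  have hsub : ∀ δ : ℝ, 0 < δ → δ < 1 → (volume K).toReal ≤ f δ ∧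
      f δ ≤ (volume (Metric.thickening 1 K)).toReal := by
    intro δ h0 h1
    have hm : Metric.thickening δ K ⊆ Metric.thickening 1 K := Metric.thickening_mono h1.le K
    have ht : volume (Metric.thickening δ K) ≠ ⊤ := ((measure_mono hm).trans_lt h1t.lt_top).ne
    refine ⟨ENNReal.toReal_mono ht (measure_mono (Metric.self_subset_thickening h0 K)),
      ENNReal.toReal_mono h1t (measure_mono hm)⟩
  have hpos : 0 < (volume K).toReal := ENNReal.toReal_pos h.ne' hKt
  set C : ℝ := max |Real.log (volume K).toReal| |Real.log (volume (Metric.thickening 1 K)).toReal|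
    with hC
  have hb : ∀ᶠ δ in 𝓝[>] (0:ℝ), |Real.log (f δ)| ≤ C := by
    have h01 : ∀ᶠ δ in 𝓝[>] (0:ℝ), δ ∈ Ioo (0:ℝ) 1 := Ioo_mem_nhdsGT one_pos
    filter_upwards [h01] with δ hδ
    obtain ⟨h1, h2⟩ := hsub δ hδ.1 hδ.2
    have h3 : Real.log (volume K).toReal ≤ Real.log (f δ) := Real.log_le_log hpos h1
    have h4 : Real.log (f δ) ≤ Real.log (volume (Metric.thickening 1 K)).toReal :=
      Real.log_le_log (hpos.trans_le h1) h2
    rw [abs_le]
    constructor
    · have := neg_abs_le (Real.log (volume K).toReal)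
      have h5 : |Real.log (volume K).toReal| ≤ C := le_max_left _ _
      linarith
    · have := le_abs_self (Real.log (volume (Metric.thickening 1 K)).toReal)
      have h5 : |Real.log (volume (Metric.thickening 1 K)).toReal| ≤ C := le_max_right _ _
      linarith
  have hg : Tendsto (fun δ : ℝ => (Real.log δ)⁻¹) (𝓝[>] 0) (𝓝 0) :=
    tendsto_inv_atBot_zero.comp Real.tendsto_log_nhdsGT_zero
  have hlim : Tendsto (fun δ : ℝ => Real.log (f δ) / Real.log δ) (𝓝[>] 0) (𝓝 0) := by
    simp_rw [div_eq_mul_inv]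
    exact bdd_le_mul_tendsto_zero' C hb hg
  unfold lowerMinkowskiDim
  rw [hlim.limsup_eq, sub_zero]

theorem dimH_eq {n : ℕ} (K : Set (EuclideanSpace ℝ (Fin n))) (h : 0 < μH[(n:ℝ)] K) :
    dimH K = n := by
  apply le_antisymm
  · calc dimH K ≤ dimH (univ : Set (EuclideanSpace ℝ (Fin n))) := dimH_mono (subset_univ _)
      _ = n := by rw [Real.dimH_univ_eq_finrank, finrank_euclideanSpace_fin]
  · have h1 : μH[((n : NNReal) : ℝ)] K ≠ 0 := by
      rw [NNReal.coe_natCast]; exact h.ne'
    have := le_dimH_of_hausdorffMeasure_ne_zero h1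
    simpa using this

end Pool.Agent.H424R3.Kak
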