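import Pool.Agent.H424R3.KakNull

set_option autoImplicit false

/-!
# The distributional-degree estimate
-/

open MeasureTheory Set Filter Topology
open scoped ContDiff

namespace Pool.Agent.H424R3.Kak

variable {d : ℕ}

/-- The integral `∫ ψ · (φ ∘ P) · det DP`. -/
noncomputable def val (ψ φ : (Fin d → ℝ) → ℝ) (P : Fin d → (Fin d → ℝ) → ℝ) : ℝ :=
  ∫ y, ψ y * φ (fun j => P j y) * jac P y

theorem jmat_update (P : Fin d → (Fin d → ℝ) → ℝ) (i : Fin d) (u : (Fin d → ℝ) → ℝ)
    (y : Fin d → ℝ) :
    jmat (Function.update P i u) y = (jmat P y).updateRow i (fun k => pd k u y) := by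
  ext j k
  by_cases h : j = i
  · subst h
    simp [jmat, Matrix.updateRow_self]
  · simp [jmat, Matrix.updateRow_ne h, Function.update_of_ne h]

theorem pd_mul {f g : (Fin d → ℝ) → ℝ} {y : Fin d → ℝ} (hf : DifferentiableAt ℝ f y)
    (hg : DifferentiableAt ℝ g y) (k : Fin d) :
    pd k (fun y => f y * g y) y = f y * pd k g y + g y * pd k f y := by
  unfold pd
  rw [fderiv_fun_mul hf hg]
  simp

theorem jac_update_mul (P : Fin d → (Fin d → ℝ) → ℝ) (i : Fin d) {f g : (Fin d → ℝ) → ℝ}
    {y : Fin d → ℝ} (hf : DifferentiableAt ℝ f y) (hg : DifferentiableAt ℝ g y) :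
    jac (Function.update P i (fun y => f y * g y)) y
      = f y * jac (Function.update P i g) y + g y * jac (Function.update P i f) y := by
  unfold jac
  simp only [jmat_update]
  have h : (fun k => pd k (fun y => f y * g y) y)
      = (f y • fun k => pd k g y) + (g y • fun k => pd k f y) := by
    ext k
    rw [pd_mul hf hg]
    simp
  rw [h, Matrix.det_updateRow_add, Matrix.det_updateRow_smul, Matrix.det_updateRow_smul]

theorem continuous_jac {P : Fin d → (Fin d → ℝ) → ℝ} (hP : ∀ j, ContDiff ℝ 1 (P j)) :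
    Continuous (jac P) := by
  unfold jac
  apply Continuous.matrix_det
  apply continuous_matrix
  intro j k
  exact continuous_pd (hP j) (by norm_num) k

theorem contDiff_update {P : Fin d → (Fin d → ℝ) → ℝ} {i : Fin d}
    (hP : ∀ j, j ≠ i → ContDiff ℝ 2 (P j)) {u : (Fin d → ℝ) → ℝ} (hu : ContDiff ℝ 1 u) :
    ∀ j, ContDiff ℝ 1 (Function.update P i u j) := by
  intro j
  by_cases h : j = i
  · subst h; simpa using hu
  · rw [Function.update_of_ne h]
    exact (hP j h).of_le (by norm_num)

theorem tsupport_jac_update (P : Fin d → (Fin d → ℝ) → ℝ) (i : Fin d) {ψ : (Fin d → ℝ) → ℝ}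
    (hψc : HasCompactSupport ψ) : HasCompactSupport (jac (Function.update P i ψ)) := by
  refine HasCompactSupport.intro hψc fun y hy => ?_
  unfold jac
  rw [jmat_update]
  have h : (fun k => pd k ψ y) = 0 := by
    ext k
    unfold pd
    have h0 : fderiv ℝ ψ y = 0 := by
      have := (tsupport_fderiv_subset ℝ (f := ψ))
      by_contra hne
      exact hy (this (subset_tsupport _ hne))
    simp [h0]
  rw [h]
  apply Matrix.det_eq_zero_of_row_eq_zero i
  intro j
  simp

theorem ibp_jac (P : Fin d → (Fin d → ℝ) → ℝ) (i : Fin d)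
    (hP : ∀ j, j ≠ i → ContDiff ℝ 2 (P j)) {ψ u : (Fin d → ℝ) → ℝ}
    (hψ : ContDiff ℝ 1 ψ) (hψc : HasCompactSupport ψ) (hu : ContDiff ℝ 1 u) :
    ∫ y, ψ y * jac (Function.update P i u) y = - ∫ y, u y * jac (Function.update P i ψ) y := by
  have h0 : ∫ y, jac (Function.update P i (fun y => ψ y * u y)) y = 0 := by
    apply integral_jac_eq_zero i
    · intro j hj
      rw [Function.update_of_ne hj]; exact hP j hj
    · simp only [Function.update_self]
      exact hψ.mul hu
    · simp only [Function.update_self]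
      exact hψc.mul_right
  have h1 : ∀ y, jac (Function.update P i (fun y => ψ y * u y)) y
      = ψ y * jac (Function.update P i u) y + u y * jac (Function.update P i ψ) y := fun y =>
    jac_update_mul P i (hψ.differentiable (by norm_num) y) (hu.differentiable (by norm_num) y)
  simp_rw [h1] at h0
  rw [integral_add] at h0
  · linarith
  · exact (hψ.continuous.mul (continuous_jac (contDiff_update hP hu))).integrable_of_hasCompactSupport
      hψc.mul_right
  · exact (hu.continuous.mul (continuous_jac (contDiff_update hP hψ))).integrable_of_hasCompactSupport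
      (tsupport_jac_update P i hψc).mul_left

theorem pd_comp {Φ : (Fin d → ℝ) → ℝ} {P : Fin d → (Fin d → ℝ) → ℝ} {y : Fin d → ℝ}
    (hΦ : Differentiable ℝ Φ) (hP : ∀ j, DifferentiableAt ℝ (P j) y) (k : Fin d) :
    pd k (fun y => Φ (fun j => P j y)) y
      = ∑ j, pd j Φ (fun j => P j y) * pd k (P j) y := by
  unfold pd
  have hPd : HasFDerivAt (fun y => fun j => P j y)
      (ContinuousLinearMap.pi fun j => fderiv ℝ (P j) y) y :=
    hasFDerivAt_pi.mpr fun j => (hP j).hasFDerivAt
  have h := ((hΦ (fun j => P j y)).hasFDerivAt.comp y hPd).fderiv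
  have h' : (Φ ∘ fun y => fun j => P j y) = fun y => Φ (fun j => P j y) := rfl
  rw [h'] at h
  rw [h]
  simp only [ContinuousLinearMap.comp_apply]
  have h2 : (ContinuousLinearMap.pi fun j => fderiv ℝ (P j) y) (Pi.single k 1)
      = ∑ j, (fderiv ℝ (P j) y (Pi.single k 1)) • (Pi.single j (1:ℝ) : Fin d → ℝ) := by
    ext l
    simp [Finset.sum_apply, Pi.single_apply]
  rw [h2, map_sum]
  refine Finset.sum_congr rfl fun j _ => ?_
  rw [map_smul, smul_eq_mul, mul_comm]

theorem jac_update_comp {Φ : (Fin d → ℝ) → ℝ} {P : Fin d → (Fin d → ℝ) → ℝ} {y : Fin d → ℝ}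
    (hΦ : Differentiable ℝ Φ) (hP : ∀ j, DifferentiableAt ℝ (P j) y) (i : Fin d) :
    jac (Function.update P i (fun y => Φ (fun j => P j y))) y
      = pd i Φ (fun j => P j y) * jac P y := by
  unfold jac
  rw [jmat_update]
  have h : (fun k => pd k (fun y => Φ (fun j => P j y)) y)
      = ∑ j, (pd j Φ (fun j => P j y)) • (jmat P y) j := by
    ext k
    rw [pd_comp hΦ hP, Finset.sum_apply]
    rfl
  rw [h, Matrix.det_updateRow_sum, smul_eq_mul]

theorem prim_lip {Φ : (Fin d → ℝ) → ℝ} (hΦ : Differentiable ℝ Φ) (i : Fin d)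
    (hb : ∀ x, |pd i Φ x| ≤ 1) (x : Fin d → ℝ) (r s : ℝ) :
    |Φ (Function.update x i r) - Φ (Function.update x i s)| ≤ |r - s| := by
  have h : ∀ τ ∈ (univ : Set ℝ), HasDerivWithinAt (fun τ : ℝ => Φ (Function.update x i τ))
      (pd i Φ (Function.update x i τ)) univ τ := by
    intro τ _
    exact ((hΦ (Function.update x i τ)).hasFDerivAt.comp_hasDerivAt τ
      (hasDerivAt_update x i τ)).hasDerivWithinAt
  have := convex_univ.norm_image_sub_le_of_norm_hasDerivWithin_le (C := 1) h
    (fun τ _ => by simpa using hb _) (mem_univ s) (mem_univ r)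
  simpa using this

theorem jac_update_le (P : Fin d → (Fin d → ℝ) → ℝ) (i : Fin d) (ψ : (Fin d → ℝ) → ℝ)
    (y : Fin d → ℝ) {L : ℝ} (hL : ∀ j k, |pd k (P j) y| ≤ L) :
    |jac (Function.update P i ψ) y| ≤ L ^ (d - 1) * ((d.factorial : ℝ) * ∑ k, |pd k ψ y|) := by
  rw [jac_eq _ y i]
  have hd : (Fintype.card (Equiv.Perm (Fin d)) : ℝ) = (d.factorial : ℝ) := by
    rw [Fintype.card_perm, Fintype.card_fin]
  calc |∑ σ : Equiv.Perm (Fin d), ((Equiv.Perm.sign σ : ℤ) : ℝ) *
      (pd (σ i) (Function.update P i ψ i) y *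
        ∏ j ∈ Finset.univ.erase i, pd (σ j) (Function.update P i ψ j) y)|
      ≤ ∑ σ : Equiv.Perm (Fin d), |((Equiv.Perm.sign σ : ℤ) : ℝ) *
      (pd (σ i) (Function.update P i ψ i) y *
        ∏ j ∈ Finset.univ.erase i, pd (σ j) (Function.update P i ψ j) y)| :=
        Finset.abs_sum_le_sum_abs _ _
    _ ≤ ∑ σ : Equiv.Perm (Fin d), (∑ k, |pd k ψ y|) * L ^ (d - 1) := by
        refine Finset.sum_le_sum fun σ _ => ?_
        have h1 : |((Equiv.Perm.sign σ : ℤ) : ℝ)| = 1 := by
          rcases Int.units_eq_one_or (Equiv.Perm.sign σ) with h | h <;> simp [h]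
        rw [abs_mul, h1, one_mul, abs_mul, Function.update_self, Finset.abs_prod]
        refine mul_le_mul ?_ ?_ (Finset.prod_nonneg fun _ _ => abs_nonneg _)
          (Finset.sum_nonneg fun _ _ => abs_nonneg _)
        · exact Finset.single_le_sum (f := fun k => |pd k ψ y|) (fun _ _ => abs_nonneg _)
            (Finset.mem_univ _)
        · have h2 : (Finset.univ.erase i : Finset (Fin d)).card = d - 1 := by
            rw [Finset.card_erase_of_mem (Finset.mem_univ i), Finset.card_univ, Fintype.card_fin]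
          calc ∏ j ∈ Finset.univ.erase i, |pd (σ j) (Function.update P i ψ j) y|
              ≤ ∏ j ∈ (Finset.univ.erase i : Finset (Fin d)), L := by
                refine Finset.prod_le_prod (fun _ _ => abs_nonneg _) fun j hj => ?_
                rw [Function.update_of_ne (Finset.mem_erase.mp hj).1]
                exact hL j _
            _ = L ^ (d - 1) := by rw [Finset.prod_const, h2]
    _ = L ^ (d - 1) * ((d.factorial : ℝ) * ∑ k, |pd k ψ y|) := by
        rw [Finset.sum_const, Finset.card_univ, nsmul_eq_mul, hd]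
        ring

/-- The constant of the estimate. -/
noncomputable def cst (ψ : (Fin d → ℝ) → ℝ) : ℝ :=
  ∫ y, (d.factorial : ℝ) * ∑ k, |pd k ψ y|

theorem cst_integrable {ψ : (Fin d → ℝ) → ℝ} (hψ : ContDiff ℝ 1 ψ) (hψc : HasCompactSupport ψ) :
    Integrable (fun y => (d.factorial : ℝ) * ∑ k, |pd k ψ y|) := by
  apply Integrable.const_mul
  apply integrable_finsetSum
  intro k _
  have h : Integrable (pd k ψ) :=
    (continuous_pd hψ (by norm_num) k).integrable_of_hasCompactSupport (hcs_pd hψc k)
  exact h.abs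

theorem cst_nonneg (ψ : (Fin d → ℝ) → ℝ) : 0 ≤ cst ψ := by
  unfold cst
  apply integral_nonneg
  intro y
  have : 0 ≤ ∑ k, |pd k ψ y| := Finset.sum_nonneg fun _ _ => abs_nonneg _
  positivity

theorem val_update_le (P : Fin d → (Fin d → ℝ) → ℝ) (i : Fin d)
    (hP : ∀ j, ContDiff ℝ 2 (P j)) {ψ φ q : (Fin d → ℝ) → ℝ}
    (hψ : ContDiff ℝ 1 ψ) (hψc : HasCompactSupport ψ) (hφ : ContDiff ℝ 2 φ)
    (hφ1 : ∀ x, |φ x| ≤ 1) (hq : ContDiff ℝ 2 q) {H L : ℝ} (hH : ∀ y, |P i y - q y| ≤ H)
    (hL : ∀ y j k, |pd k (P j) y| ≤ L) :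
    |val ψ φ P - val ψ φ (Function.update P i q)| ≤ H * L ^ (d - 1) * cst ψ := by
  obtain ⟨Φ, hΦ, hΦi⟩ := exists_primitive i φ hφ
  have hΦd : Differentiable ℝ Φ := hΦ.differentiable (by norm_num)
  set Q := Function.update P i q with hQ
  have hQ2 : ∀ j, ContDiff ℝ 2 (Q j) := by
    intro j
    by_cases h : j = i
    · subst h; simpa [hQ] using hq
    · simpa [hQ, Function.update_of_ne h] using hP j
  have key : ∀ R : Fin d → (Fin d → ℝ) → ℝ, (∀ j, ContDiff ℝ 2 (R j)) →
      val ψ φ R = - ∫ y, Φ (fun j => R j y) * jac (Function.update R i ψ) y := by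
    intro R hR
    have hRc : ContDiff ℝ 2 (fun y => fun j => R j y) := contDiff_pi.mpr hR
    have hu : ContDiff ℝ 1 (fun y => Φ (fun j => R j y)) := hΦ.comp (hRc.of_le (by norm_num))
    rw [← ibp_jac R i (fun j _ => hR j) hψ hψc hu]
    unfold val
    congr 1
    ext y
    rw [jac_update_comp hΦd (fun j => (hR j).differentiable (by norm_num) y), hΦi]
    ring
  rw [key P hP, key Q hQ2]
  have hidem : Function.update Q i ψ = Function.update P i ψ := by
    rw [hQ, Function.update_idem]
  rw [hidem]
  have hcont : Continuous (jac (Function.update P i ψ)) :=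
    continuous_jac (contDiff_update (fun j _ => hP j) hψ)
  have hint : ∀ R : Fin d → (Fin d → ℝ) → ℝ, (∀ j, ContDiff ℝ 2 (R j)) →
      Integrable (fun y => Φ (fun j => R j y) * jac (Function.update P i ψ) y) := by
    intro R hR
    have hRc : Continuous (fun y => fun j => R j y) := continuous_pi fun j => (hR j).continuous
    exact ((hΦ.continuous.comp hRc).mul hcont).integrable_of_hasCompactSupport
      (tsupport_jac_update P i hψc).mul_left
  have hsub : (-∫ y, Φ (fun j => P j y) * jac (Function.update P i ψ) y) -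
      (-∫ y, Φ (fun j => Q j y) * jac (Function.update P i ψ) y)
      = ∫ y, (Φ (fun j => Q j y) - Φ (fun j => P j y)) * jac (Function.update P i ψ) y := by
    simp_rw [sub_mul]
    rw [integral_sub (hint Q hQ2) (hint P hP)]
    ring
  rw [hsub]
  have hHL : ∀ y, ‖(Φ (fun j => Q j y) - Φ (fun j => P j y)) * jac (Function.update P i ψ) y‖
      ≤ (H * L ^ (d - 1)) * ((d.factorial : ℝ) * ∑ k, |pd k ψ y|) := by
    intro y
    have e1 : (fun j => Q j y) = Function.update (fun j => P j y) i (q y) := by
      ext j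
      by_cases h : j = i
      · subst h; simp [hQ]
      · simp [hQ, Function.update_of_ne h]
    have e2 : (fun j => P j y) = Function.update (fun j => P j y) i (P i y) := by simp
    have h1 : |Φ (fun j => Q j y) - Φ (fun j => P j y)| ≤ H := by
      calc |Φ (fun j => Q j y) - Φ (fun j => P j y)|
          = |Φ (Function.update (fun j => P j y) i (q y))
              - Φ (Function.update (fun j => P j y) i (P i y))| := by rw [e1, ← e2]
        _ ≤ |q y - P i y| := prim_lip hΦd i (fun x => by rw [hΦi]; exact hφ1 x) _ _ _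
        _ ≤ H := by rw [abs_sub_comm]; exact hH y
    have h2 := jac_update_le P i ψ y (hL y)
    rw [norm_mul, Real.norm_eq_abs, Real.norm_eq_abs, mul_assoc]
    exact mul_le_mul h1 h2 (abs_nonneg _) ((abs_nonneg _).trans h1)
  have := norm_integral_le_of_norm_le ((cst_integrable hψ hψc).const_mul (H * L ^ (d - 1)))
    (Filter.Eventually.of_forall hHL)
  rw [Real.norm_eq_abs, integral_const_mul] at this
  exact this

theorem val_sub_le (F G : Fin d → (Fin d → ℝ) → ℝ)
    (hF : ∀ j, ContDiff ℝ 2 (F j)) (hG : ∀ j, ContDiff ℝ 2 (G j)) {ψ φ : (Fin d → ℝ) → ℝ}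
    (hψ : ContDiff ℝ 1 ψ) (hψc : HasCompactSupport ψ) (hφ : ContDiff ℝ 2 φ)
    (hφ1 : ∀ x, |φ x| ≤ 1) {H L : ℝ} (hH : ∀ y j, |F j y - G j y| ≤ H)
    (hLF : ∀ y j k, |pd k (F j) y| ≤ L) (hLG : ∀ y j k, |pd k (G j) y| ≤ L) :
    |val ψ φ F - val ψ φ G| ≤ d * (H * L ^ (d - 1) * cst ψ) := by
  classical
  have key : ∀ s : Finset (Fin d), |val ψ φ (fun j => if j ∈ s then G j else F j) - val ψ φ F|
      ≤ s.card * (H * L ^ (d - 1) * cst ψ) := by
    intro s
    induction s using Finset.induction_on with
    | empty => simp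
    | insert i s hi ih =>
      set P : Fin d → (Fin d → ℝ) → ℝ := fun j => if j ∈ s then G j else F j with hP
      have e : (fun j => if j ∈ insert i s then G j else F j) = Function.update P i (G i) := by
        ext j y
        by_cases h : j = i
        · subst h; simp
        · simp [hP, h]
      have hP2 : ∀ j, ContDiff ℝ 2 (P j) := by
        intro j
        simp only [hP]
        split_ifs
        · exact hG j
        · exact hF j
      have h1 := val_update_le P i hP2 hψ hψc hφ hφ1 (hG i) (H := H) (L := L)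
        (fun y => by simpa [hP, hi] using hH y i)
        (fun y j k => by
          simp only [hP]
          split_ifs
          · exact hLG y j k
          · exact hLF y j k)
      rw [e, Finset.card_insert_of_notMem hi]
      push_cast
      rw [abs_sub_comm] at h1
      calc |val ψ φ (Function.update P i (G i)) - val ψ φ F|
          ≤ |val ψ φ (Function.update P i (G i)) - val ψ φ P| + |val ψ φ P - val ψ φ F| :=
            abs_sub_le _ _ _
        _ ≤ H * L ^ (d - 1) * cst ψ + s.card * (H * L ^ (d - 1) * cst ψ) := add_le_add h1 ih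
        _ = _ := by ring
  have h := key Finset.univ
  simp only [Finset.mem_univ, if_true, Finset.card_univ, Fintype.card_fin] at h
  rw [abs_sub_comm]
  exact h

end Pool.Agent.H424R3.Kak
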