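import Pool.Agent.H424R3.KakHold

set_option autoImplicit false
set_option linter.unusedSectionVars false

/-!
# Hausdorff measure, projections to subspaces, Minkowski dimension
-/

open MeasureTheory Set Filter Topology
open scoped RealInnerProductSpace

namespace Pool.Agent.H424R3.Kak

variable {d : ℕ} {E : Type*} [NormedAddCommGroup E] [InnerProductSpace ℝ E]
  [FiniteDimensional ℝ E] [MeasurableSpace E] [BorelSpace E]

theorem hausdorff_pos {k : ℕ} (hE : Module.finrank ℝ E = k) (K : Set E) (h : 0 < volume K) :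
    0 < μH[(k:ℝ)] K := by
  rw [← hE]
  have h1 : (volume : Measure E) ≪ μH[(Module.finrank ℝ E : ℝ)] :=
    Measure.absolutelyContinuous_isAddHaarMeasure _ _
  by_contra hneg
  have h0 : μH[(Module.finrank ℝ E : ℝ)] K = 0 := by simpa using hneg
  exact h.ne' (h1 h0)

theorem volume_pos_of_hausdorff {k : ℕ} (hE : Module.finrank ℝ E = k) (K : Set E)
    (h : 0 < μH[(k:ℝ)] K) : 0 < volume K := by
  rw [← hE] at h
  have h1 : μH[(Module.finrank ℝ E : ℝ)] ≪ (volume : Measure E) :=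
    Measure.absolutelyContinuous_isAddHaarMeasure _ _
  by_contra hneg
  have h0 : volume K = 0 := by simpa using hneg
  exact h.ne' (h1 h0)

theorem main_E (hE : Module.finrank ℝ E = d + 1) (hd : 1 ≤ d) (K : Set E) (hK : IsClosed K)
    (U : Set E) (hU : IsOpen U) (a : E → E) (C α : ℝ) (hα : ((d:ℝ) - 1) / d < α) (hα1 : α ≤ 1)
    (hHo : ∀ w ∈ U, ∀ w' ∈ U, ‖w‖ = 1 → ‖w'‖ = 1 → ‖a w - a w'‖ ≤ C * ‖w - w'‖ ^ α)
    (ℓ : ℝ) (hseg : ∀ w ∈ U, ‖w‖ = 1 → ∀ s ∈ Icc 0 ℓ, a w + s • w ∈ K) :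
    (∀ w ∈ U, ‖w‖ = 1 → {t : ℝ | t ∈ Ioo ⟪a w, w⟫ (⟪a w, w⟫ + ℓ) ∧
      μH[(d:ℝ)] (K ∩ {z | ⟪z, w⟫ = t}) = 0}.encard ≤ d) ∧
    (0 < ℓ → (∃ w ∈ U, ‖w‖ = 1) → 0 < μH[((d + 1 : ℕ) : ℝ)] K) := by
  constructor
  · intro w hw hw1
    obtain ⟨e, rfl⟩ := exists_basis hE w hw1
    refine (Set.encard_le_encard ?_).trans
      (sections_of_holder e hd K hK U hU hw a C α hα hα1 hHo ℓ hseg)
    rintro t ⟨ht1, ht2⟩
    refine ⟨ht1, ?_⟩
    have := volume_section_le e K t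
    rw [ht2] at this
    exact le_antisymm this zero_le
  · rintro hℓ ⟨w, hw, hw1⟩
    obtain ⟨e, rfl⟩ := exists_basis hE w hw1
    apply hausdorff_pos hE
    exact measure_pos_of_sections e K hK _ _ (by linarith)
      (sections_of_holder e hd K hK U hU hw a C α hα hα1 hHo ℓ hseg)

/-- The version for the directions in a subspace. -/
theorem main_W {F : Type*} [NormedAddCommGroup F] [InnerProductSpace ℝ F]
    [FiniteDimensional ℝ F] [MeasurableSpace F] [BorelSpace F] (W : Submodule ℝ F)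
    (hW : Module.finrank ℝ W = d + 1) (hd : 1 ≤ d) (K : Set F) (hK : IsCompact K)
    (U : Set F) (hU : IsOpen U) (a : F → F) (C α : ℝ) (hα : ((d:ℝ) - 1) / d < α) (hα1 : α ≤ 1)
    (hHo : ∀ w ∈ U, w ∈ W → ‖w‖ = 1 → ∀ w' ∈ U, w' ∈ W → ‖w'‖ = 1 →
      ‖a w - a w'‖ ≤ C * ‖w - w'‖ ^ α)
    (ℓ : ℝ) (hseg : ∀ w ∈ U, w ∈ W → ‖w‖ = 1 → ∀ s ∈ Icc 0 ℓ, a w + s • w ∈ K) :
    (∀ w ∈ U, w ∈ W → ‖w‖ = 1 → {t : ℝ | t ∈ Ioo ⟪a w, w⟫ (⟪a w, w⟫ + ℓ) ∧
      μH[(d:ℝ)] (K ∩ {z | ⟪z, w⟫ = t}) = 0}.encard ≤ d) ∧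
    (0 < ℓ → (∃ w ∈ U, w ∈ W ∧ ‖w‖ = 1) → 0 < μH[((d + 1 : ℕ) : ℝ)] K) := by
  set π := W.orthogonalProjectionOnto with hπ
  have hπl : LipschitzWith 1 π := W.lipschitzWith_orthogonalProjectionOnto
  have hπw : ∀ w : W, π (w : F) = w := fun w => W.orthogonalProjectionOnto_mem_subspace_eq_self w
  have hin : ∀ (v : F) (w : W), ⟪π v, w⟫ = ⟪v, (w : F)⟫ := fun v w =>
    Submodule.inner_orthogonalProjectionOnto_eq_of_mem_right w v
  have hmain := main_E (E := W) hW hd (π '' K) (hK.image π.continuous).isClosed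
    (Subtype.val ⁻¹' U) (hU.preimage continuous_subtype_val) (fun w => π (a w)) |C| α hα hα1
    (by
      intro w hw w' hw' h1 h2
      have h3 := hHo w hw w.2 h1 w' hw' w'.2 h2
      have h4 : ‖π (a w) - π (a w')‖ ≤ ‖a w - a w'‖ := by
        rw [← map_sub]
        exact W.norm_orthogonalProjectionOnto_apply_le _
      have h5 : 0 ≤ ‖(w : F) - w'‖ ^ α := by positivity
      calc ‖π (a w) - π (a w')‖ ≤ C * ‖(w : F) - w'‖ ^ α := h4.trans h3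
        _ ≤ |C| * ‖(w : F) - w'‖ ^ α := mul_le_mul_of_nonneg_right (le_abs_self C) h5
        _ = |C| * ‖w - w'‖ ^ α := rfl)
    ℓ (by
      intro w hw h1 s hs
      refine ⟨a w + s • (w : F), hseg w hw w.2 h1 s hs, ?_⟩
      rw [map_add, map_smul, hπw])
  constructor
  · intro w hw hwW hw1
    refine (Set.encard_le_encard ?_).trans (hmain.1 ⟨w, hwW⟩ hw hw1)
    rintro t ⟨ht1, ht2⟩
    have hi : ⟪π (a w), (⟨w, hwW⟩ : W)⟫ = ⟪a w, w⟫ := hin _ _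
    refine ⟨?_, ?_⟩
    · simp only [hi]
      exact ht1
    · have hsub : (π '' K) ∩ {z : W | ⟪z, (⟨w, hwW⟩ : W)⟫ = t} ⊆ π '' (K ∩ {z | ⟪z, w⟫ = t}) := by
        rintro _ ⟨⟨z, hz, rfl⟩, hz2⟩
        refine ⟨z, ⟨hz, ?_⟩, rfl⟩
        have h6 : ⟪π z, (⟨w, hwW⟩ : W)⟫ = ⟪z, w⟫ := hin _ _
        exact h6.symm.trans hz2
      have h7 := (measure_mono hsub).trans
        (hπl.hausdorffMeasure_image_le (d := (d:ℝ)) (by positivity) (K ∩ {z | ⟪z, w⟫ = t}))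
      rw [ht2, mul_zero] at h7
      exact le_antisymm h7 zero_le
  · rintro hℓ ⟨w, hw, hwW, hw1⟩
    have h8 := hmain.2 hℓ ⟨⟨w, hwW⟩, hw, hw1⟩
    have h9 := hπl.hausdorffMeasure_image_le (d := ((d + 1 : ℕ) : ℝ)) (by positivity) K
    rw [ENNReal.coe_one, ENNReal.one_rpow, one_mul] at h9
    exact h8.trans_le h9

end Pool.Agent.H424R3.Kak
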