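import Pool.Agent.H424R3.KakCore

set_option autoImplicit false
set_option linter.unusedSectionVars false

/-!
# From segments in an open set of directions to section maps
-/

open MeasureTheory Set Filter Topology
open scoped RealInnerProductSpace

namespace Pool.Agent.H424R3.Kak

variable {d : ℕ} {E : Type*} [NormedAddCommGroup E] [InnerProductSpace ℝ E]
  [FiniteDimensional ℝ E] [MeasurableSpace E] [BorelSpace E]

/-- The point with coordinates `(t, x)` in the orthonormal basis `e`. -/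
noncomputable def pt (e : OrthonormalBasis (Fin (d + 1)) ℝ E) (t : ℝ) (x : Fin d → ℝ) : E :=
  t • e 0 + ∑ j : Fin d, x j • e j.succ

/-- The unit vector in the direction `(1, y)`. -/
noncomputable def dirc (e : OrthonormalBasis (Fin (d + 1)) ℝ E) (y : Fin d → ℝ) : E :=
  ‖pt e 1 y‖⁻¹ • pt e 1 y

/-- The point of height `0` on the line through `a ω` in direction `ω = dirc e y`. -/
noncomputable def bmap (e : OrthonormalBasis (Fin (d + 1)) ℝ E) (a : E → E) (y : Fin d → ℝ) :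
    Fin d → ℝ :=
  fun j => ⟪a (dirc e y), e j.succ⟫ - ⟪a (dirc e y), e 0⟫ * y j

theorem pt_eq (e : OrthonormalBasis (Fin (d + 1)) ℝ E) (t : ℝ) (x : Fin d → ℝ) :
    pt e t x = e.repr.symm (WithLp.toLp 2 (Fin.cons t x : Fin (d + 1) → ℝ)) := by
  rw [← e.sum_repr_symm, Fin.sum_univ_succ]
  rfl

theorem pt_inner (e : OrthonormalBasis (Fin (d + 1)) ℝ E) (z : E) :
    pt e ⟪z, e 0⟫ (fun j => ⟪z, e j.succ⟫) = z := by
  conv_rhs => rw [← e.sum_repr' z, Fin.sum_univ_succ]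
  unfold pt
  congr 1
  · rw [real_inner_comm]
  · refine Finset.sum_congr rfl fun j _ => ?_
    rw [real_inner_comm]

theorem pt_add_smul (e : OrthonormalBasis (Fin (d + 1)) ℝ E) (t t' r : ℝ) (x x' : Fin d → ℝ) :
    pt e t x + r • pt e t' x' = pt e (t + r * t') (fun j => x j + r * x' j) := by
  unfold pt
  simp only [smul_add, Finset.smul_sum, smul_smul, add_smul, Finset.sum_add_distrib]
  abel

theorem inner_pt_zero (e : OrthonormalBasis (Fin (d + 1)) ℝ E) (t : ℝ) (x : Fin d → ℝ) :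
    ⟪pt e t x, e 0⟫ = t := by
  unfold pt
  rw [inner_add_left, inner_smul_left, sum_inner]
  have h0 : ⟪e 0, e 0⟫ = (1:ℝ) := by simp
  have h1 : ∀ j : Fin d, ⟪x j • e j.succ, e 0⟫ = (0:ℝ) := by
    intro j
    rw [inner_smul_left, e.inner_eq_zero (Fin.succ_ne_zero j)]
    simp
  rw [h0]
  simp [h1]

theorem one_le_norm_pt (e : OrthonormalBasis (Fin (d + 1)) ℝ E) (y : Fin d → ℝ) :
    1 ≤ ‖pt e 1 y‖ := by
  have h := abs_real_inner_le_norm (pt e 1 y) (e 0)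
  rw [inner_pt_zero, e.norm_eq_one, mul_one, abs_one] at h
  exact h

theorem norm_pt_sub_le (e : OrthonormalBasis (Fin (d + 1)) ℝ E) (t : ℝ) (y y' : Fin d → ℝ) :
    ‖pt e t y - pt e t y'‖ ≤ d * ‖y - y'‖ := by
  have h : pt e t y - pt e t y' = ∑ j : Fin d, (y j - y' j) • e j.succ := by
    unfold pt
    simp only [sub_smul, Finset.sum_sub_distrib]
    abel
  rw [h]
  calc ‖∑ j : Fin d, (y j - y' j) • e j.succ‖ ≤ ∑ j : Fin d, ‖(y j - y' j) • e j.succ‖ :=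
        norm_sum_le _ _
    _ ≤ ∑ _j : Fin d, ‖y - y'‖ := by
        refine Finset.sum_le_sum fun j _ => ?_
        rw [norm_smul, e.norm_eq_one, mul_one]
        exact norm_le_pi_norm (y - y') j
    _ = d * ‖y - y'‖ := by simp

theorem norm_normalize_sub (u v : E) (hu : 1 ≤ ‖u‖) (hv : 1 ≤ ‖v‖) :
    ‖‖u‖⁻¹ • u - ‖v‖⁻¹ • v‖ ≤ 2 * ‖u - v‖ := by
  have hu0 : 0 < ‖u‖ := by linarith
  have hv0 : 0 < ‖v‖ := by linarith
  have h : ‖u‖⁻¹ • u - ‖v‖⁻¹ • v = ‖u‖⁻¹ • (u - v) + (‖u‖⁻¹ - ‖v‖⁻¹) • v := by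
    rw [smul_sub, sub_smul]; abel
  have h1 : ‖‖u‖⁻¹ • (u - v)‖ ≤ ‖u - v‖ := by
    rw [norm_smul, norm_inv, norm_norm]
    have : ‖u‖⁻¹ ≤ 1 := inv_le_one_of_one_le₀ hu
    calc ‖u‖⁻¹ * ‖u - v‖ ≤ 1 * ‖u - v‖ := by gcongr
      _ = _ := one_mul _
  have h2 : ‖(‖u‖⁻¹ - ‖v‖⁻¹) • v‖ ≤ ‖u - v‖ := by
    rw [norm_smul, Real.norm_eq_abs]
    have h3 : ‖u‖⁻¹ - ‖v‖⁻¹ = ‖u‖⁻¹ * ((‖v‖ - ‖u‖) * ‖v‖⁻¹) := by
      field_simp
    rw [h3, abs_mul, abs_mul, abs_of_pos (inv_pos.mpr hu0), abs_of_pos (inv_pos.mpr hv0)]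
    have h4 : |‖v‖ - ‖u‖| ≤ ‖u - v‖ := by
      rw [norm_sub_rev]; exact abs_norm_sub_norm_le v u
    have h5 : ‖u‖⁻¹ ≤ 1 := inv_le_one_of_one_le₀ hu
    calc ‖u‖⁻¹ * (|‖v‖ - ‖u‖| * ‖v‖⁻¹) * ‖v‖ = ‖u‖⁻¹ * |‖v‖ - ‖u‖| := by
          field_simp
      _ ≤ 1 * ‖u - v‖ := by gcongr
      _ = _ := one_mul _
  rw [h]
  calc _ ≤ ‖‖u‖⁻¹ • (u - v)‖ + ‖(‖u‖⁻¹ - ‖v‖⁻¹) • v‖ := norm_add_le _ _
    _ ≤ _ := by linarith

theorem norm_dirc_sub_le (e : OrthonormalBasis (Fin (d + 1)) ℝ E) (y y' : Fin d → ℝ) :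
    ‖dirc e y - dirc e y'‖ ≤ 2 * d * ‖y - y'‖ := by
  unfold dirc
  calc _ ≤ 2 * ‖pt e 1 y - pt e 1 y'‖ :=
        norm_normalize_sub _ _ (one_le_norm_pt e y) (one_le_norm_pt e y')
    _ ≤ 2 * (d * ‖y - y'‖) := by gcongr; exact norm_pt_sub_le e 1 y y'
    _ = _ := by ring

theorem norm_dirc (e : OrthonormalBasis (Fin (d + 1)) ℝ E) (y : Fin d → ℝ) :
    ‖dirc e y‖ = 1 := by
  unfold dirc
  rw [norm_smul, norm_inv, norm_norm]
  have := one_le_norm_pt e y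
  field_simp

theorem dirc_zero (e : OrthonormalBasis (Fin (d + 1)) ℝ E) : dirc e 0 = e 0 := by
  have h : pt e 1 (0 : Fin d → ℝ) = e 0 := by simp [pt]
  unfold dirc
  rw [h, e.norm_eq_one]
  simp

/-- The point of height `t` on the line number `y`. -/
theorem seg_pt (e : OrthonormalBasis (Fin (d + 1)) ℝ E) (a : E → E) (y : Fin d → ℝ) (t : ℝ) :
    pt e t (bmap e a y + t • y)
      = a (dirc e y) + ((t - ⟪a (dirc e y), e 0⟫) * ‖pt e 1 y‖) • dirc e y := by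
  have hn : ‖pt e 1 y‖ ≠ 0 := by have := one_le_norm_pt e y; positivity
  have h1 : ((t - ⟪a (dirc e y), e 0⟫) * ‖pt e 1 y‖) • dirc e y
      = (t - ⟪a (dirc e y), e 0⟫) • pt e 1 y := by
    simp only [dirc]
    rw [smul_smul, mul_assoc, mul_inv_cancel₀ hn, mul_one]
  rw [h1]
  conv_rhs => rw [← pt_inner e (a (dirc e y))]
  rw [inner_pt_zero, pt_add_smul]
  congr 1
  · ring
  · ext j
    simp only [bmap, Pi.add_apply, Pi.smul_apply, smul_eq_mul]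
    ring

theorem measurePreserving_pt (e : OrthonormalBasis (Fin (d + 1)) ℝ E) :
    MeasurePreserving (fun p : ℝ × (Fin d → ℝ) => pt e p.1 p.2) (volume.prod volume) volume := by
  have h1 : MeasurePreserving (MeasurableEquiv.piFinSuccAbove (fun _ : Fin (d + 1) => ℝ) 0).symm
      (volume.prod volume) volume :=
    (volume_preserving_piFinSuccAbove (fun _ : Fin (d + 1) => ℝ) 0).symm _
  have h2 := (e.measurePreserving_repr_symm.comp
    (PiLp.volume_preserving_toLp (Fin (d + 1)))).comp h1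
  convert h2 using 1
  ext p
  rw [pt_eq]
  simp only [Function.comp_apply, MeasurableEquiv.piFinSuccAbove_symm_apply, Fin.insertNthEquiv,
    Fin.insertNth_zero, Equiv.coe_fn_mk]
  rfl

theorem continuous_pt (e : OrthonormalBasis (Fin (d + 1)) ℝ E) (t : ℝ) :
    Continuous (fun x : Fin d → ℝ => pt e t x) := by
  unfold pt
  fun_prop

theorem null_sections (e : OrthonormalBasis (Fin (d + 1)) ℝ E) (K : Set E)
    (hK : MeasurableSet K) (h0 : volume K = 0) :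
    ∀ᵐ t : ℝ, volume {x : Fin d → ℝ | pt e t x ∈ K} = 0 := by
  have h := measurePreserving_pt e
  have h1 : (volume.prod volume) ((fun p : ℝ × (Fin d → ℝ) => pt e p.1 p.2) ⁻¹' K) = 0 := by
    rw [h.measure_preimage hK.nullMeasurableSet, h0]
  rw [Measure.measure_prod_null (h.measurable hK)] at h1
  filter_upwards [h1] with t ht
  exact ht

theorem continuous_dirc (e : OrthonormalBasis (Fin (d + 1)) ℝ E) : Continuous (dirc e) := by
  have h : ∀ y : Fin d → ℝ, ‖pt e 1 y‖ ≠ 0 := fun y => by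
    have := one_le_norm_pt e y
    positivity
  unfold dirc
  exact ((continuous_pt e 1).norm.inv₀ h).smul (continuous_pt e 1)

/-- The common heights: near the direction `e 0`, the segments cross all the hyperplanes of
finitely many given heights that are crossed (in the interior) by the segment number `e 0`. -/
theorem heights (e : OrthonormalBasis (Fin (d + 1)) ℝ E) (K : Set E) (U : Set E) (hU : IsOpen U)
    (he : e 0 ∈ U) (a : E → E) (ha : ContinuousWithinAt a (U ∩ {w | ‖w‖ = 1}) (e 0)) (ℓ : ℝ)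
    (hseg : ∀ w ∈ U, ‖w‖ = 1 → ∀ s ∈ Icc 0 ℓ, a w + s • w ∈ K) (T : Finset ℝ)
    (hT : ∀ t ∈ T, t ∈ Ioo ⟪a (e 0), e 0⟫ (⟪a (e 0), e 0⟫ + ℓ)) :
    ∃ R : ℝ, 0 < R ∧ R ≤ 1 ∧ (∀ y ∈ Metric.ball (0 : Fin d → ℝ) R, dirc e y ∈ U) ∧
        ∀ t ∈ T, ∀ y ∈ Metric.ball (0 : Fin d → ℝ) R, pt e t (bmap e a y + t • y) ∈ K := by
  have hc : Tendsto (dirc e) (𝓝 0) (𝓝 (e 0)) := by
    have := (continuous_dirc e).tendsto 0
    rwa [dirc_zero] at this
  have h1 : ∀ᶠ y in 𝓝 (0 : Fin d → ℝ), dirc e y ∈ U := hc.eventually (hU.mem_nhds he)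
  have hcw : Tendsto (dirc e) (𝓝 0) (𝓝[U ∩ {w | ‖w‖ = 1}] (e 0)) := by
    rw [tendsto_nhdsWithin_iff]
    refine ⟨hc, ?_⟩
    filter_upwards [h1] with y hy
    exact ⟨hy, norm_dirc e y⟩
  have hac : Tendsto (fun y => a (dirc e y)) (𝓝 0) (𝓝 (a (e 0))) := Tendsto.comp ha hcw
  have h2 : ∀ t ∈ T, ∀ᶠ y in 𝓝 (0 : Fin d → ℝ),
      (t - ⟪a (dirc e y), e 0⟫) * ‖pt e 1 y‖ ∈ Ioo 0 ℓ := by
    intro t ht
    have h3 : Tendsto (fun y => (t - ⟪a (dirc e y), e 0⟫) * ‖pt e 1 y‖) (𝓝 0)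
        (𝓝 ((t - ⟪a (e 0), e 0⟫) * ‖pt e 1 (0 : Fin d → ℝ)‖)) := by
      refine Tendsto.mul ?_ ((continuous_pt e 1).norm.tendsto 0)
      exact tendsto_const_nhds.sub (hac.inner tendsto_const_nhds)
    have h4 : ‖pt e 1 (0 : Fin d → ℝ)‖ = 1 := by simp [pt]
    rw [h4, mul_one] at h3
    apply h3.eventually
    apply Ioo_mem_nhds
    · have := (hT t ht).1; linarith
    · have := (hT t ht).2; linarith
  have h5 : ∀ᶠ y in 𝓝 (0 : Fin d → ℝ), dirc e y ∈ U ∧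
      ∀ t ∈ T, (t - ⟪a (dirc e y), e 0⟫) * ‖pt e 1 y‖ ∈ Ioo 0 ℓ :=
    h1.and ((Filter.eventually_all_finset T).mpr h2)
  obtain ⟨R, hR, hR2⟩ := Metric.eventually_nhds_iff_ball.mp h5
  refine ⟨min R 1, by positivity, min_le_right _ _, ?_, ?_⟩
  · intro y hy
    exact (hR2 y (Metric.ball_subset_ball (min_le_left _ _) hy)).1
  · intro t ht y hy
    have hy' := hR2 y (Metric.ball_subset_ball (min_le_left _ _) hy)
    rw [seg_pt]
    exact hseg _ hy'.1 (norm_dirc e y) _ ⟨(hy'.2 t ht).1.le, (hy'.2 t ht).2.le⟩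

end Pool.Agent.H424R3.Kak
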