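import Pool.Agent.H424R3.KakGeo

set_option autoImplicit false
set_option linter.unusedSectionVars false

/-!
# Compact sets with a Hölder selection of segments have positive measure
-/

open MeasureTheory Set Filter Topology
open scoped RealInnerProductSpace

namespace Pool.Agent.H424R3.Kak

variable {d : ℕ}

/-- Coordinatewise truncation. -/
noncomputable def clamp (r : ℝ) (y : Fin d → ℝ) : Fin d → ℝ := fun j => max (-r) (min r (y j))

theorem norm_clamp_sub_le (r : ℝ) (y y' : Fin d → ℝ) :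
    ‖clamp r y - clamp r y'‖ ≤ ‖y - y'‖ := by
  rw [pi_norm_le_iff_of_nonneg (norm_nonneg _)]
  intro j
  have h : ‖(clamp r y - clamp r y') j‖ ≤ ‖(y - y') j‖ := by
    simp only [Pi.sub_apply, clamp, Real.norm_eq_abs]
    have h1 := abs_max_sub_max_le_max (-r) (min r (y j)) (-r) (min r (y' j))
    have h2 := abs_min_sub_min_le_max r (y j) r (y' j)
    have h3 : max |(-r) - (-r)| |min r (y j) - min r (y' j)| = |min r (y j) - min r (y' j)| := by
      rw [sub_self, abs_zero]; exact max_eq_right (abs_nonneg _)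
    have h4 : max |r - r| |y j - y' j| = |y j - y' j| := by
      rw [sub_self, abs_zero]; exact max_eq_right (abs_nonneg _)
    exact (h1.trans h3.le).trans (h2.trans h4.le)
  exact h.trans (norm_le_pi_norm _ j)

theorem norm_clamp_le {r : ℝ} (hr : 0 ≤ r) (y : Fin d → ℝ) : ‖clamp r y‖ ≤ r := by
  rw [pi_norm_le_iff_of_nonneg hr]
  intro j
  simp only [clamp, Real.norm_eq_abs, abs_le]
  constructor
  · exact le_max_left _ _
  · exact max_le (by linarith) (min_le_left _ _)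

theorem clamp_eq {r : ℝ} {y : Fin d → ℝ} (h : ‖y‖ ≤ r) : clamp r y = y := by
  ext j
  have h1 : |y j| ≤ r := by
    have := (norm_le_pi_norm y j).trans h
    rwa [Real.norm_eq_abs] at this
  rw [abs_le] at h1
  simp only [clamp]
  rw [min_eq_right h1.2, max_eq_right h1.1]

variable {E : Type*} [NormedAddCommGroup E] [InnerProductSpace ℝ E]
  [FiniteDimensional ℝ E] [MeasurableSpace E] [BorelSpace E]

theorem exists_basis (hE : Module.finrank ℝ E = d + 1) (w : E) (hw : ‖w‖ = 1) :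
    ∃ e : OrthonormalBasis (Fin (d + 1)) ℝ E, e 0 = w := by
  have hv : Orthonormal ℝ (({0} : Set (Fin (d + 1))).domRestrict (fun _ => w)) := by
    constructor
    · intro i
      exact hw
    · intro i j hij
      exact absurd (Subsingleton.elim i j) hij
  obtain ⟨b, hb⟩ := hv.exists_orthonormalBasis_extension_of_card_eq (by simp [hE])
  exact ⟨b, hb 0 rfl⟩

theorem bmap_holder (e : OrthonormalBasis (Fin (d + 1)) ℝ E) (a : E → E) (U : Set E)
    (C α A R : ℝ) (hC : 0 ≤ C) (hα0 : 0 < α) (hα1 : α ≤ 1) (hR1 : R ≤ 1)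
    (hHo : ∀ w ∈ U, ∀ w' ∈ U, ‖w‖ = 1 → ‖w'‖ = 1 → ‖a w - a w'‖ ≤ C * ‖w - w'‖ ^ α)
    (hdir : ∀ y ∈ Metric.ball (0 : Fin d → ℝ) R, dirc e y ∈ U) (hA0 : 0 ≤ A)
    (hA : ∀ y ∈ Metric.ball (0 : Fin d → ℝ) R, ‖a (dirc e y)‖ ≤ A) :
    ∀ y ∈ Metric.ball (0 : Fin d → ℝ) R, ∀ y' ∈ Metric.ball (0 : Fin d → ℝ) R, ∀ j,
      |bmap e a y j - bmap e a y' j| ≤ (2 * (C * (2 * d) ^ α) + 2 * A) * ‖y - y'‖ ^ α := by
  intro y hy y' hy' j
  have hy1 : ‖y‖ ≤ 1 := by
    rw [Metric.mem_ball, dist_zero_right] at hy; linarith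
  have hy1' : ‖y'‖ ≤ 1 := by
    rw [Metric.mem_ball, dist_zero_right] at hy'; linarith
  have hr0 : 0 ≤ ‖y - y'‖ := norm_nonneg _
  have hr2 : ‖y - y'‖ ≤ 2 := (norm_sub_le _ _).trans (by linarith)
  have hra : ‖y - y'‖ ≤ 2 * ‖y - y'‖ ^ α := by
    rcases hr0.eq_or_lt with h | h
    · rw [← h, Real.zero_rpow hα0.ne']; simp
    · calc ‖y - y'‖ = ‖y - y'‖ ^ (1 - α) * ‖y - y'‖ ^ α := by
            rw [← Real.rpow_add h]; simp
        _ ≤ 2 * ‖y - y'‖ ^ α := by
            have h1 : ‖y - y'‖ ^ (1 - α) ≤ 2 ^ (1 - α) :=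
              Real.rpow_le_rpow h.le hr2 (by linarith)
            have h2 : (2:ℝ) ^ (1 - α) ≤ 2 ^ (1:ℝ) :=
              Real.rpow_le_rpow_of_exponent_le (by norm_num) (by linarith)
            rw [Real.rpow_one] at h2
            gcongr
            exact h1.trans h2
  have hD : ‖a (dirc e y) - a (dirc e y')‖ ≤ C * (2 * d) ^ α * ‖y - y'‖ ^ α := by
    calc ‖a (dirc e y) - a (dirc e y')‖ ≤ C * ‖dirc e y - dirc e y'‖ ^ α :=
          hHo _ (hdir y hy) _ (hdir y' hy') (norm_dirc e y) (norm_dirc e y')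
      _ ≤ C * (2 * d * ‖y - y'‖) ^ α := by
          gcongr
          exact norm_dirc_sub_le e y y'
      _ = _ := by rw [Real.mul_rpow (by positivity) hr0]; ring
  set D := C * (2 * d) ^ α * ‖y - y'‖ ^ α with hDdef
  have e1 : bmap e a y j - bmap e a y' j
      = ⟪a (dirc e y) - a (dirc e y'), e j.succ⟫ - ⟪a (dirc e y) - a (dirc e y'), e 0⟫ * y j
        - ⟪a (dirc e y'), e 0⟫ * (y - y') j := by
    simp only [bmap, inner_sub_left, Pi.sub_apply]
    ring
  have h1 : |⟪a (dirc e y) - a (dirc e y'), e j.succ⟫| ≤ D := by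
    have := abs_real_inner_le_norm (a (dirc e y) - a (dirc e y')) (e j.succ)
    rw [e.norm_eq_one, mul_one] at this
    exact this.trans hD
  have h2 : |⟪a (dirc e y) - a (dirc e y'), e 0⟫ * y j| ≤ D := by
    have h3 := abs_real_inner_le_norm (a (dirc e y) - a (dirc e y')) (e 0)
    rw [e.norm_eq_one, mul_one] at h3
    have h4 : |y j| ≤ 1 := by
      have := (norm_le_pi_norm y j).trans hy1
      rwa [Real.norm_eq_abs] at this
    rw [abs_mul]
    calc _ ≤ D * 1 := mul_le_mul (h3.trans hD) h4 (abs_nonneg _) ((norm_nonneg _).trans hD)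
      _ = D := mul_one _
  have h5 : |⟪a (dirc e y'), e 0⟫ * (y - y') j| ≤ A * ‖y - y'‖ := by
    have h3 := abs_real_inner_le_norm (a (dirc e y')) (e 0)
    rw [e.norm_eq_one, mul_one] at h3
    have h4 : |(y - y') j| ≤ ‖y - y'‖ := by
      have := norm_le_pi_norm (y - y') j
      rwa [Real.norm_eq_abs] at this
    rw [abs_mul]
    exact mul_le_mul (h3.trans (hA y' hy')) h4 (abs_nonneg _) hA0
  rw [e1]
  calc _ ≤ |⟪a (dirc e y) - a (dirc e y'), e j.succ⟫| +
        |⟪a (dirc e y) - a (dirc e y'), e 0⟫ * y j| + |⟪a (dirc e y'), e 0⟫ * (y - y') j| := by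
        refine (abs_sub _ _).trans ?_
        gcongr
        exact abs_sub _ _
    _ ≤ D + D + A * (2 * ‖y - y'‖ ^ α) := by
        have : A * ‖y - y'‖ ≤ A * (2 * ‖y - y'‖ ^ α) := by gcongr
        linarith
    _ = _ := by rw [hDdef]; ring

theorem continuousWithinAt_of_holder (a : E → E) (U : Set E) (C α : ℝ) (hα0 : 0 < α)
    (hHo : ∀ w ∈ U, ∀ w' ∈ U, ‖w‖ = 1 → ‖w'‖ = 1 → ‖a w - a w'‖ ≤ C * ‖w - w'‖ ^ α)
    (w₀ : E) (hw₀ : ‖w₀‖ = 1) (hw₀U : w₀ ∈ U) :
    ContinuousWithinAt a (U ∩ {w | ‖w‖ = 1}) w₀ := by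
  rw [Metric.continuousWithinAt_iff]
  intro ε hε
  have ht : Tendsto (fun r : ℝ => C * r ^ α) (𝓝 0) (𝓝 (C * 0 ^ α)) := by
    apply Tendsto.const_mul
    exact (Real.continuousAt_rpow_const 0 α (Or.inr hα0.le)).tendsto
  rw [Real.zero_rpow hα0.ne', mul_zero] at ht
  obtain ⟨η, hη, hη2⟩ := Metric.tendsto_nhds_nhds.mp ht ε hε
  refine ⟨η, hη, fun {x} hx hxd => ?_⟩
  have h1 := hη2 (x := ‖x - w₀‖) (by
    rw [dist_eq_norm] at hxd
    simpa using hxd)
  rw [Real.dist_eq, sub_zero] at h1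
  rw [dist_eq_norm]
  exact (hHo x hx.1 w₀ hw₀U hx.2 hw₀).trans_lt ((le_abs_self _).trans_lt h1)

/-- At most `d` of the hyperplane sections of a closed set with a Hölder selection of segments
are null. -/
theorem sections_of_holder (e : OrthonormalBasis (Fin (d + 1)) ℝ E) (hd : 1 ≤ d) (K : Set E)
    (hK : IsClosed K) (U : Set E) (hU : IsOpen U) (heU : e 0 ∈ U)
    (a : E → E) (C α : ℝ) (hα : ((d:ℝ) - 1) / d < α) (hα1 : α ≤ 1)
    (hHo : ∀ w ∈ U, ∀ w' ∈ U, ‖w‖ = 1 → ‖w'‖ = 1 → ‖a w - a w'‖ ≤ C * ‖w - w'‖ ^ α)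
    (ℓ : ℝ) (hseg : ∀ w ∈ U, ‖w‖ = 1 → ∀ s ∈ Icc 0 ℓ, a w + s • w ∈ K) :
    {t : ℝ | t ∈ Ioo ⟪a (e 0), e 0⟫ (⟪a (e 0), e 0⟫ + ℓ) ∧
      volume {x : Fin d → ℝ | pt e t x ∈ K} = 0}.encard ≤ d := by
  by_contra hneg
  rw [not_le] at hneg
  have hd0 : (0:ℝ) < d := by exact_mod_cast hd
  have hα0 : 0 < α := by
    have : 0 ≤ ((d:ℝ) - 1) / d := by
      apply div_nonneg _ hd0.le
      have : (1:ℝ) ≤ d := by exact_mod_cast hd
      linarith
    linarith
  obtain ⟨T', hT's, hT'c⟩ := Set.exists_subset_encard_eq (Order.add_one_le_of_lt hneg)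
  have hT'f : T'.Finite := by
    apply Set.finite_of_encard_eq_coe (k := d + 1)
    rw [hT'c]; norm_cast
  set T : Finset ℝ := hT'f.toFinset with hTdef
  have hT : T.card = d + 1 := by
    have h1 := hT'f.encard_eq_coe_toFinset_card
    rw [hT'c] at h1
    exact_mod_cast h1.symm
  have hTm : ∀ t ∈ T, t ∈ Ioo ⟪a (e 0), e 0⟫ (⟪a (e 0), e 0⟫ + ℓ) ∧
      volume {x : Fin d → ℝ | pt e t x ∈ K} = 0 := by
    intro t ht
    exact hT's (hT'f.mem_toFinset.mp ht)
  -- WLOG `C ≥ 0`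
  have hHo' : ∀ w ∈ U, ∀ w' ∈ U, ‖w‖ = 1 → ‖w'‖ = 1 → ‖a w - a w'‖ ≤ |C| * ‖w - w'‖ ^ α := by
    intro w hw w' hw' h1 h2
    refine (hHo w hw w' hw' h1 h2).trans ?_
    have : 0 ≤ ‖w - w'‖ ^ α := by positivity
    exact mul_le_mul_of_nonneg_right (le_abs_self C) this
  have hac := continuousWithinAt_of_holder a U C α hα0 hHo (e 0) (e.norm_eq_one 0) heU
  obtain ⟨R, hR0, hR1, hdir, hTseg⟩ := heights e K U hU heU a hac ℓ hseg T (fun t ht => (hTm t ht).1)
  -- bound of `a`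
  set A : ℝ := ‖a (e 0)‖ + |C| * 2 ^ α with hA
  have hA0 : 0 ≤ A := by positivity
  have hAb : ∀ y ∈ Metric.ball (0 : Fin d → ℝ) R, ‖a (dirc e y)‖ ≤ A := by
    intro y hy
    have h1 := hHo' _ (hdir y hy) _ heU (norm_dirc e y) (e.norm_eq_one 0)
    have h2 : ‖dirc e y - e 0‖ ≤ 2 := by
      refine (norm_sub_le _ _).trans ?_
      rw [norm_dirc, e.norm_eq_one]; norm_num
    calc ‖a (dirc e y)‖ = ‖a (e 0) + (a (dirc e y) - a (e 0))‖ := by congr 1; abel
      _ ≤ ‖a (e 0)‖ + ‖a (dirc e y) - a (e 0)‖ := norm_add_le _ _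
      _ ≤ ‖a (e 0)‖ + |C| * 2 ^ α := by
          gcongr
          refine h1.trans ?_
          gcongr
  have hb := bmap_holder e a U |C| α A R (abs_nonneg C) hα0 hα1 hR1 hHo' hdir hA0 hAb
  set C' : ℝ := 2 * (|C| * (2 * d) ^ α) + 2 * A with hC'
  have hC'0 : 0 ≤ C' := by positivity
  have hR2 : 0 ≤ R / 2 := by positivity
  have hcl : ∀ y : Fin d → ℝ, clamp (R / 2) y ∈ Metric.ball (0 : Fin d → ℝ) R := by
    intro y
    rw [Metric.mem_ball, dist_zero_right]
    have := norm_clamp_le hR2 y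
    linarith
  refine core hd (fun y => bmap e a (clamp (R / 2) y)) C' α hC'0 hα0 hα1 ?_ ?_ (R / 2)
    (by positivity) (fun t => {x : Fin d → ℝ | pt e t x ∈ K}) T hT ?_ ?_ (fun t ht => (hTm t ht).2)
  · rw [div_lt_iff₀ hd0] at hα
    linarith
  · intro x y j
    refine (hb _ (hcl x) _ (hcl y) j).trans ?_
    have h1 := norm_clamp_sub_le (R / 2) x y
    have h2 : ‖clamp (R / 2) x - clamp (R / 2) y‖ ^ α ≤ ‖x - y‖ ^ α :=
      Real.rpow_le_rpow (norm_nonneg _) h1 hα0.le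
    gcongr
  · intro t _
    exact hK.preimage (continuous_pt e t)
  · intro t ht y hy
    have hy2 : ‖y‖ ≤ R / 2 := by
      rw [Metric.mem_ball, dist_zero_right] at hy
      exact hy.le
    have hyR : y ∈ Metric.ball (0 : Fin d → ℝ) R := by
      rw [Metric.mem_ball, dist_zero_right]; linarith
    simp only [clamp_eq hy2]
    exact hTseg t ht y hyR

/-- If all but finitely many sections in an interval are not null, then the set has positive
measure. -/
theorem measure_pos_of_sections (e : OrthonormalBasis (Fin (d + 1)) ℝ E) (K : Set E)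
    (hK : IsClosed K) (u v : ℝ) (huv : u < v)
    (h : {t : ℝ | t ∈ Ioo u v ∧ volume {x : Fin d → ℝ | pt e t x ∈ K} = 0}.encard ≤ d) :
    0 < volume K := by
  by_contra hneg
  have h0 : volume K = 0 := by simpa using hneg
  have hfin : {t : ℝ | t ∈ Ioo u v ∧ volume {x : Fin d → ℝ | pt e t x ∈ K} = 0}.Finite :=
    Set.finite_of_encard_le_coe h
  have h1 := null_sections e K hK.measurableSet h0
  have h2 := hfin.measure_zero volume
  have h3 : volume (Ioo u v) = 0 := by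
    refine measure_mono_null (t := {t : ℝ | t ∈ Ioo u v ∧
      volume {x : Fin d → ℝ | pt e t x ∈ K} = 0} ∪
      {t : ℝ | ¬ volume {x : Fin d → ℝ | pt e t x ∈ K} = 0}) ?_ ?_
    · intro t ht
      by_cases h : volume {x : Fin d → ℝ | pt e t x ∈ K} = 0
      · exact Or.inl ⟨ht, h⟩
      · exact Or.inr h
    · exact measure_union_null h2 (ae_iff.mp h1)
  rw [Real.volume_Ioo, ENNReal.ofReal_eq_zero] at h3
  linarith

/-- A coordinate section has at most the `d`-dimensional Hausdorff measure of the section. -/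
theorem volume_section_le (e : OrthonormalBasis (Fin (d + 1)) ℝ E) (K : Set E) (t : ℝ) :
    volume {x : Fin d → ℝ | pt e t x ∈ K} ≤ μH[(d:ℝ)] (K ∩ {z | ⟪z, e 0⟫ = t}) := by
  have hL : LipschitzWith 1 (fun z : E => fun j : Fin d => ⟪z, e j.succ⟫) := by
    rw [lipschitzWith_iff_dist_le_mul]
    intro z z'
    rw [NNReal.coe_one, one_mul, dist_pi_le_iff dist_nonneg]
    intro j
    rw [Real.dist_eq, ← inner_sub_left]
    have := abs_real_inner_le_norm (z - z') (e j.succ)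
    rw [e.norm_eq_one, mul_one] at this
    rw [dist_eq_norm]
    exact this
  have himg : {x : Fin d → ℝ | pt e t x ∈ K} ⊆
      (fun z : E => fun j : Fin d => ⟪z, e j.succ⟫) '' (K ∩ {z | ⟪z, e 0⟫ = t}) := by
    intro x hx
    refine ⟨pt e t x, ⟨hx, inner_pt_zero e t x⟩, ?_⟩
    ext j
    change ⟪t • e 0 + ∑ i : Fin d, x i • e i.succ, e j.succ⟫ = x j
    rw [inner_add_left, inner_smul_left, sum_inner, e.inner_eq_zero (Fin.succ_ne_zero j).symm]
    have h1 : ∀ i : Fin d, ⟪x i • e i.succ, e j.succ⟫ = if i = j then x i else 0 := by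
      intro i
      rw [inner_smul_left]
      split_ifs with h
      · subst h; simp
      · rw [e.inner_eq_zero (by simpa using h)]; simp
    simp [h1]
  have h1 : (volume : Measure (Fin d → ℝ)) = μH[(d:ℝ)] := by
    have := hausdorffMeasure_pi_real (ι := Fin d)
    rw [Fintype.card_fin] at this
    exact this.symm
  rw [h1]
  calc μH[(d:ℝ)] {x : Fin d → ℝ | pt e t x ∈ K}
      ≤ μH[(d:ℝ)] ((fun z : E => fun j : Fin d => ⟪z, e j.succ⟫) '' (K ∩ {z | ⟪z, e 0⟫ = t})) :=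
        measure_mono himg
    _ ≤ ((1 : NNReal) : ENNReal) ^ (d:ℝ) * μH[(d:ℝ)] (K ∩ {z | ⟪z, e 0⟫ = t}) :=
        hL.hausdorffMeasure_image_le (by positivity) _
    _ = _ := by simp

end Pool.Agent.H424R3.Kak
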