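import Pool.Agent.H424R3.KakEst

set_option autoImplicit false

/-!
# Mollification of Hölder functions
-/

open MeasureTheory Set Filter Topology
open scoped ContDiff Convolution

namespace Pool.Agent.H424R3.Kak

variable {d : ℕ}

theorem exists_moll_unit (E : Type*) [NormedAddCommGroup E] [NormedSpace ℝ E]
    [FiniteDimensional ℝ E] [MeasurableSpace E] [BorelSpace E] (μ : Measure E)
    [μ.IsAddHaarMeasure] : ∃ A : ℝ, 0 ≤ A ∧ ∀ (g : E → ℝ) (M : ℝ),
    Continuous g → (∀ x y, ‖x - y‖ ≤ 1 → |g x - g y| ≤ M) →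
    ∃ G : E → ℝ, ContDiff ℝ 2 G ∧ (∀ x, |G x - g x| ≤ M) ∧
      ∀ x, ‖fderiv ℝ G x‖ ≤ A * M := by
  let ρ : ContDiffBump (0 : E) := ⟨1/2, 1, by norm_num, by norm_num⟩
  set f : E → ℝ := ρ.normed μ with hf
  have hfs : ContDiff ℝ 2 f := ρ.contDiff_normed (n := 2)
  have hfc : HasCompactSupport f := ρ.hasCompactSupport_normed
  set L := ContinuousLinearMap.lsmul ℝ ℝ (E := ℝ) with hL
  have hdi : Integrable (fun t => ‖fderiv ℝ f t‖) μ :=
    ((hfs.continuous_fderiv (by norm_num)).integrable_of_hasCompactSupport (hfc.fderiv ℝ)).norm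
  refine ⟨∫ t, ‖fderiv ℝ f t‖ ∂μ, by positivity, ?_⟩
  intro g M hg hM
  have hM0 : 0 ≤ M := (abs_nonneg _).trans (hM 0 0 (by simp))
  refine ⟨f ⋆[L, μ] g, ?_, ?_, ?_⟩
  · exact hfc.contDiff_convolution_left L hfs hg.locallyIntegrable
  · intro x
    have := ρ.dist_normed_convolution_le (μ := μ) (g := g)
      (x₀ := x) (ε := M) hg.aestronglyMeasurable (by
        intro y hy
        rw [Real.dist_eq]
        apply hM
        rw [← dist_eq_norm]
        exact (Metric.mem_ball.mp hy).le)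
    rw [Real.dist_eq] at this
    exact this
  · intro x
    set g' : E → ℝ := fun y => g y - g x with hg'
    have hg'c : Continuous g' := hg.sub continuous_const
    have h1 : (f ⋆[L, μ] g) = fun y => (f ⋆[L, μ] g') y + g x := by
      ext y
      simp only [convolution_def, hg', hL, ContinuousLinearMap.lsmul_apply, smul_eq_mul, mul_sub]
      have hi1 : Integrable (fun t => f t * g (y - t)) μ :=
        (hfs.continuous.mul (hg.comp (continuous_const.sub continuous_id))).integrable_of_hasCompactSupport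
          hfc.mul_right
      have hi2 : Integrable (fun t => f t * g x) μ :=
        (hfs.continuous.mul continuous_const).integrable_of_hasCompactSupport hfc.mul_right
      rw [integral_sub hi1 hi2, integral_mul_const, ρ.integral_normed]
      ring
    have h2 : HasFDerivAt (f ⋆[L, μ] g') ((fderiv ℝ f ⋆[L.precompL E, μ] g') x) x :=
      hfc.hasFDerivAt_convolution_left L (hfs.of_le (by norm_num)) hg'c.locallyIntegrable x
    have h3 : fderiv ℝ (f ⋆[L, μ] g) x
        = (fderiv ℝ f ⋆[L.precompL E, μ] g') x := by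
      rw [h1]
      exact (h2.add_const (g x)).fderiv
    have h4 : ‖(fderiv ℝ f ⋆[L.precompL E, μ] g') x‖
        ≤ ∫ t, M * ‖fderiv ℝ f t‖ ∂μ := by
      rw [convolution_def]
      apply norm_integral_le_of_norm_le (hdi.const_mul _)
      refine Filter.Eventually.of_forall fun t => ?_
      by_cases ht : t ∈ tsupport f
      · have ht' : ‖t‖ ≤ 1 := by
          have h5 : tsupport f = Metric.closedBall 0 ρ.rOut := ρ.tsupport_normed_eq
          rw [h5, mem_closedBall_zero_iff] at ht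
          exact ht
        have h6 : ‖g' (x - t)‖ ≤ M := by
          rw [Real.norm_eq_abs]
          apply hM
          simpa using ht'
        refine ContinuousLinearMap.opNorm_le_bound _ (by positivity) fun v => ?_
        rw [ContinuousLinearMap.precompL_apply, hL, ContinuousLinearMap.lsmul_apply, norm_smul]
        calc ‖fderiv ℝ f t v‖ * ‖g' (x - t)‖ ≤ (‖fderiv ℝ f t‖ * ‖v‖) * M := by
              gcongr
              exact ContinuousLinearMap.le_opNorm _ _
          _ = M * ‖fderiv ℝ f t‖ * ‖v‖ := by ring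
      · have h5 : fderiv ℝ f t = 0 := by
          by_contra hne
          exact ht (tsupport_fderiv_subset ℝ (f := f) (subset_tsupport _ hne))
        simp [h5]
    rw [integral_const_mul] at h4
    rw [h3]
    calc ‖(fderiv ℝ f ⋆[L.precompL E, μ] g') x‖
        ≤ M * ∫ t, ‖fderiv ℝ f t‖ ∂μ := h4
      _ = _ := by ring

theorem exists_moll (d : ℕ) : ∃ A : ℝ, 0 ≤ A ∧ ∀ (g : (Fin d → ℝ) → ℝ) (C α : ℝ), 0 ≤ C → 0 < α →
    (∀ x y, |g x - g y| ≤ C * ‖x - y‖ ^ α) → ∀ ε : ℝ, 0 < ε →
    ∃ G : (Fin d → ℝ) → ℝ, ContDiff ℝ 2 G ∧ (∀ x, |G x - g x| ≤ C * ε ^ α) ∧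
      ∀ k x, |pd k G x| ≤ A * C * (ε ^ α * ε⁻¹) := by
  obtain ⟨A, hA, h⟩ := exists_moll_unit (Fin d → ℝ) volume
  refine ⟨A, hA, ?_⟩
  intro g C α hC hα hg ε hε
  have hgc : Continuous g := by
    rw [Metric.continuous_iff]
    intro b δ hδ
    have ht : Tendsto (fun r : ℝ => C * r ^ α) (𝓝 0) (𝓝 (C * 0 ^ α)) := by
      apply Tendsto.const_mul
      exact (Real.continuousAt_rpow_const 0 α (Or.inr hα.le)).tendsto
    rw [Real.zero_rpow hα.ne', mul_zero] at ht
    obtain ⟨η, hη, hη2⟩ := Metric.tendsto_nhds_nhds.mp ht δ hδ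
    refine ⟨η, hη, fun a ha => ?_⟩
    have h1 := hη2 (x := ‖a - b‖) (by
      rw [dist_eq_norm] at ha
      simpa using ha)
    rw [Real.dist_eq, sub_zero] at h1
    rw [Real.dist_eq]
    exact (hg a b).trans_lt ((le_abs_self _).trans_lt h1)
  obtain ⟨G, hG, hG1, hG2⟩ := h (fun u => g (ε • u)) (C * ε ^ α)
    (hgc.comp (continuous_const_smul ε)) (by
      intro x y hxy
      refine (hg _ _).trans ?_
      gcongr
      rw [← smul_sub, norm_smul, Real.norm_eq_abs, abs_of_pos hε]
      calc ε * ‖x - y‖ ≤ ε * 1 := by gcongr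
        _ = ε := mul_one _)
  refine ⟨fun x => G (ε⁻¹ • x), ?_, ?_, ?_⟩
  · exact hG.comp (contDiff_const_smul ε⁻¹)
  · intro x
    have := hG1 (ε⁻¹ • x)
    simpa [smul_smul, mul_inv_cancel₀ hε.ne'] using this
  · intro k x
    have h1 : pd k (fun x => G (ε⁻¹ • x)) x = ε⁻¹ * pd k G (ε⁻¹ • x) := by
      unfold pd
      have h2 : HasFDerivAt (fun x : Fin d → ℝ => ε⁻¹ • x)
          (ε⁻¹ • ContinuousLinearMap.id ℝ (Fin d → ℝ)) x :=
        (hasFDerivAt_id x).const_smul ε⁻¹
      have h3 := ((hG.differentiable (by norm_num) (ε⁻¹ • x)).hasFDerivAt.comp x h2).fderiv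
      have h4 : (G ∘ fun x => ε⁻¹ • x) = fun x => G (ε⁻¹ • x) := rfl
      rw [h4] at h3
      rw [h3]
      simp
    rw [h1, abs_mul, abs_of_pos (inv_pos.mpr hε)]
    calc ε⁻¹ * |pd k G (ε⁻¹ • x)| ≤ ε⁻¹ * (A * (C * ε ^ α)) := by
          gcongr
          calc |pd k G (ε⁻¹ • x)| ≤ ‖fderiv ℝ G (ε⁻¹ • x)‖ * ‖(Pi.single k 1 : Fin d → ℝ)‖ :=
                (fderiv ℝ G (ε⁻¹ • x)).le_opNorm (Pi.single k 1 : Fin d → ℝ)
            _ ≤ (A * (C * ε ^ α)) * 1 := by
                have h5 : ‖(Pi.single k 1 : Fin d → ℝ)‖ = 1 := by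
                  rw [Pi.norm_single]; simp
                rw [h5]
                gcongr
                exact hG2 _
            _ = _ := mul_one _
      _ = _ := by ring

end Pool.Agent.H424R3.Kak
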