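import Mathlib

set_option autoImplicit false

/-!
# Jacobian determinants as null Lagrangians, and a distributional-degree estimate
-/

open MeasureTheory Set Filter Topology
open scoped ContDiff

namespace Pool.Agent.H424R3.Kak

variable {d : ℕ}

/-- Partial derivative in the direction of the `k`-th coordinate. -/
noncomputable def pd (k : Fin d) (f : (Fin d → ℝ) → ℝ) (y : Fin d → ℝ) : ℝ :=
  fderiv ℝ f y (Pi.single k 1)

/-- The matrix of partial derivatives of a tuple of functions. -/
noncomputable def jmat (f : Fin d → (Fin d → ℝ) → ℝ) (y : Fin d → ℝ) :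
    Matrix (Fin d) (Fin d) ℝ :=
  Matrix.of fun j k => pd k (f j) y

/-- The Jacobian determinant of a tuple of functions. -/
noncomputable def jac (f : Fin d → (Fin d → ℝ) → ℝ) (y : Fin d → ℝ) : ℝ := (jmat f y).det

theorem jac_eq (f : Fin d → (Fin d → ℝ) → ℝ) (y : Fin d → ℝ) (i : Fin d) :
    jac f y = ∑ σ : Equiv.Perm (Fin d), ((Equiv.Perm.sign σ : ℤ) : ℝ) *
      (pd (σ i) (f i) y * ∏ j ∈ Finset.univ.erase i, pd (σ j) (f j) y) := by
  unfold jac
  rw [← Matrix.det_transpose, Matrix.det_apply']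
  refine Finset.sum_congr rfl fun σ _ => ?_
  rw [← Finset.mul_prod_erase Finset.univ _ (Finset.mem_univ i)]
  rfl

theorem contDiff_pd {n : ℕ∞ω} {f : (Fin d → ℝ) → ℝ} (hf : ContDiff ℝ (n + 1) f) (k : Fin d) :
    ContDiff ℝ n (pd k f) := by
  unfold pd
  exact (hf.fderiv_right le_rfl).clm_apply contDiff_const

theorem pd_prod (s : Finset (Fin d)) (g : Fin d → (Fin d → ℝ) → ℝ) (y : Fin d → ℝ)
    (hg : ∀ j ∈ s, DifferentiableAt ℝ (g j) y) (k : Fin d) :
    pd k (fun y => ∏ j ∈ s, g j y) y = ∑ l ∈ s, (∏ j ∈ s.erase l, g j y) * pd k (g l) y := by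
  unfold pd
  have h := HasFDerivAt.finsetProd (𝕜 := ℝ) (u := s) (g := g) (x := y)
    (g' := fun j => fderiv ℝ (g j) y) (fun j hj => (hg j hj).hasFDerivAt)
  rw [h.fderiv]
  simp

theorem pd_comm {f : (Fin d → ℝ) → ℝ} (hf : ContDiff ℝ 2 f) (k l : Fin d) (y : Fin d → ℝ) :
    pd k (pd l f) y = pd l (pd k f) y := by
  have hs : IsSymmSndFDerivAt ℝ f y := hf.contDiffAt.isSymmSndFDerivAt (by simp)
  have hd : DifferentiableAt ℝ (fderiv ℝ f) y :=
    ((hf.fderiv_right (m := 1) (by norm_num)).differentiable (by norm_num)).differentiableAt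
  have h : ∀ a b : Fin d, pd a (pd b f) y
      = fderiv ℝ (fderiv ℝ f) y (Pi.single a 1) (Pi.single b 1) := by
    intro a b
    unfold pd
    rw [fderiv_clm_apply hd (differentiableAt_const _)]
    simp
  rw [h, h]
  exact hs _ _

theorem sum_sign_zero (i : Fin d) (f : Fin d → (Fin d → ℝ) → ℝ)
    (hf : ∀ j, j ≠ i → ContDiff ℝ 2 (f j)) (y : Fin d → ℝ) :
    ∑ σ : Equiv.Perm (Fin d), ((Equiv.Perm.sign σ : ℤ) : ℝ) *
      pd (σ i) (fun y => ∏ j ∈ Finset.univ.erase i, pd (σ j) (f j) y) y = 0 := by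
  have h1 : ∀ σ : Equiv.Perm (Fin d),
      pd (σ i) (fun y => ∏ j ∈ Finset.univ.erase i, pd (σ j) (f j) y) y
        = ∑ l ∈ Finset.univ.erase i, (∏ j ∈ (Finset.univ.erase i).erase l, pd (σ j) (f j) y)
            * pd (σ i) (pd (σ l) (f l)) y := by
    intro σ
    refine pd_prod (Finset.univ.erase i) (fun j => pd (σ j) (f j)) y ?_ (σ i)
    intro j hj
    have hj' : j ≠ i := (Finset.mem_erase.mp hj).1
    exact ((contDiff_pd (n := 1) (by exact_mod_cast hf j hj') (σ j)).differentiable
      (by norm_num)).differentiableAt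
  simp_rw [h1, Finset.mul_sum]
  rw [Finset.sum_comm]
  refine Finset.sum_eq_zero fun l hl => ?_
  have hl' : l ≠ i := (Finset.mem_erase.mp hl).1
  set T : Equiv.Perm (Fin d) → ℝ := fun σ =>
    (∏ j ∈ (Finset.univ.erase i).erase l, pd (σ j) (f j) y) * pd (σ i) (pd (σ l) (f l)) y with hT
  have hinv : ∀ σ, T (σ * Equiv.swap i l) = T σ := by
    intro σ
    simp only [hT]
    have e1 : (σ * Equiv.swap i l) i = σ l := by simp
    have e2 : (σ * Equiv.swap i l) l = σ i := by simp
    rw [e1, e2, pd_comm (hf l hl')]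
    congr 1
    refine Finset.prod_congr rfl fun j hj => ?_
    have hj1 : j ≠ l := (Finset.mem_erase.mp hj).1
    have hj2 : j ≠ i := (Finset.mem_erase.mp (Finset.mem_erase.mp hj).2).1
    have e3 : (σ * Equiv.swap i l) j = σ j := by
      simp [Equiv.swap_apply_of_ne_of_ne hj2 hj1]
    rw [e3]
  have hS : ∑ σ : Equiv.Perm (Fin d), ((Equiv.Perm.sign σ : ℤ) : ℝ) * T σ
      = - ∑ σ : Equiv.Perm (Fin d), ((Equiv.Perm.sign σ : ℤ) : ℝ) * T σ := by
    rw [← Finset.sum_neg_distrib]
    rw [← Equiv.sum_comp (Equiv.mulRight (Equiv.swap i l))]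
    refine Finset.sum_congr rfl fun σ _ => ?_
    rw [Equiv.coe_mulRight, hinv, Equiv.Perm.sign_mul, Equiv.Perm.sign_swap hl'.symm]
    simp
  linarith

theorem continuous_pd {n : ℕ∞ω} {f : (Fin d → ℝ) → ℝ} (hf : ContDiff ℝ n f) (hn : n ≠ 0)
    (k : Fin d) : Continuous (pd k f) := by
  unfold pd
  exact (hf.continuous_fderiv hn).clm_apply continuous_const

theorem hcs_pd {f : (Fin d → ℝ) → ℝ} (hf : HasCompactSupport f) (k : Fin d) :
    HasCompactSupport (pd k f) := by
  unfold pd
  exact (hf.fderiv_apply ℝ _)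

theorem integral_jac_eq_zero (i : Fin d) (f : Fin d → (Fin d → ℝ) → ℝ)
    (hf : ∀ j, j ≠ i → ContDiff ℝ 2 (f j)) (hi : ContDiff ℝ 1 (f i))
    (hc : HasCompactSupport (f i)) : ∫ y, jac f y = 0 := by
  set g : Equiv.Perm (Fin d) → (Fin d → ℝ) → ℝ := fun σ y =>
    ∏ j ∈ Finset.univ.erase i, pd (σ j) (f j) y with hg
  have hgd : ∀ σ, ContDiff ℝ 1 (g σ) := by
    intro σ
    refine contDiff_prod fun j hj => ?_
    exact contDiff_pd (n := 1) (by exact_mod_cast hf j (Finset.mem_erase.mp hj).1) (σ j)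
  have hgc : ∀ σ, Continuous (g σ) := fun σ => (hgd σ).continuous
  have hint1 : ∀ σ : Equiv.Perm (Fin d), Integrable (fun y => pd (σ i) (f i) y * g σ y) := by
    intro σ
    refine Continuous.integrable_of_hasCompactSupport ?_ ?_
    · exact (continuous_pd hi (by norm_num) _).mul (hgc σ)
    · exact (hcs_pd hc (σ i)).mul_right
  have hint2 : ∀ σ : Equiv.Perm (Fin d), Integrable (fun y => f i y * pd (σ i) (g σ) y) := by
    intro σ
    refine Continuous.integrable_of_hasCompactSupport ?_ ?_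
    · exact hi.continuous.mul (continuous_pd (hgd σ) (by norm_num) _)
    · exact hc.mul_right
  have hint3 : ∀ σ : Equiv.Perm (Fin d), Integrable (fun y => f i y * g σ y) := by
    intro σ
    exact Continuous.integrable_of_hasCompactSupport (hi.continuous.mul (hgc σ)) hc.mul_right
  have h1 : ∀ σ : Equiv.Perm (Fin d), ∫ y, pd (σ i) (f i) y * g σ y
      = - ∫ y, f i y * pd (σ i) (g σ) y := by
    intro σ
    have := integral_mul_fderiv_eq_neg_fderiv_mul_of_integrable (μ := (volume : Measure (Fin d → ℝ)))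
      (f := f i) (g := g σ) (v := Pi.single (σ i) 1) (hint1 σ) (hint2 σ) (hint3 σ)
      (fun x _ => (hi.differentiable (by norm_num)).differentiableAt)
      (fun x _ => ((hgd σ).differentiable (by norm_num)).differentiableAt)
    unfold pd
    rw [this, neg_neg]
  simp_rw [jac_eq f _ i]
  rw [integral_finsetSum]
  · have h2 : ∀ σ : Equiv.Perm (Fin d), ∫ y, ((Equiv.Perm.sign σ : ℤ) : ℝ) *
        (pd (σ i) (f i) y * ∏ j ∈ Finset.univ.erase i, pd (σ j) (f j) y)
        = - ∫ y, f i y * (((Equiv.Perm.sign σ : ℤ) : ℝ) * pd (σ i) (g σ) y) := by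
      intro σ
      rw [integral_const_mul, h1 σ, mul_neg, ← integral_const_mul]
      congr 2
      ext y
      ring
    simp_rw [h2]
    rw [Finset.sum_neg_distrib, ← integral_finsetSum]
    · simp_rw [← Finset.mul_sum]
      have h3 : ∀ y, ∑ σ : Equiv.Perm (Fin d), ((Equiv.Perm.sign σ : ℤ) : ℝ) *
          pd (σ i) (g σ) y = 0 := fun y => sum_sign_zero i f hf y
      simp [h3]
    · intro σ _
      have := (hint2 σ).const_mul ((Equiv.Perm.sign σ : ℤ) : ℝ)
      refine this.congr (Filter.Eventually.of_forall fun y => ?_)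
      ring
  · intro σ _
    exact (hint1 σ).const_mul _


theorem exists_primitive (i : Fin d) (φ : (Fin d → ℝ) → ℝ) (hφ : ContDiff ℝ 2 φ) :
    ∃ Φ : (Fin d → ℝ) → ℝ, ContDiff ℝ 1 Φ ∧ ∀ x, pd i Φ x = φ x := by
  set e : Fin d → ℝ := Pi.single i 1 with he
  set h : (Fin d → ℝ) → ℝ → ℝ := fun x s => x i * φ (x + ((s - 1) * x i) • e) with hh
  have hh2 : ContDiff ℝ 2 (Function.uncurry h) := by
    simp only [hh, Function.uncurry_def]
    fun_prop
  have hF' : ContDiff ℝ 1 (fun p : (Fin d → ℝ) × ℝ => fderiv ℝ (fun x => h x p.2) p.1) := by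
    refine ContDiff.fderiv (f := fun p : (Fin d → ℝ) × ℝ => fun x => h x p.2)
      (g := fun p => p.1) (m := 2) (n := 1) ?_ contDiff_fst one_add_one_eq_two.le
    exact hh2.comp (contDiff_snd.prodMk (contDiff_snd.comp contDiff_fst))
  have hhd : ∀ s, Differentiable ℝ (fun x => h x s) := by
    intro s
    have h3 : ContDiff ℝ 2 (fun x => h x s) := hh2.comp (contDiff_id.prodMk contDiff_const)
    exact h3.differentiable (by norm_num)
  set Φ : (Fin d → ℝ) → ℝ := fun x => ∫ s in (0:ℝ)..1, h x s with hΦ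
  have hder : ∀ x, HasFDerivAt Φ (∫ s in (0:ℝ)..1, fderiv ℝ (fun x => h x s) x) x := by
    intro x0
    obtain ⟨C, hC⟩ := ((isCompact_closedBall x0 1).prod
      (isCompact_Icc (a := (0:ℝ)) (b := 1))).exists_bound_of_continuousOn
      (f := fun p : (Fin d → ℝ) × ℝ => fderiv ℝ (fun x => h x p.2) p.1) hF'.continuous.continuousOn
    refine intervalIntegral.hasFDerivAt_integral_of_dominated_of_fderiv_le (F := h)
      (F' := fun x s => fderiv ℝ (fun x => h x s) x) (bound := fun _ => C)
      (s := Metric.closedBall x0 1) (Metric.closedBall_mem_nhds x0 one_pos) ?_ ?_ ?_ ?_ ?_ ?_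
    · refine Filter.Eventually.of_forall fun x => ?_
      exact (hh2.continuous.comp (Continuous.prodMk continuous_const continuous_id)).aestronglyMeasurable
    · exact (hh2.continuous.comp (Continuous.prodMk continuous_const continuous_id)).intervalIntegrable _ _
    · exact (hF'.continuous.comp (Continuous.prodMk continuous_const continuous_id)).aestronglyMeasurable
    · refine Filter.Eventually.of_forall fun s hs x hx => ?_
      have hs' : s ∈ Icc (0:ℝ) 1 := by
        rw [uIoc_of_le zero_le_one] at hs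
        exact ⟨hs.1.le, hs.2⟩
      exact hC (x, s) ⟨hx, hs'⟩
    · exact continuous_const.intervalIntegrable _ _
    · refine Filter.Eventually.of_forall fun s _ x _ => ?_
      exact (hhd s x).hasFDerivAt
  have hcont : Continuous (fun x => ∫ s in (0:ℝ)..1, fderiv ℝ (fun x => h x s) x) := by
    apply intervalIntegral.continuous_parametric_intervalIntegral_of_continuous'
    exact hF'.continuous
  refine ⟨Φ, ?_, ?_⟩
  · rw [contDiff_one_iff_fderiv]
    refine ⟨fun x => (hder x).differentiableAt, ?_⟩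
    have : fderiv ℝ Φ = fun x => ∫ s in (0:ℝ)..1, fderiv ℝ (fun x => h x s) x := by
      ext1 x; exact (hder x).fderiv
    rw [this]; exact hcont
  · intro x
    set w : ℝ → ℝ := fun r => φ (x + (r - x i) • e) with hw
    have hwc : Continuous w := by
      have := hφ.continuous
      fun_prop
    have h1 : ∀ τ : ℝ, Φ (x + τ • e) = ∫ r in (0:ℝ)..(x i + τ), w r := by
      intro τ
      have h2 : ∀ s : ℝ, h (x + τ • e) s = (x i + τ) * w ((x i + τ) * s) := by
        intro s
        simp only [hh, hw]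
        have h3 : (x + τ • e) i = x i + τ := by simp [he]
        rw [h3]
        congr 2
        rw [add_assoc, ← add_smul]
        congr 2
        ring
      simp only [hΦ]
      simp_rw [h2]
      rw [intervalIntegral.integral_const_mul, intervalIntegral.mul_integral_comp_mul_left]
      simp
    have h4 : HasDerivAt (fun τ : ℝ => Φ (x + τ • e)) (φ x) 0 := by
      have h5 : (fun τ : ℝ => Φ (x + τ • e)) = fun τ => ∫ r in (0:ℝ)..(x i + τ), w r := by
        ext τ; exact h1 τ
      rw [h5]
      have h6 : HasDerivAt (fun u : ℝ => ∫ r in (0:ℝ)..u, w r) (w (x i + 0)) (x i + 0) :=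
        intervalIntegral.integral_hasDerivAt_right (hwc.intervalIntegrable _ _)
          (hwc.stronglyMeasurableAtFilter _ _) hwc.continuousAt
      have h7 : HasDerivAt (fun τ : ℝ => x i + τ) 1 0 := by
        simpa using (hasDerivAt_id (0:ℝ)).const_add (x i)
      have h8 := h6.comp (0:ℝ) h7
      have h9 : w (x i + 0) * 1 = φ x := by simp [hw]
      rw [h9] at h8
      exact h8
    have h10 : HasDerivAt (fun τ : ℝ => Φ (x + τ • e)) (fderiv ℝ Φ x e) 0 := by
      have h11 : HasFDerivAt Φ (fderiv ℝ Φ x) (x + (0:ℝ) • e) := by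
        simpa using (hder x).differentiableAt.hasFDerivAt
      have h12 : HasDerivAt (fun τ : ℝ => x + τ • e) e 0 := by
        simpa using ((hasDerivAt_id (0:ℝ)).smul_const e).const_add x
      exact h11.comp_hasDerivAt (0:ℝ) h12
    exact h10.unique h4

end Pool.Agent.H424R3.Kak
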