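import Pool.Agent.H424R3.PowGen

set_option autoImplicit false

open MeasureTheory Filter
open scoped ENNReal Topology

namespace Pool.Agent.H424R3.Pow

/-- Vertices: `(h, k, 0)` is the hub of level `h` and index `k`; `(h, k, j)` with `1 ≤ j ≤ h + 1`
are the middle vertices between this hub and its parent hub `(h + 1, k / 2, 0)`. -/
abbrev W : Type := Σ h : ℕ, ℕ × Fin (h + 2)

def hub (h k : ℕ) : W := ⟨h, (k, 0)⟩
def mid (h k : ℕ) (j : Fin (h + 1)) : W := ⟨h, (k, j.succ)⟩

/-- Upward edges. -/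
inductive Up : W → W → Prop
  | a (h k : ℕ) (j : Fin (h + 1)) : Up (hub h k) (mid h k j)
  | b (h k : ℕ) (j : Fin (h + 1)) : Up (mid h k j) (hub (h + 1) (k / 2))

lemma hub_ne_mid (h k h' k' : ℕ) (j : Fin (h' + 1)) : hub h k ≠ mid h' k' j := by
  intro e
  unfold hub mid at e
  obtain ⟨rfl, e2⟩ := Sigma.mk.inj_iff.1 e
  have e3 := eq_of_heq e2
  rw [Prod.mk.injEq] at e3
  exact (Fin.succ_ne_zero j) e3.2.symm

/-- The canopy graph with `h + 1` parallel paths of length two at level `h`. -/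
def can : SimpleGraph W where
  Adj u v := Up u v ∨ Up v u
  symm := ⟨fun _ _ h => h.symm⟩
  loopless := ⟨fun u h => by
    have : ∀ v w, Up v w → v ≠ w := by
      intro v w h
      cases h with
      | a h k j => exact hub_ne_mid _ _ _ _ _
      | b h k j => exact (hub_ne_mid _ _ _ _ _).symm
    rcases h with h | h <;> exact this _ _ h rfl⟩

lemma adj_hub_mid (h k : ℕ) (j : Fin (h + 1)) : can.Adj (hub h k) (mid h k j) := Or.inl (Up.a h k j)
lemma adj_mid_hub (h k : ℕ) (j : Fin (h + 1)) : can.Adj (mid h k j) (hub (h + 1) (k / 2)) :=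
  Or.inl (Up.b h k j)

lemma cases_W (x : W) : (∃ h k, x = hub h k) ∨ (∃ h k j, x = mid h k j) := by
  obtain ⟨h, k, i⟩ := x
  refine Fin.cases ?_ ?_ i
  · left; exact ⟨h, k, rfl⟩
  · intro j; right; exact ⟨h, k, j, rfl⟩

lemma reach_up (h k : ℕ) : can.Reachable (hub h k) (hub (h + 1) (k / 2)) :=
  (adj_hub_mid h k 0).reachable.trans (adj_mid_hub h k 0).reachable

lemma reach_spine (n : ℕ) : can.Reachable (hub 0 0) (hub n 0) := by
  induction n with
  | zero => exact SimpleGraph.Reachable.refl _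
  | succ n ih => exact ih.trans (by simpa using reach_up n 0)

lemma reach_hub (k : ℕ) : ∀ h, can.Reachable (hub 0 0) (hub h k) := by
  induction k using Nat.strong_induction_on with
  | _ k ih =>
    intro h
    rcases Nat.eq_zero_or_pos k with rfl | hk
    · exact reach_spine h
    · exact (ih (k / 2) (Nat.div_lt_self hk (by norm_num)) (h + 1)).trans (reach_up h k).symm

lemma reach_all (x : W) : can.Reachable (hub 0 0) x := by
  rcases cases_W x with ⟨h, k, rfl⟩ | ⟨h, k, j, rfl⟩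
  · exact reach_hub k h
  · exact (reach_hub k h).trans (adj_hub_mid h k j).reachable

lemma can_connected : can.Connected where
  preconnected := fun x y => (reach_all x).symm.trans (reach_all y)
  nonempty := ⟨hub 0 0⟩

/-- A box of vertices. -/
lemma box_finite (H K : ℕ) : {x : W | x.1 ≤ H ∧ x.2.1 ≤ K}.Finite := by
  have : {x : W | x.1 ≤ H ∧ x.2.1 ≤ K}
      ⊆ ((Finset.range (H + 1)).sigma (fun h => (Finset.range (K + 1)) ×ˢ
        (Finset.univ : Finset (Fin (h + 2))))) := by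
    intro x hx
    simp only [Finset.coe_sigma, Set.mem_sigma_iff, Finset.coe_range, Set.mem_Iio,
      Finset.mem_coe, Finset.mem_product, Finset.mem_range, Finset.mem_univ, and_true]
    exact ⟨by have := hx.1; omega, by have := hx.2; omega⟩
  exact (Finset.finite_toSet _).subset this

lemma nbr_box {x y : W} (h : can.Adj x y) :
    y.1 ≤ x.1 + 1 ∧ x.1 ≤ y.1 + 1 ∧ y.2.1 ≤ 2 * x.2.1 + 1 := by
  have key : ∀ u v, Up u v → u.1 ≤ v.1 ∧ v.1 ≤ u.1 + 1 ∧ v.2.1 ≤ u.2.1 ∧ u.2.1 ≤ 2 * v.2.1 + 1 := by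
    intro u v h
    cases h with
    | a h k j => simp only [hub, mid]; omega
    | b h k j => simp only [hub, mid]; omega
  rcases h with h | h
  · have := key _ _ h; omega
  · have := key _ _ h; omega

lemma can_finite (x : W) : (can.neighborSet x).Finite := by
  apply (box_finite (x.1 + 1) (2 * x.2.1 + 1)).subset
  intro y hy
  have := nbr_box hy
  exact ⟨this.1, this.2.2⟩

lemma can_nonempty (x : W) : (can.neighborSet x).Nonempty := by
  rcases cases_W x with ⟨h, k, rfl⟩ | ⟨h, k, j, rfl⟩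
  · exact ⟨_, adj_hub_mid h k 0⟩
  · exact ⟨_, adj_mid_hub h k j⟩

lemma can_nice : Nice can := ⟨can_connected, can_finite, can_nonempty⟩

/-- Degrees of vertices of index zero grow at most linearly with the level. -/
lemma deg_le (h : ℕ) (i : Fin (h + 2)) :
    (can.neighborSet (⟨h, (0, i)⟩ : W)).ncard ≤ 6 * h + 18 := by
  classical
  let S : Finset W := ((Finset.Icc (h - 1) (h + 1)).sigma (fun h' => (Finset.range 2) ×ˢ
        (Finset.univ : Finset (Fin (h' + 2)))))
  have hsub : can.neighborSet (⟨h, (0, i)⟩ : W) ⊆ (S : Set W) := by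
    intro y hy
    have h1 := nbr_box hy
    simp only at h1
    simp only [S, Finset.coe_sigma, Set.mem_sigma_iff, Finset.mem_coe, Finset.mem_product,
      Finset.mem_range, Finset.mem_univ, and_true, Finset.mem_Icc]
    omega
  have h2 : (can.neighborSet (⟨h, (0, i)⟩ : W)).ncard ≤ S.card := by
    rw [← Set.ncard_coe_finset]
    exact Set.ncard_le_ncard hsub (Finset.finite_toSet _)
  have h3 : S.card ≤ 6 * h + 18 := by
    simp only [S, Finset.card_sigma, Finset.card_product, Finset.card_range, Finset.card_univ,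
      Fintype.card_fin]
    have h4 : ∀ x ∈ Finset.Icc (h - 1) (h + 1), 2 * (x + 2) ≤ 2 * (h + 3) := by
      intro x hx
      rw [Finset.mem_Icc] at hx
      omega
    have h5 := Finset.sum_le_card_nsmul _ _ _ h4
    rw [Nat.card_Icc, smul_eq_mul] at h5
    refine h5.trans ?_
    have h6 : h + 1 + 1 - (h - 1) ≤ 3 := by omega
    calc (h + 1 + 1 - (h - 1)) * (2 * (h + 3)) ≤ 3 * (2 * (h + 3)) := Nat.mul_le_mul_right _ h6
      _ = 6 * h + 18 := by ring
  exact h2.trans h3

lemma up_inv {u v : W} (h : Up u v) : (∃ h k j, u = hub h k ∧ v = mid h k j) ∨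
    (∃ h k j, u = mid h k j ∧ v = hub (h + 1) (k / 2)) := by
  cases h with
  | a h k j => left; exact ⟨h, k, j, rfl, rfl⟩
  | b h k j => right; exact ⟨h, k, j, rfl, rfl⟩

lemma hub_inj {h k h' k' : ℕ} (e : hub h k = hub h' k') : h = h' ∧ k = k' := by
  unfold hub at e
  obtain ⟨rfl, e2⟩ := Sigma.mk.inj_iff.1 e
  have e3 := eq_of_heq e2
  rw [Prod.mk.injEq] at e3
  exact ⟨rfl, e3.1⟩

lemma mid_inj {h k h' k' : ℕ} {j : Fin (h + 1)} {j' : Fin (h' + 1)}
    (e : mid h k j = mid h' k' j') : h = h' ∧ k = k' ∧ (j : ℕ) = j' := by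
  unfold mid at e
  obtain ⟨rfl, e2⟩ := Sigma.mk.inj_iff.1 e
  have e3 := eq_of_heq e2
  rw [Prod.mk.injEq] at e3
  exact ⟨rfl, e3.1, by rw [Fin.succ_injective _ e3.2]⟩

lemma adj_mid {h k : ℕ} {j : Fin (h + 1)} {y : W} :
    can.Adj (mid h k j) y ↔ y = hub h k ∨ y = hub (h + 1) (k / 2) := by
  constructor
  · rintro (h1 | h1)
    · rcases up_inv h1 with ⟨a, b, c, e1, e2⟩ | ⟨a, b, c, e1, e2⟩
      · exact absurd e1.symm (hub_ne_mid _ _ _ _ _)
      · obtain ⟨rfl, rfl, _⟩ := mid_inj e1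
        right; exact e2
    · rcases up_inv h1 with ⟨a, b, c, e1, e2⟩ | ⟨a, b, c, e1, e2⟩
      · obtain ⟨rfl, rfl, _⟩ := mid_inj e2
        left; exact e1
      · exact absurd e2.symm (hub_ne_mid _ _ _ _ _)
  · rintro (rfl | rfl)
    · exact (adj_hub_mid h k j).symm
    · exact adj_mid_hub h k j

lemma adj_hub {h k : ℕ} {y : W} : can.Adj (hub h k) y ↔
    (∃ j : Fin (h + 1), y = mid h k j) ∨
      (∃ (h' k' : ℕ) (j : Fin (h' + 1)), y = mid h' k' j ∧ h' + 1 = h ∧ k' / 2 = k) := by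
  constructor
  · rintro (h1 | h1)
    · rcases up_inv h1 with ⟨a, b, c, e1, e2⟩ | ⟨a, b, c, e1, e2⟩
      · obtain ⟨rfl, rfl⟩ := hub_inj e1
        left; exact ⟨c, e2⟩
      · exact absurd e1 (hub_ne_mid _ _ _ _ _)
    · rcases up_inv h1 with ⟨a, b, c, e1, e2⟩ | ⟨a, b, c, e1, e2⟩
      · exact absurd e2 (hub_ne_mid _ _ _ _ _)
      · obtain ⟨e3, e4⟩ := hub_inj e2
        right; exact ⟨a, b, c, e1, e3.symm, e4.symm⟩
  · rintro (⟨j, rfl⟩ | ⟨h', k', j, rfl, rfl, rfl⟩)
    · exact adj_hub_mid h k j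
    · exact (adj_mid_hub h' k' j).symm

/-- Resistance scale. -/
noncomputable def R (n : ℕ) : ℝ := ∑ i ∈ Finset.range n, 2 / ((i : ℝ) + 1)

lemma R_succ (n : ℕ) : R (n + 1) = R n + 2 / ((n : ℝ) + 1) := by
  unfold R; rw [Finset.sum_range_succ]

lemma R_mono : Monotone R := monotone_nat_of_le_succ (fun n => by
  rw [R_succ]; have : (0 : ℝ) ≤ 2 / ((n : ℝ) + 1) := by positivity
  linarith)

lemma R_nonneg (n : ℕ) : 0 ≤ R n := by
  unfold R; apply Finset.sum_nonneg; intro i _; positivity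

lemma R_tendsto : Tendsto R atTop atTop := by
  have h := Real.tendsto_sum_range_one_div_nat_succ_atTop
  have h2 := h.const_mul_atTop (r := 2) (by norm_num)
  have e : (fun n : ℕ => 2 * ∑ i ∈ Finset.range n, 1 / ((i : ℝ) + 1)) = R := by
    funext n
    unfold R
    rw [Finset.mul_sum]
    apply Finset.sum_congr rfl
    intro i _; ring
  rw [← e]; exact h2

/-- Potential of the walk, harmonic off `hub 0 0`. -/
noncomputable def ψ (x : W) : ℝ :=
  if x.2.1 = 0 then (if x.2.2 = 0 then R x.1 else R x.1 + 1 / ((x.1 : ℝ) + 1))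
  else R (x.1 + Nat.log 2 x.2.1 + 1)

lemma ψ_hub0 (h : ℕ) : ψ (hub h 0) = R h := by
  unfold ψ hub
  rw [if_pos rfl, if_pos rfl]
lemma ψ_mid0 (h : ℕ) (j : Fin (h + 1)) : ψ (mid h 0 j) = R h + 1 / ((h : ℝ) + 1) := by
  unfold ψ mid
  rw [if_pos rfl, if_neg (Fin.succ_ne_zero j)]
lemma ψ_hub (h : ℕ) {k : ℕ} (hk : k ≠ 0) : ψ (hub h k) = R (h + Nat.log 2 k + 1) := by
  simp [ψ, hub, hk]
lemma ψ_mid (h : ℕ) {k : ℕ} (hk : k ≠ 0) (j : Fin (h + 1)) :
    ψ (mid h k j) = R (h + Nat.log 2 k + 1) := by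
  simp [ψ, mid, hk]

lemma log_half {k : ℕ} (hk : k / 2 ≠ 0) : Nat.log 2 k = Nat.log 2 (k / 2) + 1 :=
  Nat.log_of_one_lt_of_le (by norm_num) (by omega)

lemma ψ_nonneg (x : W) : 0 ≤ ψ x := by
  unfold ψ
  split_ifs
  · exact R_nonneg _
  · have := R_nonneg x.1; positivity
  · exact R_nonneg _

lemma ψ_finite (M : ℝ) : {x | ψ x ≤ M}.Finite := by
  obtain ⟨N, hN⟩ := (R_tendsto.eventually_gt_atTop M).exists
  apply (box_finite N (2 ^ N)).subset
  intro x hx
  have hx' : ψ x ≤ M := hx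
  have key : ∀ n, R n ≤ M → n < N := by
    intro n hn
    by_contra hc
    push Not at hc
    have := R_mono hc
    linarith
  unfold ψ at hx'
  split_ifs at hx' with h1 h2
  · have := key _ hx'
    exact ⟨this.le, by rw [h1]; positivity⟩
  · have : (0 : ℝ) ≤ 1 / ((x.1 : ℝ) + 1) := by positivity
    have := key x.1 (by linarith)
    exact ⟨this.le, by rw [h1]; positivity⟩
  · have := key _ hx'
    refine ⟨by omega, ?_⟩
    have h3 := Nat.lt_pow_succ_log_self (b := 2) (by norm_num) x.2.1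
    exact h3.le.trans (Nat.pow_le_pow_right (by norm_num) (by omega))

lemma sup_of_le {x : W} (h : ∀ y, can.Adj x y → ψ y ≤ ψ x) : nbrAvg can ψ x ≤ ψ x := by
  rw [← nbrAvg_const can_nice (ψ x) x]
  exact nbrAvg_mono can_nice h

lemma nbrs_hub0 (h : ℕ) [DecidableEq W] : (can_nice.fin (hub (h + 1) 0)).toFinset
    = (Finset.univ.image (fun j : Fin (h + 2) => mid (h + 1) 0 j)) ∪
      ((Finset.univ.image (fun j : Fin (h + 1) => mid h 0 j)) ∪
       (Finset.univ.image (fun j : Fin (h + 1) => mid h 1 j))) := by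
  ext y
  simp only [Set.Finite.mem_toFinset, SimpleGraph.mem_neighborSet, adj_hub, Finset.mem_union,
    Finset.mem_image, Finset.mem_univ, true_and]
  constructor
  · rintro (⟨j, rfl⟩ | ⟨h', k', j, rfl, e1, e2⟩)
    · left; exact ⟨j, rfl⟩
    · obtain rfl : h' = h := by omega
      have : k' = 0 ∨ k' = 1 := by omega
      rcases this with rfl | rfl
      · right; left; exact ⟨j, rfl⟩
      · right; right; exact ⟨j, rfl⟩
  · rintro (⟨j, rfl⟩ | ⟨j, rfl⟩ | ⟨j, rfl⟩)
    · left; exact ⟨j, rfl⟩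
    · right; exact ⟨h, 0, j, rfl, rfl, rfl⟩
    · right; exact ⟨h, 1, j, rfl, rfl, rfl⟩

lemma mid_injective (h k : ℕ) : Function.Injective (fun j : Fin (h + 1) => mid h k j) := by
  intro a b e
  exact Fin.ext (mid_inj e).2.2

lemma nbrs_hub0_sum (h : ℕ) (f : W → ℝ) : ∑ y ∈ (can_nice.fin (hub (h + 1) 0)).toFinset, f y
    = ∑ j : Fin (h + 2), f (mid (h + 1) 0 j) + (∑ j : Fin (h + 1), f (mid h 0 j) +
      ∑ j : Fin (h + 1), f (mid h 1 j)) := by
  classical
  rw [nbrs_hub0, Finset.sum_union, Finset.sum_union]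
  · rw [Finset.sum_image (fun a _ b _ e => mid_injective _ _ e),
      Finset.sum_image (fun a _ b _ e => mid_injective _ _ e),
      Finset.sum_image (fun a _ b _ e => mid_injective _ _ e)]
  · rw [Finset.disjoint_left]
    intro y h1 h2
    simp only [Finset.mem_image, Finset.mem_univ, true_and] at h1 h2
    obtain ⟨a, rfl⟩ := h1
    obtain ⟨b, e⟩ := h2
    have := (mid_inj e).2.1
    omega
  · rw [Finset.disjoint_left]
    intro y h1 h2
    simp only [Finset.mem_union, Finset.mem_image, Finset.mem_univ, true_and] at h1 h2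
    obtain ⟨a, rfl⟩ := h1
    rcases h2 with ⟨b, e⟩ | ⟨b, e⟩
    · have := (mid_inj e).1; omega
    · have := (mid_inj e).1; omega

lemma ψ_super (x : W) (hx : x ≠ hub 0 0) : nbrAvg can ψ x ≤ ψ x := by
  rcases cases_W x with ⟨h, k, rfl⟩ | ⟨h, k, j, rfl⟩
  · by_cases hk : k = 0
    · subst hk
      obtain ⟨m, rfl⟩ : ∃ m, h = m + 1 := by
        rcases Nat.eq_zero_or_pos h with rfl | h0
        · exact absurd rfl hx
        · exact ⟨h - 1, by omega⟩
      rw [nbrAvg_eq _ (can_nice.fin _), div_le_iff₀ (can_nice.card_pos _)]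
      have hcard : ((can_nice.fin (hub (m + 1) 0)).toFinset.card : ℝ)
          = ((m : ℝ) + 2) + (((m : ℝ) + 1) + ((m : ℝ) + 1)) := by
        have := nbrs_hub0_sum m (fun _ => (1 : ℝ))
        rw [Finset.sum_const, nsmul_eq_mul, mul_one] at this
        rw [this]
        simp
      rw [hcard, nbrs_hub0_sum]
      simp only [ψ_hub0, ψ_mid0, ψ_mid m (one_ne_zero), Nat.log_one_right, Nat.add_zero,
        Finset.sum_const, Finset.card_univ, Fintype.card_fin, nsmul_eq_mul, R_succ]
      push_cast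
      apply le_of_eq
      have h1 : (m : ℝ) + 1 ≠ 0 := by positivity
      have h2 : (m : ℝ) + 1 + 1 ≠ 0 := by positivity
      field_simp
      ring
    · apply sup_of_le
      intro y hy
      rcases adj_hub.1 hy with ⟨j, rfl⟩ | ⟨h', k', j, rfl, e1, e2⟩
      · rw [ψ_hub h hk, ψ_mid h hk]
      · have hk' : k' ≠ 0 := by omega
        rw [ψ_hub h hk, ψ_mid h' hk', log_half (k := k') (by omega), e2, ← e1]
        apply le_of_eq; congr 1; omega
  · by_cases hk : k = 0
    · subst hk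
      have hset : (can_nice.fin (mid h 0 j)).toFinset = {hub h 0, hub (h + 1) 0} := by
        classical
        ext y
        simp only [Set.Finite.mem_toFinset, SimpleGraph.mem_neighborSet, adj_mid]
        simp
      rw [nbrAvg_eq _ (can_nice.fin _), hset, Finset.sum_pair, Finset.card_pair]
      · rw [ψ_hub0, ψ_hub0, ψ_mid0, R_succ]
        apply le_of_eq
        have h1 : (h : ℝ) + 1 ≠ 0 := by positivity
        push_cast
        field_simp
        ring
      · intro e; have := (hub_inj e).1; omega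
      · intro e; have := (hub_inj e).1; omega
    · apply sup_of_le
      intro y hy
      rcases adj_mid.1 hy with rfl | rfl
      · rw [ψ_hub h hk, ψ_mid h hk]
      · by_cases hk2 : k / 2 = 0
        · obtain rfl : k = 1 := by omega
          rw [ψ_mid h one_ne_zero]
          simp [ψ_hub0]
        · rw [ψ_hub (h + 1) hk2, ψ_mid h hk, log_half hk2]
          apply le_of_eq; congr 1; omega

/-- Simple random walk on the canopy graph is recurrent from every vertex. -/
theorem can_recurrent (ρ : W) : Recurrent can ρ :=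
  recurrent_of_proper can_nice (hub 0 0) ρ ψ ψ_nonneg ψ_super ψ_finite

end Pool.Agent.H424R3.Pow
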