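import Mathlib

set_option autoImplicit false

open MeasureTheory Filter
open scoped ENNReal Topology

namespace Pool.Agent.H424R3.Pow

/-- Average of `f` over the neighbours of `x`: one step of simple random walk. -/
noncomputable def nbrAvg {V : Type} (G : SimpleGraph V) (f : V → ℝ) (x : V) : ℝ :=
  (∑ᶠ y ∈ G.neighborSet x, f y) / ((G.neighborSet x).ncard : ℝ)

open Classical in
/-- `hitWithin G o n x` is the probability that simple random walk on `G` started at `x` is at `o`
at one of the times `0, 1, ..., n` (first-step recursion). -/
noncomputable def hitWithin {V : Type} (G : SimpleGraph V) (o : V) : ℕ → V → ℝ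
  | 0, x => if x = o then 1 else 0
  | n + 1, x => if x = o then 1 else nbrAvg G (hitWithin G o n) x

/-- Probability that simple random walk on `G` started at `o` returns to `o` at one of the times
`1, ..., n + 1`. -/
noncomputable def returnWithin {V : Type} (G : SimpleGraph V) (o : V) (n : ℕ) : ℝ :=
  nbrAvg G (hitWithin G o n) o

/-- Simple random walk on `G` started at `o` returns to `o` with probability one. -/
def Recurrent {V : Type} (G : SimpleGraph V) (o : V) : Prop :=
  Tendsto (fun n => returnWithin G o n) atTop (𝓝 1)

/-- The `k`-th power of a graph: distinct vertices joined by a walk of length at most `k`. -/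
def power {V : Type} (G : SimpleGraph V) (k : ℕ) : SimpleGraph V where
  Adj x y := x ≠ y ∧ ∃ p : G.Walk x y, p.length ≤ k
  symm := ⟨fun _ _ h => ⟨h.1.symm, h.2.choose.reverse, by
    rw [SimpleGraph.Walk.length_reverse]; exact h.2.choose_spec⟩⟩
  loopless := ⟨fun _ h => h.1 rfl⟩

/-- A random rooted graph on a countable vertex set `V`: a random connected locally finite graph
with vertex set `V` and a random root. -/
structure RandomRootedGraph (V : Type) {Ω : Type} [MeasurableSpace Ω] (P : Measure Ω) where
  /-- the random graph -/
  graph : Ω → SimpleGraph V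
  /-- the random root -/
  root : Ω → V
  measurable_adj : ∀ x y, MeasurableSet {ω | (graph ω).Adj x y}
  measurable_root : ∀ x, MeasurableSet {ω | root ω = x}
  connected : ∀ ω, (graph ω).Connected
  locallyFinite : ∀ ω x, ((graph ω).neighborSet x).Finite

/-- The sigma-algebra on graphs with vertex set `V` generated by the adjacency events. -/
def graphSigma (V : Type) : MeasurableSpace (SimpleGraph V) :=
  MeasurableSpace.generateFrom {s | ∃ x y : V, s = {G : SimpleGraph V | G.Adj x y}}

/-- The mass transport principle, for all measurable isomorphism-invariant nonnegative functions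
of doubly rooted graphs. -/
def RandomRootedGraph.Unimodular {V : Type} {Ω : Type} [MeasurableSpace Ω] {P : Measure Ω}
    (X : RandomRootedGraph V P) : Prop :=
  ∀ f : SimpleGraph V → V → V → ℝ≥0∞,
    (∀ x y, @Measurable _ _ (graphSigma V) _ (fun G => f G x y)) →
    (∀ (G G' : SimpleGraph V) (φ : G ≃g G') (x y : V), f G' (φ x) (φ y) = f G x y) →
    ∫⁻ ω, ∑' x, f (X.graph ω) (X.root ω) x ∂P = ∫⁻ ω, ∑' x, f (X.graph ω) x (X.root ω) ∂P

/-- The degree of the root has an exponential tail. -/
def RandomRootedGraph.ExpTail {V : Type} {Ω : Type} [MeasurableSpace Ω] {P : Measure Ω}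
    (X : RandomRootedGraph V P) : Prop :=
  ∃ C c : ℝ, 0 < C ∧ 0 < c ∧ ∀ n : ℕ, 1 ≤ n →
    P {ω | n ≤ ((X.graph ω).neighborSet (X.root ω)).ncard}
      ≤ ENNReal.ofReal (C * Real.exp (-(c * n)))

end Pool.Agent.H424R3.Pow
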