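import Pool.Agent.H424R3.PowDefs

set_option autoImplicit false

open MeasureTheory Filter
open scoped ENNReal Topology

namespace Pool.Agent.H424R3.Pow

variable {V : Type} {G : SimpleGraph V}

lemma nbrAvg_eq (f : V → ℝ) {x : V} (h : (G.neighborSet x).Finite) :
    nbrAvg G f x = (∑ y ∈ h.toFinset, f y) / (h.toFinset.card : ℝ) := by
  unfold nbrAvg
  rw [finsum_mem_eq_finite_toFinset_sum _ h, Set.ncard_eq_toFinset_card _ h]

/-- Standing hypotheses. -/
structure Nice (G : SimpleGraph V) : Prop where
  conn : G.Connected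
  fin : ∀ x, (G.neighborSet x).Finite
  pos : ∀ x, (G.neighborSet x).Nonempty

lemma Nice.card_pos (hG : Nice G) (x : V) : (0 : ℝ) < ((hG.fin x).toFinset.card : ℝ) := by
  have : (hG.fin x).toFinset.Nonempty := by
    obtain ⟨y, hy⟩ := hG.pos x
    exact ⟨y, by simpa using hy⟩
  exact_mod_cast Finset.card_pos.2 this

lemma nbrAvg_const (hG : Nice G) (c : ℝ) (x : V) : nbrAvg G (fun _ => c) x = c := by
  rw [nbrAvg_eq _ (hG.fin x), Finset.sum_const, nsmul_eq_mul]
  have := hG.card_pos x
  field_simp

lemma nbrAvg_mono (hG : Nice G) {f g : V → ℝ} {x : V} (h : ∀ y, G.Adj x y → f y ≤ g y) :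
    nbrAvg G f x ≤ nbrAvg G g x := by
  rw [nbrAvg_eq _ (hG.fin x), nbrAvg_eq _ (hG.fin x)]
  apply div_le_div_of_nonneg_right _ (hG.card_pos x).le
  apply Finset.sum_le_sum
  intro y hy
  exact h y (by simpa using hy)

lemma nbrAvg_add (hG : Nice G) (f g : V → ℝ) (x : V) :
    nbrAvg G (fun y => f y + g y) x = nbrAvg G f x + nbrAvg G g x := by
  rw [nbrAvg_eq _ (hG.fin x), nbrAvg_eq _ (hG.fin x), nbrAvg_eq _ (hG.fin x),
    Finset.sum_add_distrib, add_div]

lemma nbrAvg_smul (hG : Nice G) (a : ℝ) (f : V → ℝ) (x : V) :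
    nbrAvg G (fun y => a * f y) x = a * nbrAvg G f x := by
  rw [nbrAvg_eq _ (hG.fin x), nbrAvg_eq _ (hG.fin x), ← Finset.mul_sum, mul_div_assoc]

lemma nbrAvg_tendsto (hG : Nice G) {f : ℕ → V → ℝ} {g : V → ℝ}
    (h : ∀ y, Tendsto (fun n => f n y) atTop (𝓝 (g y))) (x : V) :
    Tendsto (fun n => nbrAvg G (f n) x) atTop (𝓝 (nbrAvg G g x)) := by
  rw [nbrAvg_eq _ (hG.fin x)]
  have : (fun n => nbrAvg G (f n) x)
      = fun n => (∑ y ∈ (hG.fin x).toFinset, f n y) / ((hG.fin x).toFinset.card : ℝ) := by
    funext n; rw [nbrAvg_eq _ (hG.fin x)]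
  rw [this]
  apply Tendsto.div_const
  exact tendsto_finset_sum _ (fun y _ => h y)

/-- If the average is at most the value at a minimum then all neighbours are at the minimum. -/
lemma eq_of_avg_le (hG : Nice G) {w : V → ℝ} {x : V} {m : ℝ} (hx : w x = m)
    (hmin : ∀ y, m ≤ w y) (havg : nbrAvg G w x ≤ w x) {y : V} (hy : G.Adj x y) : w y = m := by
  rw [nbrAvg_eq _ (hG.fin x), div_le_iff₀ (hG.card_pos x), hx] at havg
  by_contra hne
  have hlt : m < w y := lt_of_le_of_ne (hmin y) (Ne.symm hne)
  have : ∑ z ∈ (hG.fin x).toFinset, m < ∑ z ∈ (hG.fin x).toFinset, w z := by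
    apply Finset.sum_lt_sum (fun z _ => hmin z)
    exact ⟨y, by simpa using hy, hlt⟩
  rw [Finset.sum_const, nsmul_eq_mul] at this
  linarith

lemma hit_self (o : V) (n : ℕ) : hitWithin G o n o = 1 := by
  cases n <;> simp [hitWithin]

lemma hit_succ {o x : V} (h : x ≠ o) (n : ℕ) :
    hitWithin G o (n + 1) x = nbrAvg G (hitWithin G o n) x := by
  simp [hitWithin, h]

lemma hit_nonneg (hG : Nice G) (o : V) (n : ℕ) : ∀ x, 0 ≤ hitWithin G o n x := by
  induction n with
  | zero => intro x; simp only [hitWithin]; split_ifs <;> norm_num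
  | succ n ih =>
    intro x
    by_cases h : x = o
    · rw [h, hit_self]; norm_num
    · rw [hit_succ h, ← nbrAvg_const hG 0 x]
      exact nbrAvg_mono hG (fun y _ => ih y)

lemma hit_le_one (hG : Nice G) (o : V) (n : ℕ) : ∀ x, hitWithin G o n x ≤ 1 := by
  induction n with
  | zero => intro x; simp only [hitWithin]; split_ifs <;> norm_num
  | succ n ih =>
    intro x
    by_cases h : x = o
    · rw [h, hit_self]
    · rw [hit_succ h, ← nbrAvg_const hG 1 x]
      exact nbrAvg_mono hG (fun y _ => ih y)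

lemma hit_mono_succ (hG : Nice G) (o : V) (n : ℕ) :
    ∀ x, hitWithin G o n x ≤ hitWithin G o (n + 1) x := by
  induction n with
  | zero =>
    intro x
    by_cases h : x = o
    · rw [h, hit_self, hit_self]
    · have : hitWithin G o 0 x = 0 := by simp [hitWithin, h]
      rw [this]; exact hit_nonneg hG o 1 x
  | succ n ih =>
    intro x
    by_cases h : x = o
    · rw [h, hit_self, hit_self]
    · rw [hit_succ h, hit_succ h]
      exact nbrAvg_mono hG (fun y _ => ih y)

lemma hit_mono (hG : Nice G) (o x : V) : Monotone (fun n => hitWithin G o n x) :=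
  monotone_nat_of_le_succ (fun n => hit_mono_succ hG o n x)

/-- The hitting probability. -/
noncomputable def hit (G : SimpleGraph V) (o x : V) : ℝ := ⨆ n, hitWithin G o n x

lemma hit_tendsto (hG : Nice G) (o x : V) :
    Tendsto (fun n => hitWithin G o n x) atTop (𝓝 (hit G o x)) :=
  tendsto_atTop_ciSup (hit_mono hG o x) ⟨1, by rintro _ ⟨n, rfl⟩; exact hit_le_one hG o n x⟩

lemma hit_o (hG : Nice G) (o : V) : hit G o o = 1 :=
  tendsto_nhds_unique (hit_tendsto hG o o) (by simp [hit_self])

lemma hit_harmonic (hG : Nice G) {o x : V} (h : x ≠ o) : hit G o x = nbrAvg G (hit G o) x := by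
  apply tendsto_nhds_unique ((tendsto_add_atTop_iff_nat 1).2 (hit_tendsto hG o x))
  have : (fun n => hitWithin G o (n + 1) x) = fun n => nbrAvg G (hitWithin G o n) x := by
    funext n; rw [hit_succ h]
  rw [this]
  exact nbrAvg_tendsto hG (fun y => hit_tendsto hG o y) x

lemma hit_ge (hG : Nice G) (o x : V) (n : ℕ) : hitWithin G o n x ≤ hit G o x :=
  (hit_mono hG o x).ge_of_tendsto (hit_tendsto hG o x) n

lemma hit_nonneg' (hG : Nice G) (o x : V) : 0 ≤ hit G o x :=
  (hit_nonneg hG o 0 x).trans (hit_ge hG o x 0)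

lemma hit_le_one' (hG : Nice G) (o x : V) : hit G o x ≤ 1 :=
  le_of_tendsto' (hit_tendsto hG o x) (fun n => hit_le_one hG o n x)

lemma hit_pos (hG : Nice G) (o x : V) : 0 < hit G o x := by
  obtain ⟨p⟩ := hG.conn.preconnected x o
  induction p with
  | nil => rw [hit_o hG]; norm_num
  | @cons u v w h p ih =>
    by_cases hu : u = w
    · rw [hu, hit_o hG]; norm_num
    · rw [hit_harmonic hG hu, nbrAvg_eq _ (hG.fin u)]
      apply div_pos _ (hG.card_pos u)
      have h1 : hit G w v ≤ ∑ y ∈ (hG.fin u).toFinset, hit G w y :=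
        Finset.single_le_sum (f := fun y => hit G w y) (fun y _ => hit_nonneg' hG w y)
          (by simpa using h)
      exact lt_of_lt_of_le ih h1

/-- Minimum principle. -/
lemma min_principle (hG : Nice G) {w : V → ℝ} {F : Set V} (hF : F.Nonempty)
    (hFw : ∀ x ∈ F, 0 ≤ w x) (hsup : ∀ x, x ∉ F → nbrAvg G w x ≤ w x)
    (hfin : {x | w x < 0}.Finite) : ∀ x, 0 ≤ w x := by
  intro x0
  by_contra hneg
  push Not at hneg
  obtain ⟨x1, hx1, hmin⟩ := Set.exists_min_image _ w hfin ⟨x0, hneg⟩
  have hmin' : ∀ y, w x1 ≤ w y := by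
    intro y
    by_cases hy : w y < 0
    · exact hmin y hy
    · push Not at hy; exact (le_of_lt hx1).trans hy
  have hall : ∀ y, G.Reachable x1 y → w y = w x1 := by
    rintro y ⟨p⟩
    have key : ∀ {a b : V} (q : G.Walk a b), w a = w x1 → w b = w x1 := by
      intro a b q
      induction q with
      | nil => exact id
      | @cons u v z h q ih =>
        intro hu
        apply ih
        have huF : u ∉ F := fun h1 => by
          have := hFw u h1
          rw [hu] at this
          exact absurd hx1 (not_lt.2 this)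
        exact eq_of_avg_le hG hu hmin' (hsup u huF) h
    exact key p rfl
  obtain ⟨z, hz⟩ := hF
  have h1 := hall z (hG.conn.preconnected x1 z)
  have h2 := hFw z hz
  rw [h1] at h2
  exact absurd hx1 (not_lt.2 h2)

/-- Recurrence from a proper function that is superharmonic off one vertex. -/
theorem recurrent_of_proper (hG : Nice G) (o ρ : V) (ψ : V → ℝ) (h0 : ∀ x, 0 ≤ ψ x)
    (hsup : ∀ x, x ≠ o → nbrAvg G ψ x ≤ ψ x) (hfin : ∀ M : ℝ, {x | ψ x ≤ M}.Finite) :
    Recurrent G ρ := by
  let a : ℝ := hit G ρ o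
  have ha0 : 0 < a := hit_pos hG ρ o
  have ha1 : a ≤ 1 := hit_le_one' hG ρ o
  -- step 1: the hitting probability is at least a
  have hM : ∀ M : ℝ, 0 < M → ∀ x, a * (1 - ψ x / M) ≤ hit G ρ x := by
    intro M hM
    have hw : ∀ x, 0 ≤ hit G ρ x + ((-a) + (a / M) * ψ x) := by
      apply min_principle hG (F := {o, ρ}) ⟨o, by simp⟩
      · rintro x (rfl | hx)
        · have : 0 ≤ (a / M) * ψ x := mul_nonneg (div_nonneg ha0.le hM.le) (h0 x)
          show 0 ≤ hit G ρ x + ((-a) + (a / M) * ψ x)
          have h2 : hit G ρ x = a := rfl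
          linarith
        · rw [Set.mem_singleton_iff] at hx
          subst hx
          have : 0 ≤ (a / M) * ψ x := mul_nonneg (div_nonneg ha0.le hM.le) (h0 x)
          rw [hit_o hG]
          linarith
      · intro x hx
        simp only [Set.mem_insert_iff, Set.mem_singleton_iff, not_or] at hx
        rw [nbrAvg_add hG (hit G ρ) (fun y => (-a) + (a / M) * ψ y),
          nbrAvg_add hG (fun _ => -a) (fun y => (a / M) * ψ y), nbrAvg_const hG,
          nbrAvg_smul hG, ← hit_harmonic hG hx.2]
        have := mul_le_mul_of_nonneg_left (hsup x hx.1) (div_nonneg ha0.le hM.le)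
        linarith
      · apply (hfin M).subset
        intro x hx
        simp only [Set.mem_setOf_eq] at hx ⊢
        by_contra hc
        push Not at hc
        have h1 : a ≤ (a / M) * ψ x := by
          rw [div_mul_eq_mul_div, le_div_iff₀ hM]
          exact mul_le_mul_of_nonneg_left hc.le ha0.le
        have h2 := hit_nonneg' hG ρ x
        linarith
    intro x
    have := hw x
    have h3 : a * (1 - ψ x / M) = a - a / M * ψ x := by ring
    linarith
  have hge : ∀ x, a ≤ hit G ρ x := by
    intro x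
    have ht : Tendsto (fun M : ℝ => a * (1 - ψ x / M)) atTop (𝓝 (a * (1 - 0))) := by
      apply Tendsto.const_mul
      apply Tendsto.const_sub
      exact tendsto_const_nhds.div_atTop tendsto_id
    have := le_of_tendsto ht ((eventually_gt_atTop 0).mono (fun M hM' => hM M hM' x))
    linarith
  -- step 2: iterate
  have hit1 : ∀ n x, 1 - hit G ρ x ≤ (1 - a) * (1 - hitWithin G ρ n x) := by
    intro n
    induction n with
    | zero =>
      intro x
      by_cases hx : x = ρ
      · rw [hx, hit_o hG, hit_self]; simp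
      · have : hitWithin G ρ 0 x = 0 := by simp [hitWithin, hx]
        rw [this]
        have := hge x
        linarith
    | succ n ih =>
      intro x
      by_cases hx : x = ρ
      · rw [hx, hit_o hG, hit_self]; simp
      · rw [hit_succ hx, hit_harmonic hG hx]
        have h1 := nbrAvg_mono hG (x := x) (fun y _ => ih y)
        have h2 : nbrAvg G (fun y => 1 - hit G ρ y) x = 1 - nbrAvg G (hit G ρ) x := by
          have e : (fun y => 1 - hit G ρ y) = fun y => 1 + (-1) * hit G ρ y := by
            funext y; ring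
          rw [e, nbrAvg_add hG (fun _ => 1) (fun y => (-1) * hit G ρ y), nbrAvg_const hG,
            nbrAvg_smul hG]
          ring
        have h3 : nbrAvg G (fun y => (1 - a) * (1 - hitWithin G ρ n y)) x
            = (1 - a) * (1 - nbrAvg G (hitWithin G ρ n) x) := by
          have e : (fun y => (1 - a) * (1 - hitWithin G ρ n y))
              = fun y => (1 - a) + (-(1 - a)) * hitWithin G ρ n y := by
            funext y; ring
          rw [e, nbrAvg_add hG (fun _ => 1 - a) (fun y => (-(1 - a)) * hitWithin G ρ n y),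
            nbrAvg_const hG, nbrAvg_smul hG]
          ring
        rw [h2, h3] at h1
        exact h1
  have hone : ∀ x, hit G ρ x = 1 := by
    intro x
    have ht : Tendsto (fun n => (1 - a) * (1 - hitWithin G ρ n x)) atTop
        (𝓝 ((1 - a) * (1 - hit G ρ x))) :=
      ((hit_tendsto hG ρ x).const_sub 1).const_mul _
    have h1 := ge_of_tendsto' ht (fun n => hit1 n x)
    have h2 := hit_le_one' hG ρ x
    nlinarith
  unfold Recurrent returnWithin
  have ht := nbrAvg_tendsto hG (fun y => hit_tendsto hG ρ y) ρ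
  have : nbrAvg G (hit G ρ) ρ = 1 := by
    have e : hit G ρ = fun _ => 1 := funext hone
    rw [e, nbrAvg_const hG]
  rw [this] at ht
  exact ht

/-- Capacity bound at a vertex. -/
def Cap (G : SimpleGraph V) (o : V) (C : ℝ) : Prop :=
  ∀ f : V → ℝ, (Function.support f).Finite → ∃ T : Finset (V × V),
    (∀ p ∈ T, G.Adj p.1 p.2) ∧ (f o) ^ 2 ≤ C * ∑ p ∈ T, (f p.1 - f p.2) ^ 2

lemma Cap.step {o x : V} {C : ℝ} (hC : 0 ≤ C) (h : Cap G o C) (hx : G.Adj x o) :
    Cap G x (2 * C + 2) := by
  classical
  intro f hf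
  obtain ⟨T, hT, hle⟩ := h f hf
  refine ⟨insert (x, o) T, ?_, ?_⟩
  · intro p hp
    rw [Finset.mem_insert] at hp
    rcases hp with rfl | hp
    · exact hx
    · exact hT p hp
  · have h1 : ∑ p ∈ T, (f p.1 - f p.2) ^ 2 ≤ ∑ p ∈ insert (x, o) T, (f p.1 - f p.2) ^ 2 :=
      Finset.sum_le_sum_of_subset_of_nonneg (Finset.subset_insert _ _)
        (fun _ _ _ => sq_nonneg _)
    have h2 : (f x - f o) ^ 2 ≤ ∑ p ∈ insert (x, o) T, (f p.1 - f p.2) ^ 2 :=
      Finset.single_le_sum (f := fun p : V × V => (f p.1 - f p.2) ^ 2)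
        (fun _ _ => sq_nonneg _) (Finset.mem_insert_self (x, o) T)
    have h3 : (f x) ^ 2 ≤ 2 * (f o) ^ 2 + 2 * (f x - f o) ^ 2 := by
      nlinarith [sq_nonneg (f x - 2 * f o)]
    have h4 := mul_le_mul_of_nonneg_left h1 hC
    nlinarith

lemma Cap.all (hconn : G.Connected) {o : V} {C : ℝ} (hC : 0 ≤ C) (h : Cap G o C) (x : V) :
    ∃ C', 0 ≤ C' ∧ Cap G x C' := by
  obtain ⟨p⟩ := hconn.preconnected x o
  induction p with
  | nil => exact ⟨C, hC, h⟩
  | cons hadj q ih =>
    obtain ⟨C', h0, h1⟩ := ih h
    exact ⟨2 * C' + 2, by linarith, h1.step h0 hadj⟩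

lemma support_hit (hG : Nice G) (o : V) (n : ℕ) :
    (Function.support (hitWithin G o n)).Finite := by
  induction n with
  | zero =>
    apply (Set.finite_singleton o).subset
    intro x hx
    by_contra h
    have h' : x ≠ o := h
    exact hx (by simp [hitWithin, h'])
  | succ n ih =>
    apply ((Set.finite_singleton o).union (ih.biUnion (fun y _ => hG.fin y))).subset
    intro x hx
    by_cases h : x = o
    · left; exact h
    · right
      by_contra hc
      apply hx
      rw [hit_succ h, nbrAvg_eq _ (hG.fin x), Finset.sum_eq_zero, zero_div]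
      intro y hy
      by_contra hy0
      apply hc
      simp only [Set.mem_iUnion]
      refine ⟨y, hy0, ?_⟩
      have : G.Adj x y := by simpa using hy
      exact this.symm

/-- A capacity bound implies transience. -/
theorem not_recurrent_of_cap (hG : Nice G) {o : V} {C : ℝ} (hC : Cap G o C) :
    ¬ Recurrent G o := by
  classical
  have key : ∀ n, 1 ≤ 2 * |C| * ((hG.fin o).toFinset.card : ℝ) * (1 - returnWithin G o n) := by
    intro n
    let f : V → ℝ := hitWithin G o n
    have hf := support_hit hG o n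
    obtain ⟨T, hT, hle⟩ := hC f hf
    have hfo : f o = 1 := hit_self o n
    rw [hfo] at hle
    let S : Finset V := hf.toFinset ∪ (hf.toFinset.biUnion (fun x => (hG.fin x).toFinset)) ∪
      (T.image Prod.fst ∪ T.image Prod.snd)
    let A : Finset (V × V) := (S ×ˢ S).filter (fun p => G.Adj p.1 p.2)
    have hTA : T ⊆ A := by
      intro p hp
      simp only [A, S, Finset.mem_filter, Finset.mem_product, Finset.mem_union,
        Finset.mem_image]
      exact ⟨⟨Or.inr (Or.inl ⟨p, hp, rfl⟩), Or.inr (Or.inr ⟨p, hp, rfl⟩)⟩, hT p hp⟩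
    have h1 : ∑ p ∈ T, (f p.1 - f p.2) ^ 2 ≤ ∑ p ∈ A, (f p.1 - f p.2) ^ 2 :=
      Finset.sum_le_sum_of_subset_of_nonneg hTA (fun _ _ _ => sq_nonneg _)
    have hswap : ∑ p ∈ A, f p.2 * (f p.2 - f p.1) = ∑ p ∈ A, f p.1 * (f p.1 - f p.2) := by
      apply Finset.sum_nbij' (fun p => (p.2, p.1)) (fun p => (p.2, p.1))
      · intro p hp
        simp only [A, Finset.mem_filter, Finset.mem_product] at hp ⊢
        exact ⟨⟨hp.1.2, hp.1.1⟩, hp.2.symm⟩
      · intro p hp
        simp only [A, Finset.mem_filter, Finset.mem_product] at hp ⊢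
        exact ⟨⟨hp.1.2, hp.1.1⟩, hp.2.symm⟩
      · intro p _; rfl
      · intro p _; rfl
      · intro p _; rfl
    have h2 : ∑ p ∈ A, (f p.1 - f p.2) ^ 2 = 2 * ∑ p ∈ A, f p.1 * (f p.1 - f p.2) := by
      have : ∑ p ∈ A, (f p.1 - f p.2) ^ 2
          = ∑ p ∈ A, f p.1 * (f p.1 - f p.2) + ∑ p ∈ A, f p.2 * (f p.2 - f p.1) := by
        rw [← Finset.sum_add_distrib]
        apply Finset.sum_congr rfl
        intro p _; ring
      rw [this, hswap]; ring
    have h3 : ∑ p ∈ A, f p.1 * (f p.1 - f p.2)
        = ∑ x ∈ S, f x * ∑ y ∈ S.filter (fun y => G.Adj x y), (f x - f y) := by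
      simp only [A]
      rw [Finset.sum_filter, Finset.sum_product]
      apply Finset.sum_congr rfl
      intro x _
      rw [Finset.sum_filter, Finset.mul_sum]
      apply Finset.sum_congr rfl
      intro y _
      split_ifs <;> simp
    have h4 : ∀ x ∈ S, f x * ∑ y ∈ S.filter (fun y => G.Adj x y), (f x - f y)
        ≤ if x = o then ((hG.fin o).toFinset.card : ℝ) * (1 - returnWithin G o n) else 0 := by
      intro x hxS
      by_cases hfx : f x = 0
      · rw [hfx, zero_mul, if_neg]
        rintro rfl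
        rw [hfo] at hfx; norm_num at hfx
      · have hset : S.filter (fun y => G.Adj x y) = (hG.fin x).toFinset := by
          ext y
          simp only [Finset.mem_filter, Set.Finite.mem_toFinset, SimpleGraph.mem_neighborSet]
          constructor
          · exact fun h => h.2
          · intro h
            refine ⟨?_, h⟩
            simp only [S, Finset.mem_union, Finset.mem_biUnion]
            left; right
            exact ⟨x, by simpa using hfx, by simpa using h⟩
        rw [hset, Finset.sum_sub_distrib, Finset.sum_const, nsmul_eq_mul]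
        have hcard := hG.card_pos x
        have havg : ∑ y ∈ (hG.fin x).toFinset, f y
            = ((hG.fin x).toFinset.card : ℝ) * nbrAvg G f x := by
          rw [nbrAvg_eq _ (hG.fin x)]; field_simp
        rw [havg]
        by_cases hxo : x = o
        · subst hxo
          rw [if_pos rfl, hfo]
          apply le_of_eq
          show 1 * (((hG.fin x).toFinset.card : ℝ) * 1 - ((hG.fin x).toFinset.card : ℝ) *
            nbrAvg G (hitWithin G x n) x) = _
          unfold returnWithin
          ring
        · rw [if_neg hxo]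
          have hfx0 : 0 ≤ f x := hit_nonneg hG o n x
          have hle2 : f x ≤ nbrAvg G f x := by
            have := hit_mono_succ hG o n x
            rwa [hit_succ hxo] at this
          have : ((hG.fin x).toFinset.card : ℝ) * f x - ((hG.fin x).toFinset.card : ℝ) *
              nbrAvg G f x ≤ 0 := by nlinarith
          exact mul_nonpos_of_nonneg_of_nonpos hfx0 this
    have hoS : o ∈ S := by
      simp only [S, Finset.mem_union]
      left; left
      have : f o ≠ 0 := by rw [hfo]; norm_num
      simpa using this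
    have h5 : ∑ p ∈ A, f p.1 * (f p.1 - f p.2)
        ≤ ((hG.fin o).toFinset.card : ℝ) * (1 - returnWithin G o n) := by
      rw [h3]
      refine (Finset.sum_le_sum h4).trans (le_of_eq ?_)
      rw [Finset.sum_ite_eq' S o, if_pos hoS]
    have hnn : 0 ≤ ∑ p ∈ T, (f p.1 - f p.2) ^ 2 := Finset.sum_nonneg (fun _ _ => sq_nonneg _)
    have h6 : C * ∑ p ∈ T, (f p.1 - f p.2) ^ 2 ≤ |C| * ∑ p ∈ T, (f p.1 - f p.2) ^ 2 :=
      mul_le_mul_of_nonneg_right (le_abs_self C) hnn
    have h7 : |C| * ∑ p ∈ T, (f p.1 - f p.2) ^ 2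
        ≤ |C| * (2 * (((hG.fin o).toFinset.card : ℝ) * (1 - returnWithin G o n))) := by
      apply mul_le_mul_of_nonneg_left _ (abs_nonneg C)
      linarith
    linarith
  intro hrec
  have ht : Tendsto (fun n => 2 * |C| * ((hG.fin o).toFinset.card : ℝ) *
      (1 - returnWithin G o n)) atTop (𝓝 (2 * |C| * ((hG.fin o).toFinset.card : ℝ) * (1 - 1))) :=
    (hrec.const_sub 1).const_mul _
  have := ge_of_tendsto' ht key
  norm_num at this

end Pool.Agent.H424R3.Pow
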