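import Pool.Agent.H424R3.PowTrans

set_option autoImplicit false

open MeasureTheory Filter
open scoped ENNReal Topology

namespace Pool.Agent.H424R3.Pow

/-- Automorphisms of the canopy graph. -/
def flip (K : ℕ) (x : W) : W := ⟨x.1, (x.2.1 ^^^ (K >>> x.1), x.2.2)⟩

lemma flip_flip (K : ℕ) (x : W) : flip K (flip K x) = x := by
  obtain ⟨h, k, i⟩ := x
  simp only [flip]
  rw [Nat.xor_assoc, Nat.xor_self, Nat.xor_zero]

lemma flip_hub (K h k : ℕ) : flip K (hub h k) = hub h (k ^^^ (K >>> h)) := rfl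
lemma flip_mid (K h k : ℕ) (j : Fin (h + 1)) : flip K (mid h k j) = mid h (k ^^^ (K >>> h)) j := rfl

lemma xor_half (K h k : ℕ) : (k ^^^ (K >>> h)) / 2 = (k / 2) ^^^ (K >>> (h + 1)) := by
  have h1 : ∀ a : ℕ, a / 2 = a >>> 1 := fun a => by rw [Nat.shiftRight_eq_div_pow]
  rw [h1, h1, Nat.shiftRight_xor_distrib]
  rfl

lemma flip_up (K : ℕ) {u v : W} (h : Up u v) : Up (flip K u) (flip K v) := by
  cases h with
  | a h k j => rw [flip_hub, flip_mid]; exact Up.a _ _ _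
  | b h k j => rw [flip_hub, flip_mid, ← xor_half]; exact Up.b _ _ _

lemma flip_adj (K : ℕ) {u v : W} (h : can.Adj u v) : can.Adj (flip K u) (flip K v) :=
  h.imp (flip_up K) (flip_up K)

def flipIso (K : ℕ) : can ≃g can where
  toFun := flip K
  invFun := flip K
  left_inv := flip_flip K
  right_inv := flip_flip K
  map_rel_iff' := by
    intro a b
    constructor
    · intro h
      have := flip_adj K h
      simp only [Equiv.coe_fn_mk] at this
      rwa [flip_flip, flip_flip] at this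
    · exact fun h => flip_adj K h

/-- Types of vertices. -/
abbrev Om : Type := Σ h : ℕ, Fin (h + 2)

def vtx (w : Om) (k : ℕ) : W := ⟨w.1, (k, w.2)⟩

def eW : Om × ℕ ≃ W where
  toFun p := vtx p.1 p.2
  invFun x := (⟨x.1, x.2.2⟩, x.2.1)
  left_inv := fun _ => rfl
  right_inv := fun _ => rfl

lemma tsum_W (g : W → ℝ≥0∞) : ∑' x, g x = ∑' w : Om, ∑' k : ℕ, g (vtx w k) := by
  rw [← eW.tsum_eq g, ENNReal.tsum_prod']
  rfl

lemma tsum_div (n : ℕ) (hn : n ≠ 0) (g : ℕ → ℝ≥0∞) :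
    ∑' k : ℕ, g (k / n) = n * ∑' l : ℕ, g l := by
  have : NeZero n := ⟨hn⟩
  rw [← (Nat.divModEquiv n).symm.tsum_eq, ENNReal.tsum_prod']
  have : ∀ (a : ℕ) (b : Fin n), ((Nat.divModEquiv n).symm (a, b)) / n = a := by
    intro a b
    have h1 : ((Nat.divModEquiv n) ((Nat.divModEquiv n).symm (a, b))).1 = a := by
      rw [Equiv.apply_symm_apply]
    exact h1
  simp_rw [this]
  rw [← ENNReal.tsum_mul_left]
  congr 1
  funext a
  rw [tsum_fintype, Finset.sum_const, Finset.card_univ, Fintype.card_fin, nsmul_eq_mul]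

lemma transport (Φ : ℕ → ℕ → ℝ≥0∞) (h h' : ℕ)
    (hΦ : ∀ K k k', Φ (k ^^^ (K >>> h)) (k' ^^^ (K >>> h')) = Φ k k') :
    ((2 : ℝ≥0∞)⁻¹) ^ h * ∑' k, Φ 0 k = ((2 : ℝ≥0∞)⁻¹) ^ h' * ∑' k, Φ k 0 := by
  have hpow : ∀ d : ℕ, ((2 : ℝ≥0∞)⁻¹) ^ d * ((2 ^ d : ℕ) : ℝ≥0∞) = 1 := by
    intro d
    push_cast
    rw [← mul_pow, ENNReal.inv_mul_cancel (by norm_num) (by norm_num), one_pow]
  rcases le_total h h' with hle | hle
  · obtain ⟨d, rfl⟩ := Nat.exists_eq_add_of_le hle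
    have h1 : ∀ k, Φ k 0 = Φ 0 (k / 2 ^ d) := by
      intro k
      have h2 := hΦ (k <<< h) k 0
      rw [Nat.shiftLeft_shiftRight, Nat.xor_self, Nat.zero_xor, Nat.shiftRight_add,
        Nat.shiftLeft_shiftRight, Nat.shiftRight_eq_div_pow] at h2
      exact h2.symm
    simp_rw [h1]
    rw [tsum_div (2 ^ d) (by positivity) (fun l => Φ 0 l), pow_add, mul_assoc, ← mul_assoc
      (((2 : ℝ≥0∞)⁻¹) ^ d), hpow, one_mul]
  · obtain ⟨d, rfl⟩ := Nat.exists_eq_add_of_le hle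
    have h1 : ∀ k, Φ 0 k = Φ (k / 2 ^ d) 0 := by
      intro k
      have h2 := hΦ (k <<< h') 0 k
      rw [Nat.shiftLeft_shiftRight, Nat.xor_self, Nat.zero_xor, Nat.shiftRight_add,
        Nat.shiftLeft_shiftRight, Nat.shiftRight_eq_div_pow] at h2
      exact h2.symm
    simp_rw [h1]
    rw [tsum_div (2 ^ d) (by positivity) (fun l => Φ l 0), pow_add, mul_assoc, ← mul_assoc
      (((2 : ℝ≥0∞)⁻¹) ^ d), hpow, one_mul]

/-- Unnormalised mass transport. -/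
lemma mtp (F : W → W → ℝ≥0∞) (hF : ∀ K x y, F (flip K x) (flip K y) = F x y) :
    ∑' w : Om, ((2 : ℝ≥0∞)⁻¹) ^ w.1 * ∑' x, F (vtx w 0) x
      = ∑' w : Om, ((2 : ℝ≥0∞)⁻¹) ^ w.1 * ∑' x, F x (vtx w 0) := by
  have h1 : ∀ w w' : Om, ((2 : ℝ≥0∞)⁻¹) ^ w.1 * ∑' k, F (vtx w 0) (vtx w' k)
      = ((2 : ℝ≥0∞)⁻¹) ^ w'.1 * ∑' k, F (vtx w k) (vtx w' 0) := by
    intro w w'
    exact transport (fun k k' => F (vtx w k) (vtx w' k')) w.1 w'.1
      (fun K k k' => hF K (vtx w k) (vtx w' k'))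
  have hL : ∀ w : Om, ((2 : ℝ≥0∞)⁻¹) ^ w.1 * ∑' x, F (vtx w 0) x
      = ∑' w' : Om, ((2 : ℝ≥0∞)⁻¹) ^ w'.1 * ∑' k, F (vtx w k) (vtx w' 0) := by
    intro w
    rw [tsum_W, ← ENNReal.tsum_mul_left]
    exact tsum_congr (fun w' => h1 w w')
  have hR : ∀ w : Om, ((2 : ℝ≥0∞)⁻¹) ^ w.1 * ∑' x, F x (vtx w 0)
      = ∑' w' : Om, ((2 : ℝ≥0∞)⁻¹) ^ w.1 * ∑' k, F (vtx w' k) (vtx w 0) := by
    intro w
    rw [tsum_W, ← ENNReal.tsum_mul_left]
  rw [tsum_congr hL, tsum_congr hR, ENNReal.tsum_comm]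

/-- A summable weight. -/
lemma weight_sum (r : ℝ) (h0 : 0 ≤ r) (h1 : r < 1) :
    ∑' w : Om, (ENNReal.ofReal r) ^ w.1 ≠ ⊤ := by
  rw [ENNReal.tsum_sigma']
  have h2 : ∀ h : ℕ, ∑' _ : Fin (h + 2), (ENNReal.ofReal r) ^ h
      = ENNReal.ofReal (((h : ℝ) + 2) * r ^ h) := by
    intro h
    rw [tsum_fintype, Finset.sum_const, Finset.card_univ, Fintype.card_fin, nsmul_eq_mul,
      ENNReal.ofReal_mul (by positivity), ENNReal.ofReal_pow h0]
    congr 1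
    rw [ENNReal.ofReal_add (by positivity) (by norm_num)]
    push_cast
    simp
  simp only
  simp_rw [h2]
  have hs : Summable (fun h : ℕ => ((h : ℝ) + 2) * r ^ h) := by
    have ha : Summable (fun h : ℕ => (h : ℝ) * r ^ h) := by
      have := summable_pow_mul_geometric_of_norm_lt_one 1 (r := r)
        (by rw [Real.norm_eq_abs, abs_of_nonneg h0]; exact h1)
      simpa using this
    have hb : Summable (fun h : ℕ => 2 * r ^ h) := (summable_geometric_of_lt_one h0 h1).mul_left 2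
    refine (ha.add hb).congr (fun h => by ring)
  rw [← ENNReal.ofReal_tsum_of_nonneg (fun h => by positivity) hs]
  exact ENNReal.ofReal_ne_top

end Pool.Agent.H424R3.Pow
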