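import Pool.Agent.H424R3.PowCanopy

set_option autoImplicit false

open MeasureTheory Filter
open scoped ENNReal Topology

namespace Pool.Agent.H424R3.Pow

lemma can_le_power {k : ℕ} (hk : 1 ≤ k) : can ≤ power can k := by
  intro x y h
  exact ⟨h.ne, h.toWalk, by simpa using hk⟩

lemma walk_box {x y : W} (p : can.Walk x y) :
    y.1 ≤ x.1 + p.length ∧ y.2.1 + 1 ≤ 2 ^ p.length * (x.2.1 + 1) := by
  induction p with
  | nil => simp
  | @cons u v w h p ih =>
    have h1 := nbr_box h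
    rw [SimpleGraph.Walk.length_cons]
    refine ⟨by omega, ih.2.trans ?_⟩
    calc 2 ^ p.length * (v.2.1 + 1) ≤ 2 ^ p.length * (2 * (u.2.1 + 1)) :=
          Nat.mul_le_mul_left _ (by omega)
      _ = 2 ^ (p.length + 1) * (u.2.1 + 1) := by ring

lemma power_nice {k : ℕ} (hk : 1 ≤ k) : Nice (power can k) where
  conn := can_connected.mono (can_le_power hk)
  fin := by
    intro x
    apply (box_finite (x.1 + k) (2 ^ k * (x.2.1 + 1))).subset
    rintro y ⟨_, p, hp⟩
    have h1 := walk_box p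
    refine ⟨by have := h1.1; omega, ?_⟩
    have h2 : 2 ^ p.length * (x.2.1 + 1) ≤ 2 ^ k * (x.2.1 + 1) :=
      Nat.mul_le_mul_right _ (Nat.pow_le_pow_right (by norm_num) hp)
    have := h1.2
    omega
  pos := by
    intro x
    obtain ⟨y, hy⟩ := can_nonempty x
    exact ⟨y, can_le_power hk hy⟩

lemma power_adj {k : ℕ} (hk : 2 ≤ k) (h : ℕ) (i : Fin (h + 1)) (j : Fin (h + 2)) :
    (power can k).Adj (mid h 0 i) (mid (h + 1) 0 j) := by
  refine ⟨fun e => ?_, ?_⟩
  · have := (mid_inj e).1; omega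
  · have h1 : can.Adj (mid h 0 i) (hub (h + 1) 0) := adj_mid_hub h 0 i
    have h2 : can.Adj (hub (h + 1) 0) (mid (h + 1) 0 j) := adj_hub_mid (h + 1) 0 j
    exact ⟨.cons h1 (.cons h2 .nil), by simpa using hk⟩

/-- Average of `f` over the middle vertices of level `h` on the spine. -/
noncomputable def av (f : W → ℝ) (h : ℕ) : ℝ := (∑ i : Fin (h + 1), f (mid h 0 i)) / ((h : ℝ) + 1)

lemma av_step (f : W → ℝ) (h : ℕ) :
    (av f h - av f (h + 1)) ^ 2 ≤ (1 / (((h : ℝ) + 1) * ((h : ℝ) + 2))) *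
      ∑ p : Fin (h + 1) × Fin (h + 2), (f (mid h 0 p.1) - f (mid (h + 1) 0 p.2)) ^ 2 := by
  have e1 : av f h - av f (h + 1) = (1 / (((h : ℝ) + 1) * ((h : ℝ) + 2))) *
      ∑ p : Fin (h + 1) × Fin (h + 2), (f (mid h 0 p.1) - f (mid (h + 1) 0 p.2)) := by
    rw [Finset.sum_sub_distrib, Fintype.sum_prod_type, Fintype.sum_prod_type_right]
    simp only [Finset.sum_const, Finset.card_univ, Fintype.card_fin, nsmul_eq_mul]
    rw [← Finset.mul_sum, ← Finset.mul_sum]
    unfold av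
    push_cast
    have h1 : (h : ℝ) + 1 ≠ 0 := by positivity
    have h2 : (h : ℝ) + 2 ≠ 0 := by positivity
    have h3 : (h : ℝ) + 1 + 1 ≠ 0 := by positivity
    field_simp
    ring
  have e2 : (∑ p : Fin (h + 1) × Fin (h + 2), (f (mid h 0 p.1) - f (mid (h + 1) 0 p.2))) ^ 2
      ≤ (((h : ℝ) + 1) * ((h : ℝ) + 2)) *
        ∑ p : Fin (h + 1) × Fin (h + 2), (f (mid h 0 p.1) - f (mid (h + 1) 0 p.2)) ^ 2 := by
    have := sq_sum_le_card_mul_sum_sq (s := (Finset.univ : Finset (Fin (h + 1) × Fin (h + 2))))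
      (f := fun p => f (mid h 0 p.1) - f (mid (h + 1) 0 p.2))
    refine this.trans (le_of_eq ?_)
    congr 1
    simp
  rw [e1, mul_pow]
  have h0 : (0 : ℝ) < ((h : ℝ) + 1) * ((h : ℝ) + 2) := by positivity
  calc (1 / (((h : ℝ) + 1) * ((h : ℝ) + 2))) ^ 2 *
        (∑ p : Fin (h + 1) × Fin (h + 2), (f (mid h 0 p.1) - f (mid (h + 1) 0 p.2))) ^ 2
      ≤ (1 / (((h : ℝ) + 1) * ((h : ℝ) + 2))) ^ 2 * ((((h : ℝ) + 1) * ((h : ℝ) + 2)) *
        ∑ p : Fin (h + 1) × Fin (h + 2), (f (mid h 0 p.1) - f (mid (h + 1) 0 p.2)) ^ 2) :=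
        mul_le_mul_of_nonneg_left e2 (sq_nonneg _)
    _ = _ := by field_simp

lemma sum_inv (H : ℕ) : ∑ h ∈ Finset.range H, 1 / (((h : ℝ) + 1) * ((h : ℝ) + 2))
    = 1 - 1 / ((H : ℝ) + 1) := by
  induction H with
  | zero => simp
  | succ H ih =>
    rw [Finset.sum_range_succ, ih]
    push_cast
    have h1 : (H : ℝ) + 1 ≠ 0 := by positivity
    have h2 : (H : ℝ) + 2 ≠ 0 := by positivity
    have h3 : (H : ℝ) + 1 + 1 ≠ 0 := by positivity
    field_simp
    ring

/-- Index set of the edges used by the flow. -/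
abbrev Idx : Type := Σ h : ℕ, Fin (h + 1) × Fin (h + 2)

def edge (q : Idx) : W × W := (mid q.1 0 q.2.1, mid (q.1 + 1) 0 q.2.2)

lemma edge_injective : Function.Injective edge := by
  rintro ⟨h, i, j⟩ ⟨h', i', j'⟩ e
  unfold edge at e
  rw [Prod.mk.injEq] at e
  obtain ⟨e1, _, e3⟩ := mid_inj e.1
  obtain ⟨_, _, e4⟩ := mid_inj e.2
  simp only at e1 e3 e4
  subst e1
  rw [Fin.ext e3, Fin.ext e4]

lemma cap_power {k : ℕ} (hk : 2 ≤ k) : Cap (power can k) (mid 0 0 0) 1 := by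
  classical
  intro f hf
  -- a level beyond which f vanishes
  obtain ⟨H, hH⟩ : ∃ H : ℕ, ∀ i : Fin (H + 1), f (mid H 0 i) = 0 := by
    have h1 : (Sigma.fst '' (Function.support f)).Finite := hf.image _
    obtain ⟨B, hB⟩ := h1.bddAbove
    refine ⟨B + 1, fun i => ?_⟩
    by_contra hne
    have : B + 1 ≤ B := hB ⟨mid (B + 1) 0 i, hne, rfl⟩
    omega
  let S : Finset Idx := (Finset.range H).sigma (fun h => Finset.univ)
  refine ⟨S.image edge, ?_, ?_⟩
  · intro p hp
    rw [Finset.mem_image] at hp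
    obtain ⟨q, _, rfl⟩ := hp
    exact power_adj hk _ _ _
  · rw [Finset.sum_image (fun a _ b _ e => edge_injective e)]
    have hS : ∑ q ∈ S, (f (edge q).1 - f (edge q).2) ^ 2
        = ∑ h ∈ Finset.range H, ∑ p : Fin (h + 1) × Fin (h + 2),
          (f (mid h 0 p.1) - f (mid (h + 1) 0 p.2)) ^ 2 := by
      simp only [S]
      rw [Finset.sum_sigma]
      rfl
    rw [hS, one_mul]
    have h0 : f (mid 0 0 0) = av f 0 := by simp [av]
    have hH0 : av f H = 0 := by
      unfold av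
      rw [Finset.sum_eq_zero (fun i _ => hH i), zero_div]
    have htel : av f 0 = ∑ h ∈ Finset.range H, (av f h - av f (h + 1)) := by
      rw [Finset.sum_range_sub', hH0, sub_zero]
    rw [h0, htel]
    -- Cauchy-Schwarz
    have hcs := Finset.sum_sq_le_sum_mul_sum_of_sq_eq_mul (Finset.range H)
      (r := fun h => (av f h - av f (h + 1)))
      (f := fun h : ℕ => 1 / (((h : ℝ) + 1) * ((h : ℝ) + 2)))
      (g := fun h : ℕ => (((h : ℝ) + 1) * ((h : ℝ) + 2)) * (av f h - av f (h + 1)) ^ 2)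
      (fun h _ => by positivity) (fun h _ => by positivity)
      (fun h _ => by
        have h1 : (h : ℝ) + 1 ≠ 0 := by positivity
        have h2 : (h : ℝ) + 2 ≠ 0 := by positivity
        field_simp)
    refine hcs.trans ?_
    have hA : ∑ h ∈ Finset.range H, 1 / (((h : ℝ) + 1) * ((h : ℝ) + 2)) ≤ 1 := by
      rw [sum_inv]
      have : (0 : ℝ) ≤ 1 / ((H : ℝ) + 1) := by positivity
      linarith
    have hB : ∑ h ∈ Finset.range H, (((h : ℝ) + 1) * ((h : ℝ) + 2)) * (av f h - av f (h + 1)) ^ 2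
        ≤ ∑ h ∈ Finset.range H, ∑ p : Fin (h + 1) × Fin (h + 2),
          (f (mid h 0 p.1) - f (mid (h + 1) 0 p.2)) ^ 2 := by
      apply Finset.sum_le_sum
      intro h _
      have h3 := av_step f h
      have h4 : (0 : ℝ) < ((h : ℝ) + 1) * ((h : ℝ) + 2) := by positivity
      calc _ ≤ (((h : ℝ) + 1) * ((h : ℝ) + 2)) * ((1 / (((h : ℝ) + 1) * ((h : ℝ) + 2))) *
          ∑ p : Fin (h + 1) × Fin (h + 2), (f (mid h 0 p.1) - f (mid (h + 1) 0 p.2)) ^ 2) :=
            mul_le_mul_of_nonneg_left h3 h4.le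
        _ = _ := by field_simp
    have hB0 : 0 ≤ ∑ h ∈ Finset.range H, (((h : ℝ) + 1) * ((h : ℝ) + 2)) *
        (av f h - av f (h + 1)) ^ 2 := Finset.sum_nonneg (fun h _ => by positivity)
    calc _ ≤ 1 * ∑ h ∈ Finset.range H, (((h : ℝ) + 1) * ((h : ℝ) + 2)) *
        (av f h - av f (h + 1)) ^ 2 := mul_le_mul_of_nonneg_right hA hB0
      _ ≤ _ := by rw [one_mul]; exact hB

/-- Every power of order at least two of the canopy graph is transient, from every vertex. -/
theorem power_transient {k : ℕ} (hk : 2 ≤ k) (ρ : W) : ¬ Recurrent (power can k) ρ := by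
  obtain ⟨C, _, hC⟩ := (cap_power hk).all (power_nice (by omega)).conn (by norm_num) ρ
  exact not_recurrent_of_cap (power_nice (by omega)) hC

end Pool.Agent.H424R3.Pow
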