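import Mathlib

set_option autoImplicit false

namespace Pool.Agent.H424R3.VC2

open Finset

section count

variable {T : Type} [Fintype T] [DecidableEq T]

/-- number of coordinates at which two functions differ -/
def hd (w v : T → Bool) : ℕ := (univ.filter fun t => w t ≠ v t).card

lemma sum_pow (v : T → Bool) :
    ∑ w : T → Bool, 8 ^ (Fintype.card T - hd w v) = 9 ^ Fintype.card T := by
  have h1 : ∀ w : T → Bool, 8 ^ (Fintype.card T - hd w v)
      = ∏ t : T, (if w t ≠ v t then 1 else 8) := by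
    intro w
    rw [Finset.prod_ite]
    simp only [prod_const_one, one_mul, prod_const]
    congr 1
    rw [hd]
    have := Finset.card_filter_add_card_filter_not (s := (univ : Finset T))
      (fun t => w t ≠ v t)
    rw [card_univ] at this
    omega
  rw [Finset.sum_congr rfl (fun w _ => h1 w)]
  have h2 := (Finset.prod_univ_sum (fun _ : T => (univ : Finset Bool))
    (fun t b => if b ≠ v t then 1 else 8)).symm
  rw [Fintype.piFinset_univ] at h2
  rw [h2]
  have h3 : ∀ t : T, ∑ b : Bool, (if b ≠ v t then 1 else 8) = 9 := by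
    intro t
    cases v t <;> simp
  simp only [h3, prod_const, card_univ]

lemma ball (v : T → Bool) (r : ℕ) :
    (univ.filter fun w : T → Bool => hd w v ≤ r).card * 8 ^ (Fintype.card T - r)
      ≤ 9 ^ Fintype.card T := by
  rw [← sum_pow v, Finset.card_eq_sum_ones, Finset.sum_mul]
  refine (Finset.sum_le_sum ?_).trans (Finset.sum_le_sum_of_subset (filter_subset _ _))
  intro w hw
  rw [mem_filter] at hw
  rw [one_mul]
  exact Nat.pow_le_pow_right (by norm_num) (by omega)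

lemma nine (N : ℕ) : 9 ^ N ≤ 2 ^ (16 * (N / 5 + 1)) := by
  have h : N ≤ 5 * (N / 5 + 1) := by omega
  calc 9 ^ N ≤ 9 ^ (5 * (N / 5 + 1)) := Nat.pow_le_pow_right (by norm_num) h
    _ = (9 ^ 5) ^ (N / 5 + 1) := by rw [pow_mul]
    _ ≤ (2 ^ 16) ^ (N / 5 + 1) := Nat.pow_le_pow_left (by norm_num) _
    _ = 2 ^ (16 * (N / 5 + 1)) := by rw [pow_mul]

lemma far {K : Type} [Fintype K] [DecidableEq K] (Γ : K → T → Bool) (key : (T → Bool) → K)
    (hN : 100 ≤ Fintype.card T) (hK : Fintype.card K ≤ 2 ^ (Fintype.card T / 4)) :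
    2 ^ Fintype.card T * Fintype.card T ≤ 20 * ∑ w : T → Bool, hd w (Γ (key w)) := by
  set N := Fintype.card T with hNdef
  set r := N / 10 with hr
  set bad := univ.filter (fun w : T → Bool => hd w (Γ (key w)) ≤ r) with hbad
  have hsub : bad ⊆ univ.biUnion (fun κ : K => univ.filter fun w : T → Bool => hd w (Γ κ) ≤ r) := by
    intro w hw
    rw [hbad, mem_filter] at hw
    rw [mem_biUnion]
    exact ⟨key w, mem_univ _, by rw [mem_filter]; exact ⟨mem_univ _, hw.2⟩⟩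
  have h1 : bad.card * 8 ^ (N - r) ≤ Fintype.card K * 9 ^ N := by
    calc bad.card * 8 ^ (N - r)
        ≤ (∑ κ : K, (univ.filter fun w : T → Bool => hd w (Γ κ) ≤ r).card) * 8 ^ (N - r) := by
          gcongr
          exact (card_le_card hsub).trans card_biUnion_le
      _ = ∑ κ : K, (univ.filter fun w : T → Bool => hd w (Γ κ) ≤ r).card * 8 ^ (N - r) := by
          rw [Finset.sum_mul]
      _ ≤ ∑ κ : K, 9 ^ N := Finset.sum_le_sum (fun κ _ => ball (Γ κ) r)
      _ = Fintype.card K * 9 ^ N := by simp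
  have h2 : bad.card * 2 ≤ 2 ^ N := by
    have h3 : (bad.card * 2) * 2 ^ (3 * (N - r)) ≤ 2 ^ N * 2 ^ (3 * (N - r)) := by
      calc (bad.card * 2) * 2 ^ (3 * (N - r)) = (bad.card * 8 ^ (N - r)) * 2 := by
            rw [show (8:ℕ) = 2 ^ 3 by norm_num, ← pow_mul]; ring
        _ ≤ (Fintype.card K * 9 ^ N) * 2 := by gcongr
        _ ≤ (2 ^ (N / 4) * 2 ^ (16 * (N / 5 + 1))) * 2 :=
            Nat.mul_le_mul_right 2 (Nat.mul_le_mul hK (nine N))
        _ = 2 ^ (N / 4 + 16 * (N / 5 + 1) + 1) := by rw [pow_succ, pow_add]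
        _ ≤ 2 ^ (N + 3 * (N - r)) := Nat.pow_le_pow_right (by norm_num) (by omega)
        _ = 2 ^ N * 2 ^ (3 * (N - r)) := by rw [pow_add]
    exact Nat.le_of_mul_le_mul_right h3 (by positivity)
  have hcard : Fintype.card (T → Bool) = 2 ^ N := by simp [hNdef]
  set good := univ.filter (fun w : T → Bool => ¬ hd w (Γ (key w)) ≤ r) with hgood
  have h4 : bad.card + good.card = 2 ^ N := by
    rw [← hcard, ← card_univ (α := T → Bool)]
    exact Finset.card_filter_add_card_filter_not _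
  have h5 : good.card * (r + 1) ≤ ∑ w : T → Bool, hd w (Γ (key w)) := by
    calc good.card * (r + 1) = ∑ w ∈ good, (r + 1) := by simp
      _ ≤ ∑ w ∈ good, hd w (Γ (key w)) := by
          refine Finset.sum_le_sum (fun w hw => ?_)
          rw [hgood, mem_filter] at hw
          omega
      _ ≤ ∑ w : T → Bool, hd w (Γ (key w)) := Finset.sum_le_sum_of_subset (subset_univ _)
  have h6 : 2 ^ N ≤ 2 * good.card := by omega
  have h7 : N ≤ 10 * (r + 1) := by omega
  calc 2 ^ N * N ≤ (2 * good.card) * (10 * (r + 1)) := Nat.mul_le_mul h6 h7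
    _ = 20 * (good.card * (r + 1)) := by ring
    _ ≤ _ := by gcongr

end count

section plane

variable {p : ℕ} [Fact p.Prime]

/-- the coordinates `(x, a, b)` of the incident pairs (point `(x, a x + b)`, line `(a, b)`) -/
abbrev Inc (p : ℕ) : Type := ZMod p × ZMod p × ZMod p

/-- points, and also lines, of the affine plane -/
abbrev Pt (p : ℕ) : Type := ZMod p × ZMod p

/-- sets of incident pairs -/
abbrev W (p : ℕ) : Type := Inc p → Bool

instance : NeZero p := ⟨(Fact.out : p.Prime).ne_zero⟩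

/-- the point `pt` lies on the line `y = a x + b`, `ln = (a, b)`, and the pair belongs to `w` -/
def adj (pt ln : Pt p) (w : W p) : Prop :=
  pt.2 = ln.1 * pt.1 + ln.2 ∧ w (pt.1, ln.1, ln.2) = true

instance (pt ln : Pt p) (w : W p) : Decidable (adj pt ln w) := by unfold adj; infer_instance

lemma card_Inc : Fintype.card (Inc p) = p ^ 3 := by
  simp only [Inc, Fintype.card_prod, ZMod.card]; ring

lemma card_Pt : Fintype.card (Pt p) = p ^ 2 := by
  simp only [Pt, Fintype.card_prod, ZMod.card]; ring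

lemma card_W : Fintype.card (W p) = 2 ^ (p ^ 3) := by
  show Fintype.card (Inc p → Bool) = _
  rw [Fintype.card_fun, card_Inc]; simp

/-- two distinct points lie on at most one common line -/
lemma unique_line {P Q l m : Pt p} (h1 : P.2 = l.1 * P.1 + l.2) (h2 : Q.2 = l.1 * Q.1 + l.2)
    (h3 : P.2 = m.1 * P.1 + m.2) (h4 : Q.2 = m.1 * Q.1 + m.2) : P = Q ∨ l = m := by
  by_cases hx : P.1 = Q.1
  · left
    refine Prod.ext hx ?_
    rw [h1, h2, hx]
  · right
    have h5 : (l.1 - m.1) * (P.1 - Q.1) = 0 := by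
      linear_combination h3 - h1 + h2 - h4
    rcases mul_eq_zero.1 h5 with h | h
    · have ha : l.1 = m.1 := sub_eq_zero.1 h
      refine Prod.ext ha ?_
      have : l.2 = m.2 := by
        have := h1.symm.trans h3
        rw [ha] at this
        exact add_left_cancel this
      exact this
    · exact absurd (sub_eq_zero.1 h) hx

/-- mismatches between the 3-graph and its description by `M` graphs per pair -/
lemma core {M : ℕ} (hp : 5 ≤ p) (hM : M ≤ 2 ^ (p / 8)) (e : Pt p → Pt p → Fin M)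
    (g h : Pt p → W p → Fin M) (f : Fin M → Fin M → Fin M → Bool) :
    2 ^ (p ^ 3) * p ^ 3 ≤ 20 * ∑ w : W p, ∑ pt : Pt p, ∑ ln : Pt p,
      (if ¬ (adj pt ln w ↔ f (e pt ln) (g pt w) (h ln w) = true) then 1 else 0) := by
  classical
  let key : W p → (Pt p → Fin M) × (Pt p → Fin M) := fun w => (fun pt => g pt w, fun ln => h ln w)
  let Γ : (Pt p → Fin M) × (Pt p → Fin M) → Inc p → Bool := fun κ t =>
    f (e (t.1, t.2.1 * t.1 + t.2.2) t.2) (κ.1 (t.1, t.2.1 * t.1 + t.2.2)) (κ.2 t.2)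
  have hp3 : 125 ≤ p ^ 3 := by
    calc 125 = 5 ^ 3 := by norm_num
      _ ≤ p ^ 3 := Nat.pow_le_pow_left hp 3
  have hK : Fintype.card ((Pt p → Fin M) × (Pt p → Fin M))
      ≤ 2 ^ (Fintype.card (Inc p) / 4) := by
    rw [Fintype.card_prod, Fintype.card_fun, card_Pt, Fintype.card_fin, card_Inc, ← pow_add]
    calc M ^ (p ^ 2 + p ^ 2) ≤ (2 ^ (p / 8)) ^ (p ^ 2 + p ^ 2) := Nat.pow_le_pow_left hM _
      _ = 2 ^ ((p / 8) * (p ^ 2 + p ^ 2)) := by rw [pow_mul]
      _ ≤ 2 ^ (p ^ 3 / 4) := by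
          refine Nat.pow_le_pow_right (by norm_num) ?_
          rw [Nat.le_div_iff_mul_le (by norm_num)]
          calc (p / 8) * (p ^ 2 + p ^ 2) * 4 = (8 * (p / 8)) * p ^ 2 := by ring
            _ ≤ p * p ^ 2 := Nat.mul_le_mul_right _ (Nat.mul_div_le p 8)
            _ = p ^ 3 := by ring
  have hfar := far Γ key (by rw [card_Inc]; omega) hK
  rw [card_Inc] at hfar
  refine hfar.trans ?_
  refine Nat.mul_le_mul_left _ (Finset.sum_le_sum (fun w _ => ?_))
  rw [← Fintype.sum_prod_type (f := fun q : Pt p × Pt p =>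
    if ¬ (adj q.1 q.2 w ↔ f (e q.1 q.2) (g q.1 w) (h q.2 w) = true) then 1 else 0),
    ← Finset.card_filter, hd]
  refine Finset.card_le_card_of_injOn
    (fun t : Inc p => (((t.1, t.2.1 * t.1 + t.2.2), t.2) : Pt p × Pt p)) ?_ ?_
  · intro t ht
    simp only [coe_filter, mem_univ, true_and, Set.mem_ofPred_eq] at ht ⊢
    intro hiff
    apply ht
    have hadj : adj (t.1, t.2.1 * t.1 + t.2.2) t.2 w ↔ w t = true := by
      simp [adj]
    rw [hadj] at hiff
    exact Bool.eq_iff_iff.2 hiff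
  · intro t _ s _ hts
    simp only [Prod.mk.injEq] at hts
    exact Prod.ext hts.1.1 hts.2

/-- a bijection of `{0, ..., n-1}` with pairs (point or line, set of incident pairs) -/
noncomputable def φ (p : ℕ) [Fact p.Prime] :
    Fin (Fintype.card (Pt p × W p)) ≃ Pt p × W p := (Fintype.equivFin _).symm

/-- the blown-up 3-graph -/
noncomputable def HH (p : ℕ) [Fact p.Prime] :
    Finset (Fin (Fintype.card (Pt p × W p)) × Fin (Fintype.card (Pt p × W p)) ×
      Fin (Fintype.card (Pt p × W p))) :=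
  univ.filter fun t => adj (φ p t.1).1 (φ p t.2.1).1 (φ p t.2.2).2

lemma mem_HH (x y z : Fin (Fintype.card (Pt p × W p))) :
    (x, y, z) ∈ HH p ↔ adj (φ p x).1 (φ p y).1 (φ p z).2 := by
  simp [HH]

/-- no two first and two second vertices are shattered -/
lemma vc2 : ¬ ∃ a b : Fin 2 → Fin (Fintype.card (Pt p × W p)), ∀ S : Set (Fin 2 × Fin 2),
    ∃ z : Fin (Fintype.card (Pt p × W p)), ∀ i j : Fin 2, ((a i, b j, z) ∈ HH p ↔ (i, j) ∈ S) := by
  rintro ⟨a, b, hab⟩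
  obtain ⟨z, hz⟩ := hab Set.univ
  obtain ⟨z', hz'⟩ := hab {(0, 0)}
  simp only [mem_HH, Set.mem_univ, iff_true] at hz
  simp only [mem_HH] at hz'
  have h00 := (hz' 0 0).2 rfl
  have h01 : ¬ adj (φ p (a 0)).1 (φ p (b 1)).1 (φ p z').2 := by
    rw [hz' 0 1]; simp
  have h10 : ¬ adj (φ p (a 1)).1 (φ p (b 0)).1 (φ p z').2 := by
    rw [hz' 1 0]; simp
  rcases unique_line (hz 0 0).1 (hz 1 0).1 (hz 0 1).1 (hz 1 1).1 with h | h
  · rw [h] at h00
    exact h10 h00
  · rw [h] at h00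
    exact h01 h00

omit [Fact p.Prime] in
lemma move3 {A B C D : Type} [Fintype A] [Fintype B] [Fintype C] [Fintype D]
    (G : A → B → C → D → ℕ) :
    ∑ a, ∑ b, ∑ c, ∑ d, G a b c d = ∑ b, ∑ c, ∑ d, ∑ a, G a b c d := by
  rw [Finset.sum_comm]
  refine Finset.sum_congr rfl fun b _ => ?_
  rw [Finset.sum_comm]
  refine Finset.sum_congr rfl fun c _ => ?_
  rw [Finset.sum_comm]

omit [Fact p.Prime] in
lemma sum6 {n : ℕ} {A B : Type} [Fintype A] [Fintype B] (ψ : A × B ≃ Fin n)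
    (F : Fin n → Fin n → Fin n → ℕ) :
    ∑ x, ∑ y, ∑ z, F x y z = ∑ b1 : B, ∑ b2 : B, ∑ a3 : A, ∑ b : B, ∑ a1 : A, ∑ a2 : A,
      F (ψ (a1, b1)) (ψ (a2, b2)) (ψ (a3, b)) := by
  calc ∑ x, ∑ y, ∑ z, F x y z
      = ∑ q1 : A × B, ∑ q2 : A × B, ∑ q3 : A × B, F (ψ q1) (ψ q2) (ψ q3) := by
        rw [← Equiv.sum_comp ψ]
        refine Finset.sum_congr rfl fun q1 _ => ?_
        rw [← Equiv.sum_comp ψ]
        refine Finset.sum_congr rfl fun q2 _ => ?_
        rw [← Equiv.sum_comp ψ]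
    _ = ∑ a1 : A, ∑ b1 : B, ∑ a2 : A, ∑ b2 : B, ∑ a3 : A, ∑ b : B,
        F (ψ (a1, b1)) (ψ (a2, b2)) (ψ (a3, b)) := by
        simp only [Fintype.sum_prod_type]
    _ = _ := by
        refine Finset.sum_comm.trans (Finset.sum_congr rfl fun b1 _ => ?_)
        calc ∑ a1 : A, ∑ a2 : A, ∑ b2 : B, ∑ a3 : A, ∑ b : B,
              F (ψ (a1, b1)) (ψ (a2, b2)) (ψ (a3, b))
            = ∑ a1 : A, ∑ b2 : B, ∑ a3 : A, ∑ b : B, ∑ a2 : A,
              F (ψ (a1, b1)) (ψ (a2, b2)) (ψ (a3, b)) :=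
              Finset.sum_congr rfl fun a1 _ => move3 _
          _ = _ := move3 _

/-- every description by `M` graphs per pair errs on many triples -/
lemma error {M : ℕ} (hp : 5 ≤ p) (hM : M ≤ 2 ^ (p / 8))
    (e g h : Fin (Fintype.card (Pt p × W p)) → Fin (Fintype.card (Pt p × W p)) → Fin M)
    (f : Fin M → Fin M → Fin M → Bool) :
    (2 ^ (p ^ 3)) ^ 3 * p ^ 5 ≤ 20 * ((univ : Finset (Fin (Fintype.card (Pt p × W p)) ×
      Fin (Fintype.card (Pt p × W p)) × Fin (Fintype.card (Pt p × W p)))).filter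
        (fun t => ¬ (t ∈ HH p ↔ f (e t.1 t.2.1) (g t.1 t.2.2) (h t.2.1 t.2.2) = true))).card := by
  classical
  set ψ := (φ p).symm with hψ
  have h1 : ((univ : Finset (Fin (Fintype.card (Pt p × W p)) ×
      Fin (Fintype.card (Pt p × W p)) × Fin (Fintype.card (Pt p × W p)))).filter
        (fun t => ¬ (t ∈ HH p ↔ f (e t.1 t.2.1) (g t.1 t.2.2) (h t.2.1 t.2.2) = true))).card
      = ∑ w1 : W p, ∑ w2 : W p, ∑ p3 : Pt p, ∑ w : W p, ∑ pt : Pt p, ∑ ln : Pt p,
        (if ¬ (adj pt ln w ↔ f (e (ψ (pt, w1)) (ψ (ln, w2))) (g (ψ (pt, w1)) (ψ (p3, w)))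
          (h (ψ (ln, w2)) (ψ (p3, w))) = true) then 1 else 0) := by
    rw [Finset.card_filter, Fintype.sum_prod_type]
    simp only [Fintype.sum_prod_type (α₁ := Fin (Fintype.card (Pt p × W p)))]
    rw [sum6 ψ]
    simp only [mem_HH, hψ, Equiv.apply_symm_apply]
  rw [h1]
  calc (2 ^ (p ^ 3)) ^ 3 * p ^ 5
      = ∑ w1 : W p, ∑ w2 : W p, ∑ p3 : Pt p, 2 ^ (p ^ 3) * p ^ 3 := by
        simp only [Finset.sum_const, Finset.card_univ, card_W, card_Pt, smul_eq_mul]
        ring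
    _ ≤ ∑ w1 : W p, ∑ w2 : W p, ∑ p3 : Pt p, 20 * ∑ w : W p, ∑ pt : Pt p, ∑ ln : Pt p,
        (if ¬ (adj pt ln w ↔ f (e (ψ (pt, w1)) (ψ (ln, w2))) (g (ψ (pt, w1)) (ψ (p3, w)))
          (h (ψ (ln, w2)) (ψ (p3, w))) = true) then 1 else 0) := by
        refine Finset.sum_le_sum fun w1 _ => Finset.sum_le_sum fun w2 _ =>
          Finset.sum_le_sum fun p3 _ => ?_
        exact core hp hM (fun pt ln => e (ψ (pt, w1)) (ψ (ln, w2)))
          (fun pt w => g (ψ (pt, w1)) (ψ (p3, w))) (fun ln w => h (ψ (ln, w2)) (ψ (p3, w))) f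
    _ = _ := by simp only [Finset.mul_sum]

end plane

/-- exponentials beat powers, along the primes -/
lemma exists_prime (C D : ℝ) (hC : 0 < C) (hD : 0 < D) :
    ∃ p : ℕ, p.Prime ∧ 5 ≤ p ∧ C * (1 / (1 / (40 * (p : ℝ)))) ^ D ≤ 2 ^ (p / 8) := by
  set k := ⌈D⌉₊ with hk
  have h1 := tendsto_pow_const_div_const_pow_of_one_lt k (r := (1.09 : ℝ)) (by norm_num)
  have hpos : 0 < 1 / (2 * C * 40 ^ k) := by positivity
  obtain ⟨n0, hn0⟩ := Filter.eventually_atTop.1 (h1.eventually (gt_mem_nhds hpos))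
  obtain ⟨p, hp1, hp2⟩ := Nat.exists_infinite_primes (max n0 5)
  have hp0 : n0 ≤ p := (le_max_left _ _).trans hp1
  have hp5 : 5 ≤ p := (le_max_right _ _).trans hp1
  refine ⟨p, hp2, hp5, ?_⟩
  have hpr : (5 : ℝ) ≤ p := by exact_mod_cast hp5
  have h2 := hn0 p hp0
  rw [div_lt_div_iff₀ (by positivity) (by positivity)] at h2
  have h3 : (1 / (1 / (40 * (p : ℝ)))) ^ D ≤ (40 * (p : ℝ)) ^ k := by
    rw [one_div_one_div, ← Real.rpow_natCast]
    exact Real.rpow_le_rpow_of_exponent_le (by linarith) (Nat.le_ceil D)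
  have h4 : (1.09 : ℝ) ^ p ≤ 2 * 2 ^ (p / 8) := by
    conv_lhs => rw [← Nat.div_add_mod p 8, pow_add, pow_mul]
    have h5 : ((1.09 : ℝ) ^ 8) ^ (p / 8) ≤ 2 ^ (p / 8) :=
      pow_le_pow_left₀ (by positivity) (by norm_num) _
    have h6 : (1.09 : ℝ) ^ (p % 8) ≤ 2 := by
      calc (1.09 : ℝ) ^ (p % 8) ≤ 1.09 ^ 8 :=
            pow_le_pow_right₀ (by norm_num) (Nat.mod_lt p (by norm_num)).le
        _ ≤ 2 := by norm_num
    calc ((1.09 : ℝ) ^ 8) ^ (p / 8) * 1.09 ^ (p % 8) ≤ 2 ^ (p / 8) * 2 := by gcongr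
      _ = _ := by ring
  calc C * (1 / (1 / (40 * (p : ℝ)))) ^ D ≤ C * (40 * (p : ℝ)) ^ k := by gcongr
    _ = C * 40 ^ k * (p : ℝ) ^ k := by rw [mul_pow]; ring
    _ ≤ 2 ^ (p / 8) := by
        have : (p : ℝ) ^ k * (2 * C * 40 ^ k) < 1 * 1.09 ^ p := h2
        nlinarith

/-- the disproof -/
theorem main :
    ¬ (∀ k : ℕ, ∃ C D : ℝ, 0 < C ∧ 0 < D ∧
      ∀ ε : ℝ, 0 < ε → ε < 1 →
      ∀ n : ℕ, ∀ H : Finset (Fin n × Fin n × Fin n),
        (¬ ∃ a b : Fin k → Fin n, ∀ S : Set (Fin k × Fin k), ∃ z : Fin n,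
            ∀ i j : Fin k, ((a i, b j, z) ∈ H ↔ (i, j) ∈ S)) →
        ∃ M : ℕ, (M : ℝ) ≤ C * (1 / ε) ^ D ∧
          ∃ e g h : Fin n → Fin n → Fin M, ∃ f : Fin M → Fin M → Fin M → Bool,
            (((Finset.univ : Finset (Fin n × Fin n × Fin n)).filter
                (fun t : Fin n × Fin n × Fin n =>
                  ¬ (t ∈ H ↔ f (e t.1 t.2.1) (g t.1 t.2.2) (h t.2.1 t.2.2) = true))).card : ℝ)
              ≤ ε * (n : ℝ) ^ 3) := by
  intro hall
  obtain ⟨C, D, hC, hD, hmain⟩ := hall 2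
  obtain ⟨p, hp, hp5, hpC⟩ := exists_prime C D hC hD
  haveI : Fact p.Prime := ⟨hp⟩
  have hpr : (5 : ℝ) ≤ p := by exact_mod_cast hp5
  obtain ⟨M, hM, e, g, h, f, herr⟩ := hmain (1 / (40 * (p : ℝ))) (by positivity)
    (by rw [div_lt_one (by positivity)]; linarith) (Fintype.card (Pt p × W p)) (HH p) vc2
  have hM2 : M ≤ 2 ^ (p / 8) := by
    have : (M : ℝ) ≤ ((2 ^ (p / 8) : ℕ) : ℝ) := by push_cast; exact hM.trans hpC
    exact_mod_cast this
  have h1 := error hp5 hM2 e g h f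
  have h2 : ((((2 ^ (p ^ 3)) ^ 3 * p ^ 5 : ℕ)) : ℝ) ≤ ((20 * ((univ : Finset (Fin (Fintype.card
      (Pt p × W p)) × Fin (Fintype.card (Pt p × W p)) × Fin (Fintype.card (Pt p × W p)))).filter
        (fun t => ¬ (t ∈ HH p ↔ f (e t.1 t.2.1) (g t.1 t.2.2) (h t.2.1 t.2.2) = true))).card : ℕ)
        : ℝ) := by exact_mod_cast h1
  push_cast at h2
  have hn : ((Fintype.card (Pt p × W p) : ℕ) : ℝ) = (p : ℝ) ^ 2 * 2 ^ (p ^ 3) := by
    rw [Fintype.card_prod, card_Pt, card_W]; push_cast; ring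
  rw [hn] at herr
  have h3 : 1 / (40 * (p : ℝ)) * ((p : ℝ) ^ 2 * 2 ^ (p ^ 3)) ^ 3
      = (2 ^ (p ^ 3)) ^ 3 * (p : ℝ) ^ 5 / 40 := by
    field_simp
  rw [h3] at herr
  have h4 : 0 < ((2 : ℝ) ^ (p ^ 3)) ^ 3 * (p : ℝ) ^ 5 := by positivity
  linarith

end Pool.Agent.H424R3.VC2
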